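import Mathlib
import Pool.Agent.Lib.MP_95e7ec_an.Rb.Basic

/-!
# Rc, Defs: rings, strands, itineraries

Setting. `Y` is a smooth planar field, `0 < δ ≤ 1`, and `c_k = t₀ + k (2π/N)` are the listed
directions. A ring is the closed region `(D₁ ∪ C₁) \ D₂` between an outer barrier `C₁` (along which
`Y` has the inside `D₁` on its left) and an inner barrier `C₂` (the same for `turn δ Y`), which contains
no special point. `Lst` is the set of the points of the ring where `Y` has the direction `c_k`.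
-/

set_option autoImplicit false

open Set Filter Topology MeasureTheory
open scoped ContDiff ENNReal

namespace Pool.Agent.Lib.MP_95e7ec_an

/-- the listed angles -/
noncomputable def angk (t₀ : ℝ) (N : ℕ) (k : ℤ) : ℝ := t₀ + k * (2 * Real.pi / N)

/-- a ring without special points -/
structure Ring (Y : ℝ × ℝ → ℝ × ℝ) (δ t₀ : ℝ) (N : ℕ) (C₁ D₁ C₂ D₂ : Set (ℝ × ℝ)) : Prop where
  smooth : ContDiff ℝ 2 Y
  δpos : 0 < δ
  δle : δ ≤ 1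
  Npos : 0 < N
  small : 2 * Real.pi / N ≤ δ / 200
  jp₁ : JP C₁ D₁
  jp₂ : JP C₂ D₂
  side₁ : Side Y C₁ D₁
  side₂ : Side (turn δ Y) C₂ D₂
  nest : D₂ ∪ C₂ ⊆ D₁
  spec : ∀ k : ℕ, k < N → ∀ w ∈ (D₁ ∪ C₁) \ D₂,
    det2 (Y w) (dirv (t₀ + k * (2 * Real.pi / N))) = 0 → cur Y 0 w * cur Y δ w ≠ 0

/-- the points of `R` where `Y` has the direction number `k` -/
def Lst (Y : ℝ × ℝ → ℝ × ℝ) (t₀ : ℝ) (N : ℕ) (R : Set (ℝ × ℝ)) (k : ℤ) : Set (ℝ × ℝ) :=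
  {w | w ∈ R ∧ ∃ ρ : ℝ, 0 < ρ ∧ Y w = ρ • dirv (angk t₀ N k)}

/-- the direction of `Y z` is in the open arc between the listed directions `q` and `q + 1` -/
def ArcAt (Y : ℝ × ℝ → ℝ × ℝ) (t₀ : ℝ) (N : ℕ) (q : ℤ) (z : ℝ × ℝ) : Prop :=
  det2 (Y z) (dirv (angk t₀ N q)) < 0 ∧ 0 < det2 (Y z) (dirv (angk t₀ N (q + 1)))

/-- a closed orbit of the turned field with its inside, on the left -/
structure Leaf (Y : ℝ × ℝ → ℝ × ℝ) (a : ℝ) (C D : Set (ℝ × ℝ)) : Prop where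
  orb : IsClosedOrbit (turn a Y) C
  jp : JP C D
  side : Side (turn a Y) C D

/-- `φ a t z` is a flow which follows `turn a Y` in the set `R` (positively invariant) -/
structure Flw (Y : ℝ × ℝ → ℝ × ℝ) (δ : ℝ) (R : Set (ℝ × ℝ)) (φ : ℝ → ℝ → ℝ × ℝ → ℝ × ℝ) :
    Prop where
  cont : Continuous fun p : ℝ × ℝ × (ℝ × ℝ) => φ p.1 p.2.1 p.2.2
  zero : ∀ a z, φ a 0 z = z
  add : ∀ a s t z, φ a (s + t) z = φ a s (φ a t z)
  mem : ∀ a ∈ Set.Ioo 0 δ, ∀ z ∈ R, ∀ t, 0 ≤ t → φ a t z ∈ R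
  deriv : ∀ a ∈ Set.Ioo 0 δ, ∀ z ∈ R, ∀ t, 0 ≤ t →
    HasDerivAt (fun s => φ a s z) (turn a Y (φ a t z)) t

/-- `Γ t z` is a flow which follows the strands of the set `L` where `Y` has the direction `c`,
outwards: `det2 (Γ t z) (dirv c)` increases with speed `1`. -/
structure Strd (Y : ℝ × ℝ → ℝ × ℝ) (c : ℝ) (L : Set (ℝ × ℝ)) (Γ : ℝ → ℝ × ℝ → ℝ × ℝ) :
    Prop where
  cont : Continuous fun p : ℝ × (ℝ × ℝ) => Γ p.1 p.2
  zero : ∀ z, Γ 0 z = z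
  add : ∀ s t z, Γ (s + t) z = Γ s (Γ t z)
  deriv : ∀ t z, Γ t z ∈ L → ∃ g : ℝ × ℝ, HasDerivAt (fun s => Γ s z) g t ∧
    det2 g (dirv c) = 1 ∧ det2 (fderiv ℝ Y (Γ t z) g) (dirv c) = 0
  level : ∀ t z, Γ t z ∈ L → ∀ᶠ s in 𝓝 t, det2 (Y (Γ s z)) (dirv c) = 0 ∧
    det2 (Γ s z) (dirv c) = det2 (Γ t z) (dirv c) + (s - t)

/-- the piece of the strand of `z` between the times `0` and `T` is in `L` -/
def Seg (Γ : ℝ → ℝ × ℝ → ℝ × ℝ) (L : Set (ℝ × ℝ)) (z : ℝ × ℝ) (T : ℝ) : Prop :=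
  ∀ t ∈ Set.uIcc 0 T, Γ t z ∈ L

/-- `s` is the time from `z` to the next point with a listed direction, through the arc `q` -/
def Step (Y : ℝ × ℝ → ℝ × ℝ) (t₀ : ℝ) (N : ℕ) (φ : ℝ → ℝ → ℝ × ℝ → ℝ × ℝ) (a : ℝ) (q : ℤ)
    (z : ℝ × ℝ) (s : ℝ) : Prop :=
  0 < s ∧ ∀ t ∈ Set.Ioo 0 s, ArcAt Y t₀ N q (φ a t z)

/-- `Cost Y t₀ N Reg c`: there are finitely many intervals of angles `ψ`, of total length at least
`c`, and for each `ψ` different points of `Reg` for the different intervals which contain `ψ`, at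
which `Y` has a listed direction and the level curve of the direction has the tangent direction
`ψ`. -/
def Cost (Y : ℝ × ℝ → ℝ × ℝ) (t₀ : ℝ) (N : ℕ) (Reg : Set (ℝ × ℝ)) (c : ℝ) : Prop :=
  ∃ (ι : Type) (_ : Fintype ι) (lo hi : ι → ℝ),
    (∀ x, t₀ - Real.pi ≤ lo x ∧ lo x ≤ hi x ∧ hi x ≤ t₀ + 2 * Real.pi) ∧
    c ≤ ∑ x, (hi x - lo x) ∧
    ∀ ψ : ℝ, ∃ z : ι → ℝ × ℝ,
      (∀ x, ψ ∈ Set.Ioo (lo x) (hi x) → z x ∈ Reg ∧
        (∃ k : ℕ, k < N ∧ det2 (Y (z x)) (dirv (t₀ + k * (2 * Real.pi / N))) = 0) ∧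
        det2 (fderiv ℝ Y (z x) (dirv ψ)) (Y (z x)) = 0) ∧
      ∀ x y, ψ ∈ Set.Ioo (lo x) (hi x) → ψ ∈ Set.Ioo (lo y) (hi y) → z x = z y → x = y

end Pool.Agent.Lib.MP_95e7ec_an
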