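import Mathlib
import Pool.Agent.Lib.MP_95e7ec_an.Rc.Defs

/-!
# Rc, CostLem: rules for the cost
-/

set_option autoImplicit false

open Set Filter Topology MeasureTheory
open scoped ContDiff ENNReal

namespace Pool.Agent.Lib.MP_95e7ec_an

variable {Y : ℝ × ℝ → ℝ × ℝ} {t₀ : ℝ} {N : ℕ}

theorem Cost.mono {Reg Reg' : Set (ℝ × ℝ)} {c c' : ℝ} (h : Cost Y t₀ N Reg c) (hR : Reg ⊆ Reg')
    (hc : c' ≤ c) : Cost Y t₀ N Reg' c' := by
  obtain ⟨ι, hf, lo, hi, h1, h2, h3⟩ := h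
  refine ⟨ι, hf, lo, hi, h1, le_trans hc h2, ?_⟩
  intro ψ
  obtain ⟨z, hz1, hz2⟩ := h3 ψ
  refine ⟨z, ?_, hz2⟩
  intro x hx
  exact ⟨hR (hz1 x hx).1, (hz1 x hx).2⟩

/-- no intervals -/
theorem Cost.zero (Reg : Set (ℝ × ℝ)) {c : ℝ} (hc : c ≤ 0) : Cost Y t₀ N Reg c := by
  refine ⟨Empty, inferInstance, fun _ => 0, fun _ => 0, ?_, ?_, ?_⟩
  · intro x
    exact x.elim
  · simpa using hc
  · intro ψ
    exact ⟨fun x => x.elim, fun x => x.elim, fun x => x.elim⟩

/-- disjoint regions: take the sum type of the two index types -/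
theorem Cost.union {Reg Reg' : Set (ℝ × ℝ)} {c c' : ℝ} (hd : Disjoint Reg Reg')
    (h : Cost Y t₀ N Reg c) (h' : Cost Y t₀ N Reg' c') : Cost Y t₀ N (Reg ∪ Reg') (c + c') := by
  obtain ⟨ι, hf, lo, hi, h1, h2, h3⟩ := h
  obtain ⟨ι', hf', lo', hi', h1', h2', h3'⟩ := h'
  refine ⟨ι ⊕ ι', inferInstance, Sum.elim lo lo', Sum.elim hi hi', ?_, ?_, ?_⟩
  · rintro (x | x)
    · exact h1 x
    · exact h1' x
  · rw [Fintype.sum_sum_type]
    simp only [Sum.elim_inl, Sum.elim_inr]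
    linarith
  · intro ψ
    obtain ⟨z, hz1, hz2⟩ := h3 ψ
    obtain ⟨z', hz1', hz2'⟩ := h3' ψ
    refine ⟨Sum.elim z z', ?_, ?_⟩
    · rintro (x | x) hx
      · simp only [Sum.elim_inl] at hx ⊢
        exact ⟨Or.inl (hz1 x hx).1, (hz1 x hx).2⟩
      · simp only [Sum.elim_inr] at hx ⊢
        exact ⟨Or.inr (hz1' x hx).1, (hz1' x hx).2⟩
    · rintro (x | x) (y | y) hx hy hxy
      · simp only [Sum.elim_inl] at hx hy hxy
        rw [hz2 x y hx hy hxy]
      · simp only [Sum.elim_inl, Sum.elim_inr] at hx hy hxy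
        exact absurd (hxy ▸ (hz1 x hx).1) (Set.disjoint_right.1 hd (hz1' y hy).1)
      · simp only [Sum.elim_inl, Sum.elim_inr] at hx hy hxy
        exact absurd (hxy ▸ (hz1' x hx).1) (Set.disjoint_left.1 hd (hz1 y hy).1)
      · simp only [Sum.elim_inr] at hx hy hxy
        rw [hz2' x y hx hy hxy]

/-- finitely many pairwise disjoint regions -/
theorem Cost.biUnion {ι : Type*} [DecidableEq ι] (s : Finset ι) {Reg : ι → Set (ℝ × ℝ)} {c : ι → ℝ}
    (hd : ∀ i ∈ s, ∀ j ∈ s, i ≠ j → Disjoint (Reg i) (Reg j))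
    (h : ∀ i ∈ s, Cost Y t₀ N (Reg i) (c i)) :
    Cost Y t₀ N (⋃ i ∈ s, Reg i) (∑ i ∈ s, c i) := by
  induction s using Finset.induction_on with
  | empty =>
    simp only [Finset.sum_empty]
    exact Cost.zero _ le_rfl
  | insert a s ha ih =>
    rw [Finset.sum_insert ha, Finset.set_biUnion_insert]
    refine Cost.union ?_ (h a (Finset.mem_insert_self a s)) (ih ?_ ?_)
    · rw [Set.disjoint_iUnion₂_right]
      intro i hi
      refine hd a (Finset.mem_insert_self a s) i (Finset.mem_insert_of_mem hi) ?_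
      rintro rfl
      exact ha hi
    · intro i hi j hj hij
      exact hd i (Finset.mem_insert_of_mem hi) j (Finset.mem_insert_of_mem hj) hij
    · intro i hi
      exact h i (Finset.mem_insert_of_mem hi)

end Pool.Agent.Lib.MP_95e7ec_an
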