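import Mathlib
import Pool.Agent.Lib.MP_95e7ec_an.Rc.Defs
import Pool.Agent.Lib.MP_95e7ec_an.Rb.TypeA

/-!
# Rc, RingA: facts on rings, part 1
-/

set_option autoImplicit false

open Set Filter Topology MeasureTheory
open scoped ContDiff ENNReal

namespace Pool.Agent.Lib.MP_95e7ec_an

variable {Y : ℝ × ℝ → ℝ × ℝ} {δ t₀ : ℝ} {N : ℕ} {C₁ D₁ C₂ D₂ : Set (ℝ × ℝ)}

private theorem RingA_split {N : ℕ} (hN : 0 < N) (k : ℤ) :
    ∃ (k' : ℕ) (m : ℤ), k' < N ∧ k = k' + m * N := by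
  have hN' : (0 : ℤ) < N := by exact_mod_cast hN
  refine ⟨(k % N).toNat, k / N, ?_, ?_⟩
  · have h1 := Int.emod_nonneg k hN'.ne'
    have h2 := Int.emod_lt_of_pos k hN'
    omega
  · have h1 := Int.emod_nonneg k hN'.ne'
    have h2 := Int.emod_add_mul_ediv k N
    rw [Int.toNat_of_nonneg h1]
    linarith [mul_comm (k / (N : ℤ)) (N : ℤ)]

/-- `dirv (angk (k + N)) = dirv (angk k)`, more generally for multiples of `N`; so the condition
`spec` of a ring holds for all integers `k` -/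
theorem dirv_angk_mod (t₀ : ℝ) {N : ℕ} (hN : 0 < N) (k : ℤ) :
    ∃ (k' : ℕ) (m : ℤ), k' < N ∧ angk t₀ N k = angk t₀ N k' + m * (2 * Real.pi) ∧
      dirv (angk t₀ N k) = dirv (t₀ + k' * (2 * Real.pi / N)) := by
  obtain ⟨k', m, hk', hk⟩ := RingA_split hN k
  have hN' : (N : ℝ) ≠ 0 := by exact_mod_cast hN.ne'
  have h1 : angk t₀ N k = angk t₀ N k' + m * (2 * Real.pi) := by
    simp only [angk]
    rw [hk]
    push_cast
    field_simp
    ring
  have h2 : angk t₀ N k' = t₀ + k' * (2 * Real.pi / N) := by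
    simp only [angk, Int.cast_natCast]
  refine ⟨k', m, hk', h1, ?_⟩
  rw [h1, h2]
  simp only [dirv, Real.cos_add_int_mul_two_pi, Real.sin_add_int_mul_two_pi]

theorem Ring.spec' (h : Ring Y δ t₀ N C₁ D₁ C₂ D₂) (k : ℤ) {w : ℝ × ℝ}
    (hw : w ∈ (D₁ ∪ C₁) \ D₂) (h0 : det2 (Y w) (dirv (angk t₀ N k)) = 0) :
    cur Y 0 w * cur Y δ w ≠ 0 := by
  obtain ⟨k', m, hk', -, h2⟩ := dirv_angk_mod t₀ h.Npos k
  rw [h2] at h0
  exact h.spec k' hk' w hw h0

/-- the ring is compact (`D₁ ∪ C₁` is compact, `D₂` is open) -/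
theorem Ring.cpt (h : Ring Y δ t₀ N C₁ D₁ C₂ D₂) : IsCompact ((D₁ ∪ C₁) \ D₂) :=
  h.jp₁.cpt.diff h.jp₂.op

/-- `Y` has no zero in the ring (a zero is a special point of every direction) -/
theorem Ring.ne (h : Ring Y δ t₀ N C₁ D₁ C₂ D₂) {w : ℝ × ℝ} (hw : w ∈ (D₁ ∪ C₁) \ D₂) :
    Y w ≠ 0 := by
  intro h0
  refine h.spec' 0 hw ?_ ?_
  · rw [h0]; simp [det2]
  · have h1 : cur Y 0 w = 0 := by rw [cur, h0]; simp [det2]
    rw [h1, zero_mul]

/-- `Lst` is compact: on the ring it is the closed set of the `w` with `det2 (Y w) (dirv c) = 0` and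
nonnegative scalar product of `Y w` and `dirv c`, since `Y w ≠ 0` (`rb_parallel`) -/
theorem Ring.lst_cpt (h : Ring Y δ t₀ N C₁ D₁ C₂ D₂) (k : ℤ) :
    IsCompact (Lst Y t₀ N ((D₁ ∪ C₁) \ D₂) k) := by
  set c := angk t₀ N k with hc
  have hYc : Continuous Y := h.smooth.continuous
  have hlin : Continuous fun w : ℝ × ℝ => det2 w (dirv c) := by
    unfold det2
    fun_prop
  have h1 : IsClosed {w : ℝ × ℝ | det2 (Y w) (dirv c) = 0 ∧
      0 ≤ (Y w).1 * Real.cos c + (Y w).2 * Real.sin c} := by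
    refine IsClosed.and ?_ ?_
    · exact isClosed_eq (hlin.comp hYc) continuous_const
    · exact isClosed_le continuous_const (by fun_prop)
  have h2 : Lst Y t₀ N ((D₁ ∪ C₁) \ D₂) k = ((D₁ ∪ C₁) \ D₂) ∩
      {w : ℝ × ℝ | det2 (Y w) (dirv c) = 0 ∧
        0 ≤ (Y w).1 * Real.cos c + (Y w).2 * Real.sin c} := by
    ext w
    constructor
    · rintro ⟨hw, ρ, hρ, h3⟩
      refine ⟨hw, ?_, ?_⟩
      · rw [h3, rb_det2_smul_left, rb_det2_self, mul_zero]
      · rw [h3]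
        simp only [dirv, Prod.smul_fst, Prod.smul_snd, smul_eq_mul]
        nlinarith [Real.sin_sq_add_cos_sq c, mul_pos hρ one_pos]
    · rintro ⟨hw, h3, h4⟩
      refine ⟨hw, (Y w).1 * Real.cos c + (Y w).2 * Real.sin c, lt_of_le_of_ne h4 ?_,
        rb_parallel h3⟩
      intro h5
      refine h.ne hw ?_
      rw [rb_parallel h3, ← h5, zero_smul]
  rw [h2]
  exact h.cpt.inter_right h1

/-- a point with a listed direction is not in an open arc -/
theorem Ring.not_arc (h : Ring Y δ t₀ N C₁ D₁ C₂ D₂) {k q : ℤ} {w : ℝ × ℝ} {R : Set (ℝ × ℝ)}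
    (hw : w ∈ Lst Y t₀ N R k) : ¬ ArcAt Y t₀ N q w := by
  rintro ⟨h1, h2⟩
  obtain ⟨-, ρ, hρ, h3⟩ := hw
  rw [h3, rb_det2_smul_left, rb_det2_dirv] at h1 h2
  have hN' : (0 : ℝ) < N := by exact_mod_cast h.Npos
  have hpi := Real.pi_pos
  set α : ℝ := 2 * Real.pi / N with hα
  have hα0 : 0 < α := by positivity
  have hNα : (N : ℝ) * α = 2 * Real.pi := by
    rw [hα]; field_simp
  obtain ⟨r, m, hr, hd⟩ := RingA_split h.Npos (q - k)
  have hd' : (q : ℝ) - k = r + m * N := by exact_mod_cast hd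
  have e1 : angk t₀ N q - angk t₀ N k = r * α + m * (2 * Real.pi) := by
    simp only [angk]
    rw [← hα, ← hNα]
    have : (q : ℝ) = k + (r + m * N) := by linarith
    rw [this]; ring
  have e2 : angk t₀ N (q + 1) - angk t₀ N k = (r + 1) * α + m * (2 * Real.pi) := by
    simp only [angk]
    push_cast
    rw [← hα, ← hNα]
    have : (q : ℝ) = k + (r + m * N) := by linarith
    rw [this]; ring
  rw [e1, Real.sin_add_int_mul_two_pi] at h1
  rw [e2, Real.sin_add_int_mul_two_pi] at h2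
  have s1 : Real.sin (r * α) < 0 := by
    by_contra hcon
    push Not at hcon
    exact absurd (mul_nonneg hρ.le hcon) (not_le.2 h1)
  have s2 : 0 < Real.sin ((r + 1) * α) := by
    by_contra hcon
    push Not at hcon
    exact absurd (mul_nonpos_of_nonneg_of_nonpos hρ.le hcon) (not_le.2 h2)
  have hr0 : (0 : ℝ) ≤ r := Nat.cast_nonneg r
  have hr1 : (r : ℝ) + 1 ≤ N := by exact_mod_cast hr
  have h5 : Real.pi < r * α := by
    by_contra hcon
    push Not at hcon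
    exact absurd (Real.sin_nonneg_of_nonneg_of_le_pi (by positivity) hcon) (not_le.2 s1)
  have h6 : (r + 1) * α ≤ 2 * Real.pi := by
    rw [← hNα]
    exact mul_le_mul_of_nonneg_right hr1 hα0.le
  have h7 : Real.sin ((r + 1) * α) = -Real.sin (2 * Real.pi - (r + 1) * α) := by
    rw [Real.sin_two_pi_sub]; ring
  rw [h7] at s2
  have h8 : 0 ≤ Real.sin (2 * Real.pi - (r + 1) * α) := by
    apply Real.sin_nonneg_of_nonneg_of_le_pi
    · linarith
    · nlinarith
  linarith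

/-- a point has at most one listed direction, up to multiples of `N` -/
theorem Ring.lst_mod (h : Ring Y δ t₀ N C₁ D₁ C₂ D₂) {k k' : ℤ} {w : ℝ × ℝ} {R : Set (ℝ × ℝ)}
    (hw : w ∈ Lst Y t₀ N R k) (hw' : w ∈ Lst Y t₀ N R k') :
    dirv (angk t₀ N k) = dirv (angk t₀ N k') ∧ ∃ m : ℤ, k = k' + m * N := by
  obtain ⟨-, ρ, hρ, h1⟩ := hw
  obtain ⟨-, ρ', hρ', h2⟩ := hw'
  have hN' : (0 : ℝ) < N := by exact_mod_cast h.Npos
  have h3 : ρ • dirv (angk t₀ N k) = ρ' • dirv (angk t₀ N k') := by rw [← h1, ← h2]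
  have h4 : ρ = ρ' := by
    have h5 := congrArg nm h3
    rwa [rb_nm_smul, rb_nm_smul, rb_nm_dirv, rb_nm_dirv, mul_one, mul_one, abs_of_pos hρ,
      abs_of_pos hρ'] at h5
  subst h4
  have h5 : dirv (angk t₀ N k) = dirv (angk t₀ N k') := smul_right_injective _ hρ.ne' h3
  refine ⟨h5, ?_⟩
  have h6 : Real.cos (angk t₀ N k) = Real.cos (angk t₀ N k') := congrArg Prod.fst h5
  have h7 : Real.sin (angk t₀ N k) = Real.sin (angk t₀ N k') := congrArg Prod.snd h5
  have h8 : Real.cos (angk t₀ N k - angk t₀ N k') = 1 := by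
    rw [Real.cos_sub, h6, h7]
    nlinarith [Real.sin_sq_add_cos_sq (angk t₀ N k')]
  obtain ⟨m, hm⟩ := (Real.cos_eq_one_iff _).1 h8
  refine ⟨m, ?_⟩
  have hpi := Real.pi_pos
  have h9 : ((k : ℝ) - k') * (2 * Real.pi / N) = m * (2 * Real.pi) := by
    rw [hm]
    simp only [angk]
    ring
  have h10 : (k : ℝ) - k' = m * N := by
    have h11 : ((k : ℝ) - k') * (2 * Real.pi) = (m * N) * (2 * Real.pi) := by
      field_simp at h9
      nlinarith
    exact mul_right_cancel₀ (by positivity) h11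
  have h12 : (k : ℝ) = k' + m * N := by linarith
  exact_mod_cast h12

end Pool.Agent.Lib.MP_95e7ec_an
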