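import Mathlib
import Pool.Agent.Lib.MP_95e7ec_an.Rc.RingA
import Pool.Agent.Lib.MP_95e7ec_an.Rb.TypeA

/-!
# Rc, RingB: facts on rings, part 2
-/

set_option autoImplicit false

open Set Filter Topology MeasureTheory
open scoped ContDiff ENNReal

namespace Pool.Agent.Lib.MP_95e7ec_an

variable {Y : ℝ × ℝ → ℝ × ℝ} {δ t₀ : ℝ} {N : ℕ} {C₁ D₁ C₂ D₂ : Set (ℝ × ℝ)}

/-- The linear functional `ℓ u = det2 (DY(w) u) (dirv c)`, `c = angk k`, has the same sign on all
`dirv (c + a)`, `0 ≤ a ≤ δ`, at a point of `Lst k`. Proof: `type_pos` (Rb/TypeA) gives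
`0 < cur Y 0 w * cur Y δ w = ρ⁴ ℓ(dirv c) ℓ(dirv (c+δ))` (`cur_of_dir`), and
`sin δ dirv (c + a) = sin (δ - a) dirv c + sin a dirv (c + δ)`. -/
theorem Ring.lst_pos (h : Ring Y δ t₀ N C₁ D₁ C₂ D₂) {k : ℤ} {w : ℝ × ℝ}
    (hw : w ∈ Lst Y t₀ N ((D₁ ∪ C₁) \ D₂) k) {a : ℝ} (ha : a ∈ Set.Icc 0 δ) :
    0 < det2 (fderiv ℝ Y w (dirv (angk t₀ N k + a))) (dirv (angk t₀ N k)) *
      det2 (fderiv ℝ Y w (dirv (angk t₀ N k))) (dirv (angk t₀ N k)) := by
  obtain ⟨hR, ρ, hρ, hY⟩ := hw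
  have h0 := type_pos (h.smooth.of_le (by norm_num)) h.jp₁ h.jp₂ h.side₁ h.side₂ h.nest
    (fun w' hw' h' => h.spec' k hw' h') w hR ⟨ρ, hρ, hY⟩
  obtain ⟨-, hc0⟩ := cur_of_dir (ψ := 0) hY
  obtain ⟨-, hcδ⟩ := cur_of_dir (ψ := δ) hY
  rw [add_zero] at hc0
  rw [hc0, hcδ] at h0
  set c := angk t₀ N k
  set P := det2 (fderiv ℝ Y w (dirv c)) (dirv c) with hP
  set Q := det2 (fderiv ℝ Y w (dirv (c + δ))) (dirv c) with hQ
  have hPQ : 0 < P * Q := by
    have h4 : 0 < ρ ^ 4 := by positivity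
    have h5 : 0 < ρ ^ 4 * (P * Q) := by
      calc (0 : ℝ) < ρ ^ 2 * P * (ρ ^ 2 * Q) := h0
        _ = _ := by ring
    exact pos_of_mul_pos_left (by rwa [mul_comm] at h5) h4.le
  have hvec : Real.sin δ • dirv (c + a) =
      Real.sin (δ - a) • dirv c + Real.sin a • dirv (c + δ) := by
    rw [Real.sin_sub]
    ext
    · simp only [dirv, Prod.smul_fst, Prod.fst_add, smul_eq_mul, Real.cos_add]
      ring
    · simp only [dirv, Prod.smul_snd, Prod.snd_add, smul_eq_mul, Real.sin_add]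
      ring
  have hlin : Real.sin δ * det2 (fderiv ℝ Y w (dirv (c + a))) (dirv c) =
      Real.sin (δ - a) * P + Real.sin a * Q := by
    rw [← rb_det2_smul_left, ← map_smul, hvec, map_add, map_smul, map_smul, rb_det2_add_left,
      rb_det2_smul_left, rb_det2_smul_left]
  have hpi := Real.pi_gt_three
  have hδ := h.δpos
  have hδ1 := h.δle
  have hs : 0 < Real.sin δ := Real.sin_pos_of_pos_of_lt_pi hδ (by linarith)
  have hs1 : 0 ≤ Real.sin (δ - a) :=
    Real.sin_nonneg_of_nonneg_of_le_pi (by linarith [ha.2]) (by linarith [ha.1])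
  have hs2 : 0 ≤ Real.sin a :=
    Real.sin_nonneg_of_nonneg_of_le_pi ha.1 (by linarith [ha.2])
  have hP0 : P ≠ 0 := by
    rintro h1
    rw [h1, zero_mul] at hPQ
    exact lt_irrefl _ hPQ
  have hP2 : 0 < P ^ 2 := by positivity
  have hmain : 0 < Real.sin (δ - a) * P ^ 2 + Real.sin a * (P * Q) := by
    rcases eq_or_lt_of_le ha.1 with h1 | h1
    · rw [← h1, sub_zero, Real.sin_zero, zero_mul, add_zero]
      positivity
    · have : 0 < Real.sin a := Real.sin_pos_of_pos_of_lt_pi h1 (by linarith [ha.2])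
      have h2 : 0 < Real.sin a * (P * Q) := mul_pos this hPQ
      have h3 : 0 ≤ Real.sin (δ - a) * P ^ 2 := mul_nonneg hs1 hP2.le
      linarith
  have hfin : 0 < Real.sin δ * (det2 (fderiv ℝ Y w (dirv (c + a))) (dirv c) * P) := by
    have : Real.sin δ * (det2 (fderiv ℝ Y w (dirv (c + a))) (dirv c) * P) =
        Real.sin (δ - a) * P ^ 2 + Real.sin a * (P * Q) := by
      linear_combination P * hlin
    rw [this]
    exact hmain
  exact pos_of_mul_pos_left (by rwa [mul_comm] at hfin) hs.le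

/-- the tangent vector `g` of the strand satisfies `det2 g (dirv (c + a)) > 0`. Proof:
`det2 g u * ℓ (dirv c) = ℓ u` for all `u` (both sides are linear in `u`, and agree for `u = g` and
`u = dirv c`, a basis), then `Ring.lst_pos`. -/
theorem Ring.tangent (h : Ring Y δ t₀ N C₁ D₁ C₂ D₂) {k : ℤ} {w g : ℝ × ℝ}
    (hw : w ∈ Lst Y t₀ N ((D₁ ∪ C₁) \ D₂) k) (hg : det2 g (dirv (angk t₀ N k)) = 1)
    (hl : det2 (fderiv ℝ Y w g) (dirv (angk t₀ N k)) = 0) {a : ℝ} (ha : a ∈ Set.Icc 0 δ) :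
    0 < det2 g (dirv (angk t₀ N k + a)) := by
  have h1 := h.lst_pos hw ha
  set c := angk t₀ N k
  have hall : ∀ u : ℝ × ℝ, det2 g u * det2 (fderiv ℝ Y w (dirv c)) (dirv c) =
      det2 (fderiv ℝ Y w u) (dirv c) := by
    intro u
    have hu : u = det2 u (dirv c) • g + det2 g u • dirv c := by
      ext
      · simp only [det2, Prod.fst_add, Prod.smul_fst, smul_eq_mul] at hg ⊢
        linear_combination (-u.1) * hg
      · simp only [det2, Prod.snd_add, Prod.smul_snd, smul_eq_mul] at hg ⊢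
        linear_combination (-u.2) * hg
    conv_rhs => rw [hu]
    rw [map_add, map_smul, map_smul, rb_det2_add_left, rb_det2_smul_left, rb_det2_smul_left, hl,
      mul_zero, zero_add]
  rw [← hall (dirv (c + a))] at h1
  have h2 : det2 g (dirv (c + a)) * det2 (fderiv ℝ Y w (dirv c)) (dirv c) *
      det2 (fderiv ℝ Y w (dirv c)) (dirv c) =
      det2 g (dirv (c + a)) * det2 (fderiv ℝ Y w (dirv c)) (dirv c) ^ 2 := by ring
  rw [h2] at h1
  exact pos_of_mul_pos_left h1 (sq_nonneg _)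

/-- Two points of `Lst k` close to each other differ by a vector which is not parallel to
`dirv c`: locally `det2 (·) (dirv c)` is injective on `Lst k`. Proof: `f = det2 (Y ·) (dirv c)` is zero at
both, and strictly differentiable at `w` with derivative `ℓ`, `ℓ (dirv c) ≠ 0`
(`ContDiffAt.hasStrictFDerivAt`): if `z - z' = s dirv c` then `0 = s ℓ (dirv c) + o(s)`. Stated for
the zero set of `f`, not only for `Lst`. -/
theorem Ring.loc_inj (h : Ring Y δ t₀ N C₁ D₁ C₂ D₂) {k : ℤ} {w : ℝ × ℝ}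
    (hw : w ∈ Lst Y t₀ N ((D₁ ∪ C₁) \ D₂) k) :
    ∃ U ∈ 𝓝 w, ∀ z ∈ U, ∀ z' ∈ U, det2 (Y z) (dirv (angk t₀ N k)) = 0 →
      det2 (Y z') (dirv (angk t₀ N k)) = 0 →
      det2 z (dirv (angk t₀ N k)) = det2 z' (dirv (angk t₀ N k)) → z = z' := by
  have hpos := h.lst_pos hw (a := 0) ⟨le_rfl, h.δpos.le⟩
  rw [add_zero] at hpos
  set c := angk t₀ N k
  set P := det2 (fderiv ℝ Y w (dirv c)) (dirv c) with hP
  have hP0 : P ≠ 0 := by
    intro h0
    rw [h0, mul_zero] at hpos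
    exact lt_irrefl _ hpos
  have hstr : HasStrictFDerivAt Y (fderiv ℝ Y w) w :=
    h.smooth.contDiffAt.hasStrictFDerivAt (by norm_num)
  have hev := hstr.isLittleO.def (c := |P| / 8) (by positivity)
  rw [nhds_prod_eq] at hev
  obtain ⟨U, hU, hUU⟩ := Filter.eventually_prod_self_iff'.mp hev
  refine ⟨U, hU, fun z hz z' hz' hf hf' hdet => ?_⟩
  have h1 := hUU z hz z' hz'
  simp only at h1
  have hpar : det2 (z - z') (dirv c) = 0 := by
    rw [rb_det2_sub_left, hdet, sub_self]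
  have hzz := rb_parallel hpar
  set s := (z - z').1 * Real.cos c + (z - z').2 * Real.sin c with hs
  have h2 : |s| * |P| ≤ nm (Y z - Y z' - fderiv ℝ Y w (z - z')) := by
    have h3 : det2 (Y z - Y z' - fderiv ℝ Y w (z - z')) (dirv c) = -(s * P) := by
      rw [rb_det2_sub_left, rb_det2_sub_left, hf, hf', hzz, map_smul, rb_det2_smul_left, ← hP]
      ring
    have h4 := rb_det2_le (Y z - Y z' - fderiv ℝ Y w (z - z')) (dirv c)
    rw [h3, abs_neg, abs_mul, rb_nm_dirv, mul_one] at h4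
    exact h4
  have h5 : ‖z - z'‖ ≤ |s| := by
    have h6 := rb_norm_le_nm (z - z')
    rw [hzz, rb_nm_smul, rb_nm_dirv, mul_one, ← hzz] at h6
    exact h6
  have h7 := rb_nm_le_norm (Y z - Y z' - fderiv ℝ Y w (z - z'))
  have h8 : |s| * |P| ≤ 2 * (|P| / 8 * |s|) := by
    calc |s| * |P| ≤ 2 * ‖Y z - Y z' - fderiv ℝ Y w (z - z')‖ := h2.trans h7
      _ ≤ 2 * (|P| / 8 * ‖z - z'‖) := by linarith
      _ ≤ 2 * (|P| / 8 * |s|) := by
        have : |P| / 8 * ‖z - z'‖ ≤ |P| / 8 * |s| :=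
          mul_le_mul_of_nonneg_left h5 (by positivity)
        linarith
  have hPpos : 0 < |P| := abs_pos.mpr hP0
  have hs0 : |s| = 0 := by
    by_contra hne
    have hspos : 0 < |s| := lt_of_le_of_ne (abs_nonneg s) (Ne.symm hne)
    have : 0 < |s| * |P| := mul_pos hspos hPpos
    linarith
  have hs1 : s = 0 := abs_eq_zero.mp hs0
  rw [hs1, zero_smul] at hzz
  exact sub_eq_zero.mp hzz

end Pool.Agent.Lib.MP_95e7ec_an
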