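import Mathlib
import Pool.Agent.Lib.MP_95e7ec_an.Rc.RingLem

/-!
# Rc, LeafFlow: the flow on a leaf
-/

set_option autoImplicit false

open Set Filter Topology MeasureTheory
open scoped ContDiff ENNReal

namespace Pool.Agent.Lib.MP_95e7ec_an

/-- a solution for `t ≥ 0` agrees with a solution for all `t` -/
private theorem leafFlow_unique {v : ℝ × ℝ → ℝ × ℝ} (hv : ContDiff ℝ 1 v) {γ g : ℝ → ℝ × ℝ}
    (hγ : ∀ t, HasDerivAt γ (v (γ t)) t) (hg : ∀ t, 0 ≤ t → HasDerivAt g (v (g t)) t)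
    (h0 : g 0 = γ 0) : ∀ t, 0 ≤ t → g t = γ t := by
  classical
  set u : ℝ → ℝ × ℝ := fun t => if 0 ≤ t then g t else γ t with hu
  have hupos : ∀ t, 0 ≤ t → u t = g t := fun t ht => if_pos ht
  have huneg : ∀ t, t ≤ 0 → u t = γ t := by
    intro t ht
    rcases ht.lt_or_eq with h | rfl
    · exact if_neg (not_le.2 h)
    · rw [hupos 0 le_rfl, h0]
  have hd : ∀ t, HasDerivAt u (v (u t)) t := by
    intro t
    rcases lt_trichotomy t 0 with h | rfl | h
    · have he : u =ᶠ[𝓝 t] γ := by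
        filter_upwards [Iio_mem_nhds h] with s hs using huneg s hs.le
      rw [huneg t h.le]
      exact (hγ t).congr_of_eventuallyEq he
    · have h1 : HasDerivWithinAt u (v (u 0)) (Set.Iic 0) 0 := by
        rw [huneg 0 le_rfl]
        exact (hγ 0).hasDerivWithinAt.congr (fun s hs => huneg s hs) (huneg 0 le_rfl)
      have h2 : HasDerivWithinAt u (v (u 0)) (Set.Ici 0) 0 := by
        rw [hupos 0 le_rfl]
        exact (hg 0 le_rfl).hasDerivWithinAt.congr (fun s hs => hupos s hs) (hupos 0 le_rfl)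
      have h3 := h1.union h2
      rw [Set.Iic_union_Ici] at h3
      exact h3.hasDerivAt Filter.univ_mem
    · have he : u =ᶠ[𝓝 t] g := by
        filter_upwards [Ioi_mem_nhds h] with s hs using hupos s (le_of_lt hs)
      rw [hupos t h.le]
      exact (hg t h.le).congr_of_eventuallyEq he
  have hug : u = γ := curve_unique_of_contDiff hv hd hγ (huneg 0 le_rfl)
  intro t ht
  rw [← hupos t ht, hug]

variable {Y : ℝ × ℝ → ℝ × ℝ} {δ t₀ : ℝ} {N : ℕ} {C₁ D₁ C₂ D₂ : Set (ℝ × ℝ)}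

/-- A leaf in the ring is invariant under the flow: `φ a t z` runs through `C`. Proof: let `γ` be the
periodic solution through `z` (`IsClosedOrbit.exists_param_of_contDiff`) with least period `T`. As
long as `γ` is in the ring, which is always, it is a solution of the same equation as
`φ a · z` for `t ≥ 0`, so they agree for `t ≥ 0` (ODE uniqueness, e.g. `ODE_solution_unique_of_mem_Icc`
or for the flow `Φ`; `turn a Y` is `C¹`, hence Lipschitz on compact sets). -/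
theorem Leaf.flow {φ : ℝ → ℝ → ℝ × ℝ → ℝ × ℝ} {R : Set (ℝ × ℝ)} (hY : ContDiff ℝ 1 Y)
    (hφ : Flw Y δ R φ) {a : ℝ} (ha : a ∈ Set.Ioo 0 δ) {C D : Set (ℝ × ℝ)} (hL : Leaf Y a C D)
    (hCR : C ⊆ R) {z : ℝ × ℝ} (hz : z ∈ C) :
    (∀ t, 0 ≤ t → φ a t z ∈ C) ∧ ∃ T : ℝ, 0 < T ∧ φ a T z = z ∧
      (∀ w ∈ C, ∃ t ∈ Set.Ico 0 T, φ a t z = w) ∧
      ∀ s ∈ Set.Ico 0 T, ∀ t ∈ Set.Ico 0 T, φ a s z = φ a t z → s = t := by
  have hv : ContDiff ℝ 1 (turn a Y) := contDiff_turn hY a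
  obtain ⟨γ, T, hT, hγ, hper, h0, hC, hne⟩ := hL.orb.exists_param_of_contDiff hv hz
  have hφγ : ∀ t, 0 ≤ t → φ a t z = γ t :=
    leafFlow_unique hv hγ (fun t ht => hφ.deriv a ha z (hCR hz) t ht) (by rw [hφ.zero, h0])
  have hper' : Function.Periodic γ T := hper
  have hinj : ∀ s ∈ Set.Ico 0 T, ∀ t ∈ Set.Ico 0 T, s < t → γ s ≠ γ t := by
    intro s hs t ht hst heq
    have h1 := curve_unique_of_contDiff hv (hasDerivAt_shift hγ s) (hasDerivAt_shift hγ t)
      (by simpa using heq)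
    have h2 := congrFun h1 (-s)
    simp only [neg_add_cancel] at h2
    rw [h0] at h2
    refine hne (-s + t) ⟨by linarith, by linarith [hs.1, ht.2]⟩ h2.symm
  refine ⟨fun t ht => ?_, T, hT, ?_, fun w hw => ?_, fun s hs t ht hst => ?_⟩
  · rw [hφγ t ht, hC]
    exact ⟨t, rfl⟩
  · rw [hφγ T hT.le, ← zero_add T, hper, h0]
  · rw [hC] at hw
    obtain ⟨s, rfl⟩ := hw
    obtain ⟨t, ht, hst⟩ := hper'.exists_mem_Ico₀ hT s
    exact ⟨t, ht, by rw [hφγ t ht.1, hst]⟩
  · rw [hφγ s hs.1, hφγ t ht.1] at hst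
    rcases lt_trichotomy s t with h | h | h
    · exact (hinj s hs t ht h hst).elim
    · exact h
    · exact (hinj t ht s hs h hst.symm).elim

end Pool.Agent.Lib.MP_95e7ec_an
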