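import Mathlib
import Pool.Agent.Lib.MP_95e7ec_an.Rc.LeafFlow

/-!
# Rc, Cover: the steps on a leaf
-/

set_option autoImplicit false

open Set Filter Topology MeasureTheory
open scoped ContDiff ENNReal

namespace Pool.Agent.Lib.MP_95e7ec_an

variable {Y : ℝ × ℝ → ℝ × ℝ} {δ t₀ : ℝ} {N : ℕ} {C₁ D₁ C₂ D₂ : Set (ℝ × ℝ)}
  {φ : ℝ → ℝ → ℝ × ℝ → ℝ × ℝ}

/-- all the points `p j` are on the leaf -/
theorem Leaf.steps_mem (hY : ContDiff ℝ 1 Y) {R : Set (ℝ × ℝ)} (hφ : Flw Y δ R φ) {a : ℝ}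
    (ha : a ∈ Set.Ioo 0 δ) {C D : Set (ℝ × ℝ)} (hL : Leaf Y a C D) (hCR : C ⊆ R)
    {p : ℕ → ℝ × ℝ} {q : ℕ → ℤ} {s : ℕ → ℝ} (h0 : p 0 ∈ C)
    (hs : ∀ j, Step Y t₀ N φ a (q j) (p j) (s j) ∧ p (j + 1) = φ a (s j) (p j)) (j : ℕ) :
    p j ∈ C := by
  induction j with
  | zero => exact h0
  | succ j ih =>
    rw [(hs j).2]
    exact (hL.flow hY hφ ha hCR ih).1 (s j) (hs j).1.1.le

/-- If the steps come back after `J > 0` steps they cover the leaf. Proof: `φ a τ_J (p 0) = p 0` with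
`τ_J = ∑_{i<J} s i > 0`, every `w ∈ C` is `φ a t (p 0)` with `0 ≤ t < T`, `T` the least period
(`Leaf.flow`), `T ≤ τ_J` (injectivity on `[0,T)` and `Flw.add`), and `t` is in some
`[τ_j, τ_{j+1})`. -/
theorem Leaf.cover (hY : ContDiff ℝ 1 Y) {R : Set (ℝ × ℝ)} (hφ : Flw Y δ R φ) {a : ℝ}
    (ha : a ∈ Set.Ioo 0 δ) {C D : Set (ℝ × ℝ)} (hL : Leaf Y a C D) (hCR : C ⊆ R)
    {p : ℕ → ℝ × ℝ} {q : ℕ → ℤ} {s : ℕ → ℝ} (h0 : p 0 ∈ C)
    (hs : ∀ j, Step Y t₀ N φ a (q j) (p j) (s j) ∧ p (j + 1) = φ a (s j) (p j)) {J : ℕ}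
    (hJ : 0 < J) (hret : p J = p 0) :
    ∀ w ∈ C, ∃ j < J, ∃ t ∈ Set.Icc 0 (s j), w = φ a t (p j) := by
  classical
  have hsp : ∀ j, 0 < s j := fun j => (hs j).1.1
  have hp : ∀ j, p j = φ a (∑ i ∈ Finset.range j, s i) (p 0) := by
    intro j
    induction j with
    | zero => rw [Finset.sum_range_zero, hφ.zero]
    | succ j ih =>
      rw [(hs j).2, Finset.sum_range_succ, add_comm, hφ.add, ← ih]
  obtain ⟨hC, T, hT, hTz, hcov, hinj⟩ := hL.flow hY hφ ha hCR h0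
  have hpos : 0 < ∑ i ∈ Finset.range J, s i :=
    Finset.sum_pos (fun i _ => hsp i) ⟨0, Finset.mem_range.2 hJ⟩
  have hTJ : T ≤ ∑ i ∈ Finset.range J, s i := by
    by_contra hlt
    push Not at hlt
    have h1 : φ a (∑ i ∈ Finset.range J, s i) (p 0) = φ a 0 (p 0) := by
      rw [← hp J, hret, hφ.zero]
    have h2 := hinj _ ⟨hpos.le, hlt⟩ 0 ⟨le_rfl, hT⟩ h1
    linarith
  intro w hw
  obtain ⟨t, ht, rfl⟩ := hcov w hw
  have hex : ∃ j, t < ∑ i ∈ Finset.range j, s i := ⟨J, lt_of_lt_of_le ht.2 hTJ⟩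
  have h1 := Nat.find_spec hex
  have h2 : Nat.find hex ≠ 0 := by
    intro h3
    rw [h3, Finset.sum_range_zero] at h1
    exact absurd ht.1 (not_le.2 h1)
  obtain ⟨j, hj⟩ := Nat.exists_eq_succ_of_ne_zero h2
  have h3 : ∑ i ∈ Finset.range j, s i ≤ t := by
    have := Nat.find_min hex (m := j) (by omega)
    push Not at this
    exact this
  rw [hj, Nat.succ_eq_add_one, Finset.sum_range_succ] at h1
  have h4 : j < J := by
    have h5 : Nat.find hex ≤ J := Nat.find_min' hex (lt_of_lt_of_le ht.2 hTJ)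
    omega
  refine ⟨j, h4, t - ∑ i ∈ Finset.range j, s i, ⟨by linarith, by linarith⟩, ?_⟩
  rw [hp j, ← hφ.add]
  congr 1
  ring

/-- a point of an open set is not a maximum of `det2 · (dirv c)` -/
private theorem cover_not_max {D : Set (ℝ × ℝ)} (hD : IsOpen D) {p : ℝ × ℝ} (hp : p ∈ D) (c : ℝ)
    (hmax : ∀ w ∈ D, det2 w (dirv c) ≤ det2 p (dirv c)) : False := by
  have h1 : Tendsto (fun ε : ℝ => p + ε • ((Real.sin c, -Real.cos c) : ℝ × ℝ)) (𝓝[>] 0) (𝓝 p) := by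
    have h2 : Continuous fun ε : ℝ => p + ε • ((Real.sin c, -Real.cos c) : ℝ × ℝ) := by fun_prop
    have h3 := h2.tendsto 0
    simp only [zero_smul, add_zero] at h3
    exact h3.mono_left nhdsWithin_le_nhds
  obtain ⟨ε, hε, hε0⟩ := ((h1.eventually (hD.mem_nhds hp)).and self_mem_nhdsWithin).exists
  have hε0 : 0 < ε := hε0
  have h2 := hmax _ hε
  rw [rb_det2_add_left, rb_det2_smul_left] at h2
  have h3 : det2 ((Real.sin c, -Real.cos c) : ℝ × ℝ) (dirv c) = 1 := by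
    simp only [det2, dirv]
    nlinarith [Real.sin_sq_add_cos_sq c]
  rw [h3] at h2
  linarith

/-- a leaf contains points of every listed direction: the point of `C` where `det2 w (dirv (c+a))` is
maximal over `D ∪ C` (`Side.dir_of_max` for `turn a Y`, `dir_of_turn`) -/
theorem Leaf.exists_lst {a : ℝ} {C D : Set (ℝ × ℝ)} (hL : Leaf Y a C D) {R : Set (ℝ × ℝ)}
    (hCR : C ⊆ R) (k : ℤ) : ∃ z ∈ C, z ∈ Lst Y t₀ N R k := by
  have hlin : Continuous fun w : ℝ × ℝ => det2 w (dirv (angk t₀ N k + a)) := by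
    unfold det2
    fun_prop
  obtain ⟨p, hp, hmax⟩ := hL.jp.cpt.exists_isMaxOn (hL.jp.ne.mono Set.subset_union_right)
      hlin.continuousOn
  have hmax' : ∀ w ∈ D, det2 w (dirv (angk t₀ N k + a)) ≤ det2 p (dirv (angk t₀ N k + a)) :=
    fun w hw => hmax (Or.inl hw)
  rcases hp with hpD | hpC
  · exact (cover_not_max hL.jp.op hpD _ hmax').elim
  · obtain ⟨ρ, hρ, h1⟩ := hL.side.dir_of_max (rb_dirv_ne _) hpC hmax'
    exact ⟨p, hpC, hCR hpC, ρ, hρ, dir_of_turn h1⟩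

end Pool.Agent.Lib.MP_95e7ec_an
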