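import Mathlib

/-!
# Rc, ExitTime: continuity of an exit time
-/

set_option autoImplicit false

open Set Filter Topology

namespace Pool.Agent.Lib.MP_95e7ec_an

/-- Continuity of the exit time `s τ` from the set `F > 0`. `F` is continuous, positive for
`0 < t < s τ`, not positive at `s τ`, negative at some times arbitrarily close after `s τ`, and positive for small
`t > 0` locally uniformly in `τ`.

Proof at `τ₀`: upper bound: choose `t ∈ (s τ₀, s τ₀ + ε)` with `F τ₀ t < 0`; for `τ` near `τ₀`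
`F τ t < 0`, so `s τ ≤ t`. Lower bound: let `ε₀` be from `h4`; on the compact interval
`[ε₀, s τ₀ - ε]` (if nonempty) `F τ₀ > 0`, so `F τ t > 0` for all `τ` near `τ₀` in `K` and all `t` in this
interval (compactness, `ContinuousOn` on `K ×ˢ Ici 0`), and also for `t ∈ (0, ε₀]`; since
`F τ (s τ) ≤ 0` and `s τ > 0`, `s τ > s τ₀ - ε`. -/
theorem exit_time_continuous {K : Set ℝ} {F : ℝ → ℝ → ℝ} {s : ℝ → ℝ}
    (hF : ContinuousOn (fun p : ℝ × ℝ => F p.1 p.2) (K ×ˢ Set.univ)) (hs : ∀ τ ∈ K, 0 < s τ)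
    (h1 : ∀ τ ∈ K, ∀ t ∈ Set.Ioo 0 (s τ), 0 < F τ t) (h2 : ∀ τ ∈ K, F τ (s τ) ≤ 0)
    (h3 : ∀ τ ∈ K, ∃ᶠ t in 𝓝[>] (s τ), F τ t < 0)
    (h4 : ∀ τ ∈ K, ∃ ε : ℝ, 0 < ε ∧ ∀ᶠ τ' in 𝓝[K] τ, ∀ t ∈ Set.Ioc 0 ε, 0 < F τ' t) :
    ContinuousOn s K := by
  intro τ₀ hτ₀
  refine tendsto_order.2 ⟨fun l hl => ?_, fun u hu => ?_⟩
  · obtain ⟨ε₀, hε₀, h5⟩ := h4 τ₀ hτ₀
    have h6 : ∀ᶠ τ in 𝓝 τ₀, ∀ t ∈ Icc ε₀ l, τ ∈ K → 0 < F τ t := by
      refine isCompact_Icc.eventually_forall_of_forall_eventually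
        (P := fun τ t => τ ∈ K → 0 < F τ t) fun t ht => ?_
      have h7 := hF (τ₀, t) ⟨hτ₀, mem_univ _⟩
      have h8 : 0 < F τ₀ t := h1 τ₀ hτ₀ t ⟨hε₀.trans_le ht.1, ht.2.trans_lt hl⟩
      have h9 : ∀ᶠ z in 𝓝[K ×ˢ Set.univ] ((τ₀, t) : ℝ × ℝ), 0 < F z.1 z.2 :=
        h7.eventually (lt_mem_nhds h8)
      rw [eventually_nhdsWithin_iff] at h9
      filter_upwards [h9] with z hz hzK
      exact hz ⟨hzK, mem_univ _⟩
    have h10 : ∀ᶠ τ in 𝓝[K] τ₀, ∀ t ∈ Icc ε₀ l, 0 < F τ t := by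
      rw [eventually_nhdsWithin_iff]
      filter_upwards [h6] with τ hτ hτK t ht
      exact hτ t ht hτK
    filter_upwards [h5, h10, self_mem_nhdsWithin] with τ h5 h10 hτK
    by_contra hcon
    have hle : s τ ≤ l := not_lt.1 hcon
    rcases le_or_gt (s τ) ε₀ with h | h
    · exact absurd (h5 (s τ) ⟨hs τ hτK, h⟩) (not_lt.2 (h2 τ hτK))
    · exact absurd (h10 (s τ) ⟨h.le, hle⟩) (not_lt.2 (h2 τ hτK))
  · have h5 : ∀ᶠ t in 𝓝[>] (s τ₀), t < u := by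
      filter_upwards [Ioo_mem_nhdsGT hu] with t ht
      exact ht.2
    have h6 : ∀ᶠ t in 𝓝[>] (s τ₀), s τ₀ < t := self_mem_nhdsWithin
    obtain ⟨t, ht, ht1, ht2⟩ := ((h3 τ₀ hτ₀).and_eventually (h5.and h6)).exists
    have h7 : ContinuousWithinAt (fun τ => F τ t) K τ₀ := by
      have h8 := hF (τ₀, t) ⟨hτ₀, mem_univ _⟩
      exact ContinuousWithinAt.comp (f := fun τ : ℝ => ((τ, t) : ℝ × ℝ)) (t := K ×ˢ Set.univ) h8
        (by fun_prop : Continuous fun τ : ℝ => ((τ, t) : ℝ × ℝ)).continuousWithinAt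
        (fun τ hτ => ⟨hτ, mem_univ _⟩)
    have h8 : ∀ᶠ τ in 𝓝[K] τ₀, F τ t < 0 := h7.eventually (gt_mem_nhds ht)
    filter_upwards [h8, self_mem_nhdsWithin] with τ h8 hτK
    refine lt_of_le_of_lt ?_ ht1
    by_contra hcon
    have := h1 τ hτK t ⟨(hs τ₀ hτ₀).trans ht2, not_le.1 hcon⟩
    linarith

end Pool.Agent.Lib.MP_95e7ec_an
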