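import Mathlib
import Pool.Agent.Lib.MP_95e7ec_an.Rc.RingLem

/-!
# Rc, Leave: the flow leaves the arc
-/

set_option autoImplicit false

open Set Filter Topology MeasureTheory
open scoped ContDiff ENNReal

namespace Pool.Agent.Lib.MP_95e7ec_an

variable {Y : ℝ × ℝ → ℝ × ℝ} {δ t₀ : ℝ} {N : ℕ} {C₁ D₁ C₂ D₂ : Set (ℝ × ℝ)}
  {φ : ℝ → ℝ → ℝ × ℝ → ℝ × ℝ} {k : ℤ}

/-- a function which is positive before `s`, zero at `s`, and has a nonzero derivative at `s`, is
negative right after `s` -/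
private theorem leave_neg {f : ℝ → ℝ} {d s : ℝ} (hd : HasDerivAt f d s) (hd0 : d ≠ 0)
    (hs : 0 < s) (hfs : f s = 0) (hpos : ∀ t ∈ Set.Ioo 0 s, 0 < f t) :
    ∀ᶠ t in 𝓝[>] s, f t < 0 := by
  have hsl := hasDerivAt_iff_tendsto_slope.1 hd
  have hlt : d < 0 := by
    rcases lt_or_gt_of_ne hd0 with h | h
    · exact h
    · exfalso
      have h1 : ∀ᶠ t in 𝓝[≠] s, 0 < slope f s t := hsl.eventually (lt_mem_nhds h)
      have h2 : ∀ᶠ t in 𝓝[<] s, 0 < slope f s t :=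
        h1.filter_mono (nhdsWithin_mono s fun t ht => ne_of_lt ht)
      have h3 : ∀ᶠ t in 𝓝[<] s, t ∈ Set.Ioo 0 s := Ioo_mem_nhdsLT hs
      obtain ⟨t, ht1, ht2⟩ := (h2.and h3).exists
      have h4 := hpos t ht2
      rw [slope_def_field, hfs, sub_zero] at ht1
      have h5 : t - s < 0 := sub_neg.2 ht2.2
      have h6 : f t / (t - s) < 0 := div_neg_of_pos_of_neg h4 h5
      exact absurd ht1 (not_lt.2 h6.le)
  have h1 : ∀ᶠ t in 𝓝[≠] s, slope f s t < 0 := hsl.eventually (gt_mem_nhds hlt)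
  have h2 : ∀ᶠ t in 𝓝[>] s, slope f s t < 0 :=
    h1.filter_mono (nhdsWithin_mono s fun t ht => ne_of_gt ht)
  have h3 : ∀ᶠ t in 𝓝[>] s, s < t := eventually_mem_nhdsWithin
  filter_upwards [h2, h3] with t ht1 ht2
  rw [slope_def_field, hfs, sub_zero] at ht1
  have h5 : 0 < t - s := sub_pos.2 ht2
  by_contra hcon
  exact absurd ht1 (not_lt.2 (div_nonneg (not_lt.1 hcon) h5.le))

/-- the derivative of `det2 (Y (u t)) v` along a curve `u` -/
private theorem leave_deriv {Y : ℝ × ℝ → ℝ × ℝ} (hY : ContDiff ℝ 2 Y) {u : ℝ → ℝ × ℝ}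
    {u' : ℝ × ℝ} {s : ℝ} (hu : HasDerivAt u u' s) (v : ℝ × ℝ) :
    HasDerivAt (fun t => det2 (Y (u t)) v) (det2 (fderiv ℝ Y (u s) u') v) s := by
  have h1 : HasFDerivAt Y (fderiv ℝ Y (u s)) (u s) :=
    (hY.differentiable (by norm_num)).differentiableAt.hasFDerivAt
  have h2 : HasDerivAt (fun t => Y (u t)) (fderiv ℝ Y (u s) u') s := h1.comp_hasDerivAt s hu
  have hfst : HasDerivAt (fun t => (Y (u t)).1) (fderiv ℝ Y (u s) u').1 s :=
    (ContinuousLinearMap.fst ℝ ℝ ℝ).hasFDerivAt.comp_hasDerivAt s h2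
  have hsnd : HasDerivAt (fun t => (Y (u t)).2) (fderiv ℝ Y (u s) u').2 s :=
    (ContinuousLinearMap.snd ℝ ℝ ℝ).hasFDerivAt.comp_hasDerivAt s h2
  have h3 := (hfst.mul_const v.2).sub (hsnd.mul_const v.1)
  exact h3

/-- the turned vector at a point of direction `c` -/
private theorem leave_turn {Y : ℝ × ℝ → ℝ × ℝ} {w : ℝ × ℝ} {a c ρ : ℝ}
    (h : Y w = ρ • dirv c) : turn a Y w = ρ • dirv (c + a) := by
  have h1 := congrArg Prod.fst h
  have h2 := congrArg Prod.snd h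
  simp only [dirv, Prod.smul_fst, Prod.smul_snd, smul_eq_mul] at h1 h2
  ext
  · simp only [turn, dirv, Prod.smul_fst, smul_eq_mul, Real.cos_add, h1, h2]
    ring
  · simp only [turn, dirv, Prod.smul_snd, smul_eq_mul, Real.sin_add, h1, h2]
    ring

/-- The arc in which the flow was before a listed point is left there: if the flow from `z` is in the
arc `q` on `(0, s)` and `w = φ a s z ∈ Lst k'` with `k' = q` or `k' = q + 1`, then after `w` the flow is
not in the arc `q` any more: the function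
`min (-det2 Y (dirv c_q)) (det2 Y (dirv c_{q+1}))` is negative at times close to `s`. Proof: if
`k' = q + 1`: `det2 Y (dirv c_{q+1})` is positive before `s` and zero at `s`, so its derivative
`ρ ℓ_w (dirv (c + a))` at `s` is `≤ 0`, hence `< 0` (`Ring.lst_pos`), so the function is negative right
after `s`. If `k' = q` the same with `det2 Y (dirv c_q)`. -/
theorem Ring.leave (h : Ring Y δ t₀ N C₁ D₁ C₂ D₂) (hφ : Flw Y δ ((D₁ ∪ C₁) \ D₂) φ) {a : ℝ}
    (ha : a ∈ Set.Ioo 0 δ) {z : ℝ × ℝ} (hz : z ∈ (D₁ ∪ C₁) \ D₂) {q k' : ℤ} {s : ℝ}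
    (hs : Step Y t₀ N φ a q z s) (hk' : k' = q ∨ k' = q + 1)
    (hw : φ a s z ∈ Lst Y t₀ N ((D₁ ∪ C₁) \ D₂) k') :
    ∀ᶠ t in 𝓝[>] s, min (-det2 (Y (φ a t z)) (dirv (angk t₀ N q)))
      (det2 (Y (φ a t z)) (dirv (angk t₀ N (q + 1)))) < 0 := by
  obtain ⟨hs0, hstep⟩ := hs
  have hder := hφ.deriv a ha z hz s hs0.le
  obtain ⟨_, ρ, hρ, hY⟩ := id hw
  have hl := h.lst_pos hw (a := a) (Set.Ioo_subset_Icc_self ha)
  have hl0 : det2 (fderiv ℝ Y (φ a s z) (dirv (angk t₀ N k' + a))) (dirv (angk t₀ N k')) ≠ 0 :=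
    left_ne_zero_of_mul hl.ne'
  have hf := leave_deriv h.smooth hder (dirv (angk t₀ N k'))
  rw [leave_turn hY, map_smul, rb_det2_smul_left] at hf
  have hd0 : ρ * det2 (fderiv ℝ Y (φ a s z) (dirv (angk t₀ N k' + a))) (dirv (angk t₀ N k')) ≠ 0 :=
    mul_ne_zero hρ.ne' hl0
  have hz0 : det2 (Y (φ a s z)) (dirv (angk t₀ N k')) = 0 := by
    rw [hY, rb_det2_smul_left, rb_det2_self, mul_zero]
  rcases hk' with rfl | rfl
  · have hneg := leave_neg (f := fun t => -det2 (Y (φ a t z)) (dirv (angk t₀ N k'))) hf.neg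
      (neg_ne_zero.2 hd0) hs0 (by simpa using hz0)
      (fun t ht => neg_pos.2 (hstep t ht).1)
    filter_upwards [hneg] with t ht
    exact lt_of_le_of_lt (min_le_left _ _) ht
  · have hneg := leave_neg hf hd0 hs0 hz0 (fun t ht => (hstep t ht).2)
    filter_upwards [hneg] with t ht
    exact lt_of_le_of_lt (min_le_right _ _) ht

end Pool.Agent.Lib.MP_95e7ec_an
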