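import Mathlib
import Pool.Agent.Lib.MP_95e7ec_an.Rc.RingLem

/-!
# Rc, NextLoc: the flow near a point with a listed direction
-/

set_option autoImplicit false

open Set Filter Topology MeasureTheory
open scoped ContDiff ENNReal

namespace Pool.Agent.Lib.MP_95e7ec_an

variable {Y : ℝ × ℝ → ℝ × ℝ} {δ t₀ : ℝ} {N : ℕ} {C₁ D₁ C₂ D₂ : Set (ℝ × ℝ)}
  {φ : ℝ → ℝ → ℝ × ℝ → ℝ × ℝ} {k : ℤ}

/-- the arc which the flow enters at a point of `Lst k`: `k` if the direction increases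
(`ℓ (dirv c) < 0`), `k - 1` otherwise -/
noncomputable def qOf (Y : ℝ × ℝ → ℝ × ℝ) (t₀ : ℝ) (N : ℕ) (k : ℤ) (z : ℝ × ℝ) : ℤ := by
  classical
  exact if det2 (fderiv ℝ Y z (dirv (angk t₀ N k))) (dirv (angk t₀ N k)) < 0 then k else k - 1

private theorem NextLoc_det {γ : ℝ → ℝ × ℝ} {v : ℝ × ℝ} {t : ℝ} (h : HasDerivAt γ v t)
    (e : ℝ × ℝ) : HasDerivAt (fun s => det2 (γ s) e) (det2 v e) t := by
  have h1 : HasDerivAt (fun s => (γ s).1) v.1 t := h.fst
  have h2 : HasDerivAt (fun s => (γ s).2) v.2 t := h.snd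
  exact (h1.mul_const e.2).sub (h2.mul_const e.1)

/-- the positive version: a function which vanishes at `0` and has a positive derivative -/
private theorem NextLoc_pos {f f' : ℝ → ℝ} {ε : ℝ} (h0 : f 0 = 0)
    (hd : ∀ t, 0 ≤ t → t ≤ ε → HasDerivAt f (f' t) t) (hp : ∀ t, 0 ≤ t → t ≤ ε → 0 < f' t)
    {t : ℝ} (ht : t ∈ Set.Ioc 0 ε) : 0 < f t := by
  obtain ⟨c, hc, hc'⟩ := exists_hasDerivAt_eq_slope f f' ht.1
    (fun s hs => (hd s hs.1 (hs.2.trans ht.2)).continuousAt.continuousWithinAt)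
    (fun s hs => hd s hs.1.le (hs.2.le.trans ht.2))
  have h1 := hp c hc.1.le (hc.2.le.trans ht.2)
  rw [hc', h0, sub_zero, sub_zero] at h1
  have h2 := mul_pos h1 ht.1
  rwa [div_mul_cancel₀ _ ht.1.ne'] at h2

private theorem NextLoc_gcont (h : Ring Y δ t₀ N C₁ D₁ C₂ D₂) (c : ℝ) :
    Continuous fun w : ℝ × ℝ => det2 (fderiv ℝ Y w (dirv c)) (dirv c) := by
  have h1 : Continuous fun w : ℝ × ℝ => fderiv ℝ Y w (dirv c) :=
    (h.smooth.continuous_fderiv (by norm_num)).clm_apply continuous_const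
  exact rb_continuous_det2.comp (h1.prodMk continuous_const)

private theorem NextLoc_Dcont (h : Ring Y δ t₀ N C₁ D₁ C₂ D₂) (c : ℝ) :
    Continuous fun p : ℝ × (ℝ × ℝ) => det2 (fderiv ℝ Y p.2 (turn p.1 Y p.2)) (dirv c) := by
  have hY := h.smooth.continuous
  have h0 : Continuous fun p : ℝ × (ℝ × ℝ) => turn p.1 Y p.2 := by
    unfold turn
    fun_prop
  have h1 : Continuous fun p : ℝ × (ℝ × ℝ) => fderiv ℝ Y p.2 (turn p.1 Y p.2) :=
    ((h.smooth.continuous_fderiv (by norm_num)).comp continuous_snd).clm_apply h0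
  exact rb_continuous_det2.comp (h1.prodMk continuous_const)

/-- the sine of the step is positive -/
private theorem NextLoc_sin (h : Ring Y δ t₀ N C₁ D₁ C₂ D₂) : 0 < Real.sin (2 * Real.pi / N) := by
  have h1 := h.small
  have h2 := h.δle
  have h3 := Real.pi_gt_three
  have h4 : (0 : ℝ) < N := by exact_mod_cast h.Npos
  apply Real.sin_pos_of_pos_of_lt_pi
  · positivity
  · linarith

/-- the core: signs for all close parameters -/
private theorem NextLoc_core (h : Ring Y δ t₀ N C₁ D₁ C₂ D₂)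
    (hφ : Flw Y δ ((D₁ ∪ C₁) \ D₂) φ) {a : ℝ} (ha : a ∈ Set.Ioo 0 δ) {z : ℝ × ℝ}
    (σ : ℝ) (e : ℝ × ℝ) (τ : ℝ)
    (hD : 0 < σ * det2 (fderiv ℝ Y z (turn a Y z)) (dirv (angk t₀ N k)))
    (hE : 0 < τ * det2 (Y z) e) :
    ∃ ε : ℝ, 0 < ε ∧ ∀ᶠ p in 𝓝 ((a, z) : ℝ × (ℝ × ℝ)),
      p.2 ∈ Lst Y t₀ N ((D₁ ∪ C₁) \ D₂) k → ∀ t ∈ Set.Ioc 0 ε,
        0 < σ * det2 (Y (φ p.1 t p.2)) (dirv (angk t₀ N k)) ∧
          0 < τ * det2 (Y (φ p.1 t p.2)) e := by
  set c := angk t₀ N k with hc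
  have hY := h.smooth.continuous
  have hφ1 : Continuous fun q : ℝ × (ℝ × (ℝ × ℝ)) => φ q.2.1 q.1 q.2.2 :=
    hφ.cont.comp (by fun_prop : Continuous fun q : ℝ × (ℝ × (ℝ × ℝ)) => (q.2.1, q.1, q.2.2))
  have hf1 : Continuous fun q : ℝ × (ℝ × (ℝ × ℝ)) =>
      σ * det2 (fderiv ℝ Y (φ q.2.1 q.1 q.2.2) (turn q.2.1 Y (φ q.2.1 q.1 q.2.2))) (dirv c) := by
    have h1 : Continuous fun q : ℝ × (ℝ × (ℝ × ℝ)) => (q.2.1, φ q.2.1 q.1 q.2.2) :=
      (continuous_fst.comp continuous_snd).prodMk hφ1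
    exact continuous_const.mul ((NextLoc_Dcont h c).comp h1)
  have hf2 : Continuous fun q : ℝ × (ℝ × (ℝ × ℝ)) => τ * det2 (Y (φ q.2.1 q.1 q.2.2)) e :=
    continuous_const.mul (rb_continuous_det2.comp ((hY.comp hφ1).prodMk continuous_const))
  have hf3 : Continuous fun q : ℝ × (ℝ × (ℝ × ℝ)) => q.2.1 := by fun_prop
  have hev : ∀ᶠ q in 𝓝 ((0, (a, z)) : ℝ × (ℝ × (ℝ × ℝ))),
      0 < σ * det2 (fderiv ℝ Y (φ q.2.1 q.1 q.2.2) (turn q.2.1 Y (φ q.2.1 q.1 q.2.2))) (dirv c) ∧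
      0 < τ * det2 (Y (φ q.2.1 q.1 q.2.2)) e ∧ q.2.1 ∈ Set.Ioo 0 δ := by
    refine (hf1.continuousAt.eventually (lt_mem_nhds ?_)).and
      ((hf2.continuousAt.eventually (lt_mem_nhds ?_)).and
        (hf3.continuousAt.eventually (isOpen_Ioo.mem_nhds ?_)))
    · simpa only [hφ.zero] using hD
    · simpa only [hφ.zero] using hE
    · exact ha
  rw [nhds_prod_eq, Filter.eventually_prod_iff] at hev
  obtain ⟨pa, hpa, pb, hpb, hall⟩ := hev
  obtain ⟨ε₀, hε₀, hball⟩ := Metric.eventually_nhds_iff.1 hpa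
  refine ⟨ε₀ / 2, half_pos hε₀, hpb.mono fun p hp hpL t ht => ?_⟩
  have hP : ∀ s : ℝ, 0 ≤ s → s ≤ ε₀ / 2 →
      0 < σ * det2 (fderiv ℝ Y (φ p.1 s p.2) (turn p.1 Y (φ p.1 s p.2))) (dirv c) ∧
      0 < τ * det2 (Y (φ p.1 s p.2)) e ∧ p.1 ∈ Set.Ioo 0 δ := by
    intro s hs0 hs1
    refine hall (hball ?_) hp
    rw [Real.dist_eq, sub_zero, abs_of_nonneg hs0]
    linarith
  refine ⟨?_, (hP t ht.1.le ht.2).2.1⟩
  have hp1 : p.1 ∈ Set.Ioo 0 δ := (hP t ht.1.le ht.2).2.2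
  apply NextLoc_pos (f := fun s => σ * det2 (Y (φ p.1 s p.2)) (dirv c))
    (f' := fun s => σ * det2 (fderiv ℝ Y (φ p.1 s p.2) (turn p.1 Y (φ p.1 s p.2))) (dirv c))
    (ε := ε₀ / 2) _ _ (fun s hs0 hs1 => (hP s hs0 hs1).1) ht
  · obtain ⟨-, ρ, -, hρ⟩ := hpL
    simp only [hφ.zero]
    rw [hρ, rb_det2_smul_left, rb_det2_self, mul_zero, mul_zero]
  · intro s hs0 _
    have h1 := hφ.deriv p.1 hp1 p.2 hpL.1 s hs0
    have h2 : HasFDerivAt Y (fderiv ℝ Y (φ p.1 s p.2)) (φ p.1 s p.2) :=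
      (h.smooth.differentiable (by norm_num) _).hasFDerivAt
    have h3 := h2.comp_hasDerivAt s h1
    exact (NextLoc_det h3 (dirv c)).const_mul σ

/-- The flow enters the arc `qOf`, locally uniformly. Proof: let `f a t z = det2 (Y (φ a t z)) (dirv c)`. For
`z' ∈ Lst k` it vanishes at `t = 0` and has the derivative
`det2 (DY(φ) (turn a Y (φ))) (dirv c)` for `t ≥ 0` (`Flw.deriv`, chain rule), which is a continuous function of
`(a, t, φ a t z)`, and at `(a, 0, z)` equals `ρ ℓ (dirv (c + a)) ≠ 0` with the sign of `ℓ (dirv c)`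
(`Ring.lst_pos`). So the derivative has this sign for all `(a', t, z')` close to `(a, 0, z)`, and `f` has
this sign for small `t > 0` (mean value theorem). The other inequality of `ArcAt` holds at `z` itself
(`det2 (dirv c) (dirv (c ± 2π/N)) = ± sin (2π/N)`), so nearby by continuity. Note
`angk (k-1+1) = angk k`. -/
theorem Ring.start (h : Ring Y δ t₀ N C₁ D₁ C₂ D₂) (hφ : Flw Y δ ((D₁ ∪ C₁) \ D₂) φ) {a : ℝ}
    (ha : a ∈ Set.Ioo 0 δ) {z : ℝ × ℝ} (hz : z ∈ Lst Y t₀ N ((D₁ ∪ C₁) \ D₂) k) :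
    ∃ ε : ℝ, 0 < ε ∧ ∀ᶠ p in 𝓝 ((a, z) : ℝ × (ℝ × ℝ)),
      p.2 ∈ Lst Y t₀ N ((D₁ ∪ C₁) \ D₂) k → ∀ t ∈ Set.Ioc 0 ε,
        ArcAt Y t₀ N (qOf Y t₀ N k z) (φ p.1 t p.2) := by
  obtain ⟨hzR, ρ, hρ, hYz⟩ := id hz
  have hpos := h.lst_pos hz (a := a) ⟨ha.1.le, ha.2.le⟩
  have hsin := NextLoc_sin h
  have hturn : turn a Y z = ρ • dirv (angk t₀ N k + a) := by
    have h1 := congrArg Prod.fst hYz
    have h2 := congrArg Prod.snd hYz
    simp only [dirv, Prod.smul_fst, Prod.smul_snd, smul_eq_mul] at h1 h2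
    ext
    · simp only [turn, dirv, Prod.smul_fst, smul_eq_mul, Real.cos_add, h1, h2]
      ring
    · simp only [turn, dirv, Prod.smul_snd, smul_eq_mul, Real.sin_add, h1, h2]
      ring
  have hDz : det2 (fderiv ℝ Y z (turn a Y z)) (dirv (angk t₀ N k)) =
      ρ * det2 (fderiv ℝ Y z (dirv (angk t₀ N k + a))) (dirv (angk t₀ N k)) := by
    rw [hturn, map_smul, rb_det2_smul_left]
  set P := det2 (fderiv ℝ Y z (dirv (angk t₀ N k))) (dirv (angk t₀ N k)) with hP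
  set Q := det2 (fderiv ℝ Y z (dirv (angk t₀ N k + a))) (dirv (angk t₀ N k)) with hQ
  by_cases hneg : P < 0
  · have hq : qOf Y t₀ N k z = k := by
      simp only [qOf]
      rw [if_pos hneg]
    have hQneg : Q < 0 := by
      by_contra h1
      push Not at h1
      have := mul_nonpos_of_nonneg_of_nonpos h1 hneg.le
      linarith
    obtain ⟨ε, hε, hev⟩ := NextLoc_core (k := k) h hφ ha (z := z) (-1)
      (dirv (angk t₀ N (k + 1))) 1
      (by rw [hDz]; have := mul_pos hρ (neg_pos.2 hQneg); linarith)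
      (by
        rw [hYz, rb_det2_smul_left, rb_det2_dirv]
        have e1 : angk t₀ N (k + 1) - angk t₀ N k = 2 * Real.pi / N := by
          simp only [angk]; push_cast; ring
        rw [e1, one_mul]
        exact mul_pos hρ hsin)
    refine ⟨ε, hε, hev.mono fun p hp hpL t ht => ?_⟩
    obtain ⟨h1, h2⟩ := hp hpL t ht
    rw [hq]
    exact ⟨by linarith, by linarith⟩
  · have hq : qOf Y t₀ N k z = k - 1 := by
      simp only [qOf]
      rw [if_neg hneg]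
    have hQpos : 0 < Q := by
      by_contra h1
      push Not at h1 hneg
      have := mul_nonpos_of_nonpos_of_nonneg h1 hneg
      linarith
    obtain ⟨ε, hε, hev⟩ := NextLoc_core (k := k) h hφ ha (z := z) 1
      (dirv (angk t₀ N (k - 1))) (-1)
      (by rw [hDz, one_mul]; exact mul_pos hρ hQpos)
      (by
        rw [hYz, rb_det2_smul_left, rb_det2_dirv]
        have e1 : angk t₀ N (k - 1) - angk t₀ N k = -(2 * Real.pi / N) := by
          simp only [angk]; push_cast; ring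
        rw [e1, Real.sin_neg]
        have := mul_pos hρ hsin
        linarith)
    refine ⟨ε, hε, hev.mono fun p hp hpL t ht => ?_⟩
    obtain ⟨h1, h2⟩ := hp hpL t ht
    rw [hq]
    refine ⟨by linarith, ?_⟩
    rw [sub_add_cancel]
    linarith

/-- `qOf` is locally constant on `Lst k` (`ℓ (dirv c)` is continuous and nonzero there) -/
theorem Ring.qOf_loc (h : Ring Y δ t₀ N C₁ D₁ C₂ D₂) {z : ℝ × ℝ}
    (hz : z ∈ Lst Y t₀ N ((D₁ ∪ C₁) \ D₂) k) :
    ∀ᶠ w in 𝓝 z, w ∈ Lst Y t₀ N ((D₁ ∪ C₁) \ D₂) k → qOf Y t₀ N k w = qOf Y t₀ N k z := by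
  have hpos := h.lst_pos hz (a := 0) ⟨le_rfl, h.δpos.le⟩
  rw [add_zero] at hpos
  have hcont := NextLoc_gcont h (angk t₀ N k)
  by_cases hneg : det2 (fderiv ℝ Y z (dirv (angk t₀ N k))) (dirv (angk t₀ N k)) < 0
  · filter_upwards [hcont.continuousAt.eventually (gt_mem_nhds hneg)] with w hw _
    simp only [qOf]
    rw [if_pos hneg, if_pos hw]
  · have hp : 0 < det2 (fderiv ℝ Y z (dirv (angk t₀ N k))) (dirv (angk t₀ N k)) := by
      rcases lt_trichotomy (det2 (fderiv ℝ Y z (dirv (angk t₀ N k))) (dirv (angk t₀ N k))) 0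
        with h1 | h1 | h1
      · exact absurd h1 hneg
      · rw [h1, mul_zero] at hpos
        exact absurd hpos (lt_irrefl _)
      · exact h1
    filter_upwards [hcont.continuousAt.eventually (lt_mem_nhds hp)] with w hw _
    simp only [qOf]
    rw [if_neg hneg, if_neg (not_lt.2 hw.le)]

end Pool.Agent.Lib.MP_95e7ec_an
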