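import Mathlib
import Pool.Agent.Lib.MP_95e7ec_an.Rc.NextLoc

/-!
# Rc, NextEx: the next point with a listed direction
-/

set_option autoImplicit false

open Set Filter Topology MeasureTheory
open scoped ContDiff ENNReal

namespace Pool.Agent.Lib.MP_95e7ec_an

variable {Y : ℝ × ℝ → ℝ × ℝ} {δ t₀ : ℝ} {N : ℕ} {C₁ D₁ C₂ D₂ : Set (ℝ × ℝ)}
  {φ : ℝ → ℝ → ℝ × ℝ → ℝ × ℝ} {k : ℤ}

private theorem NextEx_angk (t₀ : ℝ) (N : ℕ) (q : ℤ) :
    angk t₀ N (q + 1) = angk t₀ N q + 2 * Real.pi / N := by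
  unfold angk
  push_cast
  ring

/-- the small angle -/
private theorem NextEx_small {η : ℝ} (h0 : 0 < η) (h1 : η ≤ 1 / 200) :
    0 < Real.sin η ∧ Real.sin η < Real.cos η := by
  refine ⟨Real.sin_pos_of_pos_of_lt_pi h0 (by linarith [Real.pi_gt_three]), ?_⟩
  have h2 := Real.one_sub_sq_div_two_le_cos (x := η)
  have h3 := Real.sin_lt h0
  nlinarith

private theorem NextEx_det_add (u : ℝ × ℝ) (c η : ℝ) :
    det2 u (dirv (c + η)) = Real.cos η * det2 u (dirv c) +
      Real.sin η * (u.1 * Real.cos c + u.2 * Real.sin c) := by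
  simp only [det2, dirv, Real.cos_add, Real.sin_add]
  ring

private theorem NextEx_nm_sq (u : ℝ × ℝ) (c : ℝ) :
    nm u ^ 2 = (u.1 * Real.cos c + u.2 * Real.sin c) ^ 2 + det2 u (dirv c) ^ 2 := by
  rw [nm_sq]
  simp only [det2, dirv]
  have h3 := Real.sin_sq_add_cos_sq c
  linear_combination (-(u.1 ^ 2 + u.2 ^ 2)) * h3

/-- in the arc the scalar product with the direction `c_q` is at least half the length -/
private theorem NextEx_arc {q : ℤ} {w : ℝ × ℝ} (h0 : 0 < 2 * Real.pi / N)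
    (h1 : 2 * Real.pi / N ≤ 1 / 200) (h : ArcAt Y t₀ N q w) :
    nm (Y w) / 2 ≤ (Y w).1 * Real.cos (angk t₀ N q) + (Y w).2 * Real.sin (angk t₀ N q) := by
  obtain ⟨h2, h3⟩ := h
  rw [NextEx_angk, NextEx_det_add] at h3
  obtain ⟨h4, h5⟩ := NextEx_small h0 h1
  have h6 := NextEx_nm_sq (Y w) (angk t₀ N q)
  have h7 := rb_nm_nonneg (Y w)
  set X := (Y w).1 * Real.cos (angk t₀ N q) + (Y w).2 * Real.sin (angk t₀ N q) with hX
  set Z := det2 (Y w) (dirv (angk t₀ N q)) with hZ
  set s := Real.sin (2 * Real.pi / N) with hs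
  set c := Real.cos (2 * Real.pi / N) with hc
  have hXpos : 0 < X := by
    by_contra hX0
    push Not at hX0
    have e1 : s * X ≤ 0 := mul_nonpos_of_nonneg_of_nonpos h4.le hX0
    have e2 : c * Z < 0 := mul_neg_of_pos_of_neg (h4.trans h5) h2
    linarith
  have hZX : -Z ≤ X := by
    have e1 : c * (-Z) < s * X := by linarith
    have e2 : s * X ≤ c * X := mul_le_mul_of_nonneg_right h5.le hXpos.le
    have e3 : c * (-Z) < c * X := by linarith
    exact (lt_of_mul_lt_mul_left e3 (h4.trans h5).le).le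
  have hZ2 : Z ^ 2 ≤ X ^ 2 := by
    rw [← neg_sq Z]
    exact pow_le_pow_left₀ (by linarith) hZX 2
  have h8 : nm (Y w) ^ 2 ≤ (2 * X) ^ 2 := by nlinarith
  have h9 := abs_le_of_sq_le_sq h8 (by linarith)
  rw [abs_of_nonneg h7] at h9
  linarith

private theorem NextEx_turn (a : ℝ) (Y : ℝ × ℝ → ℝ × ℝ) (w : ℝ × ℝ) (c : ℝ) :
    (turn a Y w).1 * Real.cos (c + a) + (turn a Y w).2 * Real.sin (c + a) =
      (Y w).1 * Real.cos c + (Y w).2 * Real.sin c := by
  simp only [turn, Real.cos_add, Real.sin_add]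
  have h3 := Real.sin_sq_add_cos_sq a
  linear_combination ((Y w).1 * Real.cos c + (Y w).2 * Real.sin c) * h3

/-- The flow leaves the arc in finite time: there is a next point with a listed direction. Proof: let `s`
be the supremum of the times `t` such that the flow is in the arc `q = qOf` on `(0, t)` (positive by
`Ring.start`). It is finite: `|Y| ≥ μ > 0` on the compact ring (`Ring.ne`), in the arc
`turn a Y = |Y| dirv (θ + a)` with `θ` within `2π/N ≤ 1/200` of `c_q`, so the scalar product of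
`φ a t z` with `dirv (c_q + a)` grows with speed at least `μ/2`, but it is bounded on the ring. At
`s` the two inequalities of `ArcAt` hold with `≤` and one of them is an equality (else the flow would
stay in the open arc after `s`); by `rb_parallel` and the other inequality, `Y ≠ 0`, the direction is
`c_q` or `c_{q+1}` (positive multiple). -/
theorem Ring.next (h : Ring Y δ t₀ N C₁ D₁ C₂ D₂) (hφ : Flw Y δ ((D₁ ∪ C₁) \ D₂) φ) {a : ℝ}
    (ha : a ∈ Set.Ioo 0 δ) {z : ℝ × ℝ} (hz : z ∈ Lst Y t₀ N ((D₁ ∪ C₁) \ D₂) k) :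
    ∃ s : ℝ, Step Y t₀ N φ a (qOf Y t₀ N k z) z s ∧
      (φ a s z ∈ Lst Y t₀ N ((D₁ ∪ C₁) \ D₂) (qOf Y t₀ N k z) ∨
        φ a s z ∈ Lst Y t₀ N ((D₁ ∪ C₁) \ D₂) (qOf Y t₀ N k z + 1)) := by
  set q := qOf Y t₀ N k z with hq
  set R := (D₁ ∪ C₁) \ D₂ with hR
  have hzR : z ∈ R := hz.1
  have hN : (0 : ℝ) < N := Nat.cast_pos.2 h.Npos
  have hη0 : 0 < 2 * Real.pi / N := div_pos (by positivity) hN
  have hη1 : 2 * Real.pi / N ≤ 1 / 200 := by
    have := h.small
    have := h.δle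
    linarith
  obtain ⟨hsin, hcs⟩ := NextEx_small hη0 hη1
  -- the start
  obtain ⟨ε, hε, hst⟩ := h.start hφ ha hz
  have hst1 : ∀ t ∈ Set.Ioc 0 ε, ArcAt Y t₀ N q (φ a t z) := hst.self_of_nhds hz
  -- continuity of the orbit
  have hcφ : Continuous fun t : ℝ => φ a t z :=
    hφ.cont.comp (continuous_const.prodMk (continuous_id.prodMk continuous_const))
  have hYc : Continuous Y := h.smooth.continuous
  have hmem : ∀ t, 0 ≤ t → φ a t z ∈ R := fun t ht => hφ.mem a ha z hzR t ht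
  -- the lower bound of the speed
  obtain ⟨w₀, hw₀, hmin⟩ := h.cpt.exists_isMinOn ⟨z, hzR⟩ (continuous_nm.comp hYc).continuousOn
  have hμ : 0 < nm (Y w₀) := nm_pos (h.ne hw₀)
  set μ := nm (Y w₀) with hμdef
  have hμle : ∀ w ∈ R, μ ≤ nm (Y w) := fun w hw => hmin hw
  -- the bound of the scalar product
  set b := angk t₀ N q + a with hb
  have hgc : Continuous fun w : ℝ × ℝ => w.1 * Real.cos b + w.2 * Real.sin b := by fun_prop
  obtain ⟨M, hM⟩ := h.cpt.exists_bound_of_continuousOn hgc.continuousOn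
  -- the set of times
  let S : Set ℝ := {s | Step Y t₀ N φ a q z s}
  have hεS : ε ∈ S := ⟨hε, fun t ht => hst1 t ⟨ht.1, ht.2.le⟩⟩
  have hbd : ∀ s ∈ S, s ≤ 4 * M / μ := by
    intro s hs
    have hs0 : 0 < s := hs.1
    have hd : ∀ t ∈ Set.Ioo 0 s, HasDerivAt
        (fun t : ℝ => (φ a t z).1 * Real.cos b + (φ a t z).2 * Real.sin b)
        ((turn a Y (φ a t z)).1 * Real.cos b + (turn a Y (φ a t z)).2 * Real.sin b) t := by
      intro t ht
      have h1 := hφ.deriv a ha z hzR t ht.1.le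
      have h2 : HasDerivAt (fun s => (φ a s z).1) (turn a Y (φ a t z)).1 t :=
        (ContinuousLinearMap.fst ℝ ℝ ℝ).hasFDerivAt.comp_hasDerivAt t h1
      have h3 : HasDerivAt (fun s => (φ a s z).2) (turn a Y (φ a t z)).2 t :=
        (ContinuousLinearMap.snd ℝ ℝ ℝ).hasFDerivAt.comp_hasDerivAt t h1
      exact (h2.mul_const _).add (h3.mul_const _)
    obtain ⟨c, hc, hslope⟩ := exists_hasDerivAt_eq_slope
      (fun t : ℝ => (φ a t z).1 * Real.cos b + (φ a t z).2 * Real.sin b) _ hs0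
      (hgc.comp hcφ).continuousOn hd
    rw [hb, NextEx_turn, ← hb, hφ.zero a z] at hslope
    have h4 := NextEx_arc hη0 hη1 (hs.2 c hc)
    have h5 := hμle _ (hmem c hc.1.le)
    have h6 := hM _ (hmem s hs0.le)
    have h7 := hM _ hzR
    rw [Real.norm_eq_abs, abs_le] at h6 h7
    rw [hslope, le_div_iff₀ (by linarith)] at h4
    rw [le_div_iff₀ hμ]
    nlinarith
  have hbdd : BddAbove S := ⟨4 * M / μ, hbd⟩
  set s₀ := sSup S with hs₀
  have hεs : ε ≤ s₀ := le_csSup hbdd hεS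
  have hs₀0 : 0 < s₀ := hε.trans_le hεs
  have hstep : ∀ t ∈ Set.Ioo 0 s₀, ArcAt Y t₀ N q (φ a t z) := by
    intro t ht
    obtain ⟨s, hs, hts⟩ := exists_lt_of_lt_csSup ⟨ε, hεS⟩ ht.2
    exact hs.2 t ⟨ht.1, hts⟩
  refine ⟨s₀, ⟨hs₀0, hstep⟩, ?_⟩
  set w := φ a s₀ z with hw
  have hwR : w ∈ R := hmem s₀ hs₀0.le
  have hY0 : Y w ≠ 0 := h.ne hwR
  -- the functions of time
  have hf1 : Continuous fun t : ℝ => det2 (Y (φ a t z)) (dirv (angk t₀ N q)) :=
    rb_continuous_det2.comp ((hYc.comp hcφ).prodMk continuous_const)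
  have hf2 : Continuous fun t : ℝ => det2 (Y (φ a t z)) (dirv (angk t₀ N (q + 1))) :=
    rb_continuous_det2.comp ((hYc.comp hcφ).prodMk continuous_const)
  have hcl : s₀ ∈ closure (Set.Ioo 0 s₀) := by
    rw [closure_Ioo hs₀0.ne]
    exact ⟨hs₀0.le, le_rfl⟩
  have hle1 : det2 (Y w) (dirv (angk t₀ N q)) ≤ 0 := by
    have : s₀ ∈ {t : ℝ | det2 (Y (φ a t z)) (dirv (angk t₀ N q)) ≤ 0} :=
      closure_minimal (fun t ht => (hstep t ht).1.le) (isClosed_le hf1 continuous_const) hcl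
    exact this
  have hle2 : 0 ≤ det2 (Y w) (dirv (angk t₀ N (q + 1))) := by
    have : s₀ ∈ {t : ℝ | 0 ≤ det2 (Y (φ a t z)) (dirv (angk t₀ N (q + 1)))} :=
      closure_minimal (fun t ht => (hstep t ht).2.le) (isClosed_le continuous_const hf2) hcl
    exact this
  have hor : det2 (Y w) (dirv (angk t₀ N q)) = 0 ∨ det2 (Y w) (dirv (angk t₀ N (q + 1))) = 0 := by
    by_contra hno
    push Not at hno
    have hl1 : det2 (Y w) (dirv (angk t₀ N q)) < 0 := lt_of_le_of_ne hle1 hno.1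
    have hl2 : 0 < det2 (Y w) (dirv (angk t₀ N (q + 1))) := lt_of_le_of_ne hle2 (Ne.symm hno.2)
    have hopen : IsOpen {t : ℝ | det2 (Y (φ a t z)) (dirv (angk t₀ N q)) < 0 ∧
        0 < det2 (Y (φ a t z)) (dirv (angk t₀ N (q + 1)))} :=
      (isOpen_lt hf1 continuous_const).inter (isOpen_lt continuous_const hf2)
    obtain ⟨r, hr, hball⟩ := Metric.isOpen_iff.1 hopen s₀ ⟨hl1, hl2⟩
    have hnew : s₀ + r / 2 ∈ S := by
      refine ⟨by positivity, fun t ht => ?_⟩
      rcases lt_or_ge t s₀ with h1 | h1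
      · exact hstep t ⟨ht.1, h1⟩
      · have h2 : t ∈ Metric.ball s₀ r := by
          rw [Metric.mem_ball, Real.dist_eq, abs_of_nonneg (by linarith)]
          have := ht.2
          linarith
        exact hball h2
    have := le_csSup hbdd hnew
    linarith
  rcases hor with h0 | h0
  · left
    refine ⟨hwR, _, ?_, rb_parallel h0⟩
    have h1 := hle2
    rw [NextEx_angk, NextEx_det_add, h0, mul_zero, zero_add] at h1
    have h2 : 0 ≤ (Y w).1 * Real.cos (angk t₀ N q) + (Y w).2 * Real.sin (angk t₀ N q) := by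
      by_contra h3
      push Not at h3
      have := mul_neg_of_pos_of_neg hsin h3
      linarith
    rcases h2.lt_or_eq with h3 | h3
    · exact h3
    · exfalso
      apply hY0
      rw [rb_parallel h0, ← h3, zero_smul]
  · right
    refine ⟨hwR, _, ?_, rb_parallel h0⟩
    have h1 := hle1
    have e1 : angk t₀ N q = angk t₀ N (q + 1) + -(2 * Real.pi / N) := by
      rw [NextEx_angk]; ring
    rw [e1, NextEx_det_add, h0, mul_zero, zero_add, Real.sin_neg] at h1
    have h2 : 0 ≤ (Y w).1 * Real.cos (angk t₀ N (q + 1)) +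
        (Y w).2 * Real.sin (angk t₀ N (q + 1)) := by
      by_contra h3
      push Not at h3
      have := mul_neg_of_pos_of_neg hsin h3
      linarith
    rcases h2.lt_or_eq with h3 | h3
    · exact h3
    · exfalso
      apply hY0
      rw [rb_parallel h0, ← h3, zero_smul]

end Pool.Agent.Lib.MP_95e7ec_an
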