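import Mathlib
import Pool.Agent.Lib.MP_95e7ec_an.Rc.NextEx
import Pool.Agent.Lib.MP_95e7ec_an.Rc.ExitTime
import Pool.Agent.Lib.MP_95e7ec_an.Rc.Leave

/-!
# Rc, NextPath: the next listed point along a path
-/

set_option autoImplicit false

open Set Filter Topology MeasureTheory
open scoped ContDiff ENNReal

namespace Pool.Agent.Lib.MP_95e7ec_an

variable {Y : ℝ × ℝ → ℝ × ℝ} {δ t₀ : ℝ} {N : ℕ} {C₁ D₁ C₂ D₂ : Set (ℝ × ℝ)}
  {φ : ℝ → ℝ → ℝ × ℝ → ℝ × ℝ} {k : ℤ}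

private theorem nextPath_det_zero {R : Set (ℝ × ℝ)} {k' : ℤ} {w : ℝ × ℝ}
    (hw : w ∈ Lst Y t₀ N R k') : det2 (Y w) (dirv (angk t₀ N k')) = 0 := by
  obtain ⟨_, ρ, _, hρ⟩ := hw
  rw [hρ, rb_det2_smul_left, rb_det2_self, mul_zero]

private theorem nextPath_disj (h : Ring Y δ t₀ N C₁ D₁ C₂ D₂) (q : ℤ) {w : ℝ × ℝ}
    {R : Set (ℝ × ℝ)} (h1 : w ∈ Lst Y t₀ N R q) (h2 : w ∈ Lst Y t₀ N R (q + 1)) : False := by
  obtain ⟨_, m, hm⟩ := h.lst_mod h1 h2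
  have hN : (0 : ℝ) < N := by exact_mod_cast h.Npos
  have h3 := h.small
  have h4 := h.δle
  have h5 : 2 * Real.pi / N ≤ 1 / 200 := h3.trans (by linarith)
  rw [div_le_div_iff₀ hN (by norm_num)] at h5
  have h6 := Real.pi_gt_three
  have h7 : (2 : ℝ) < N := by linarith
  have h8 : (2 : ℤ) < N := by exact_mod_cast h7
  have h9 : m * N = -1 := by linarith
  have h10 : (N : ℤ) ∣ 1 := ⟨-m, by linarith⟩
  have h11 := Int.le_of_dvd one_pos h10
  linarith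

/-- Along a path in `Lst k`, with varying angles `α τ ∈ (0, δ)`, the next listed point moves
continuously in one `Lst k'`. Proof: `q = qOf` is constant along the path (`Ring.qOf_loc`, connectedness of
the interval). Let `s τ` be from `Ring.next`. `exit_time_continuous` with
`F τ t = min (-det2 (Y (φ (α τ) t (κ τ))) (dirv c_q)) (det2 (Y ..) (dirv c_{q+1}))` gives the continuity of
`s` (`Ring.leave` for `h3`, `Ring.start` for `h4`, the listed endpoint for `h2`). The end points lie in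
`Lst q ∪ Lst (q+1)`, two disjoint (`Ring.lst_mod`: their directions differ, `2π/N` is small) closed
sets (`Ring.lst_cpt`), so all in one of them by connectedness. -/
theorem Ring.next_path (h : Ring Y δ t₀ N C₁ D₁ C₂ D₂) (hφ : Flw Y δ ((D₁ ∪ C₁) \ D₂) φ)
    {κ : ℝ → ℝ × ℝ} {α : ℝ → ℝ} {lo hi : ℝ} (hlh : lo ≤ hi)
    (hκ : ContinuousOn κ (Set.Icc lo hi)) (hα : ContinuousOn α (Set.Icc lo hi))
    (hκL : ∀ τ ∈ Set.Icc lo hi, κ τ ∈ Lst Y t₀ N ((D₁ ∪ C₁) \ D₂) k)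
    (hαI : ∀ τ ∈ Set.Icc lo hi, α τ ∈ Set.Ioo 0 δ) :
    ∃ (q k' : ℤ) (s : ℝ → ℝ), (q = k ∨ q = k - 1) ∧ (k' = q ∨ k' = q + 1) ∧
      ContinuousOn s (Set.Icc lo hi) ∧ ∀ τ ∈ Set.Icc lo hi,
        Step Y t₀ N φ (α τ) q (κ τ) (s τ) ∧
        φ (α τ) (s τ) (κ τ) ∈ Lst Y t₀ N ((D₁ ∪ C₁) \ D₂) k' := by
  obtain ⟨q, hq⟩ : ∃ q : ℤ, q = qOf Y t₀ N k (κ lo) := ⟨_, rfl⟩
  have hlo : lo ∈ Set.Icc lo hi := ⟨le_rfl, hlh⟩
  -- `qOf` is constant along the path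
  have hqc : ContinuousOn (fun τ => qOf Y t₀ N k (κ τ)) (Set.Icc lo hi) := by
    intro τ hτ
    have e1 := (hκ τ hτ).eventually (h.qOf_loc (hκL τ hτ))
    have e2 : ∀ᶠ τ' in 𝓝[Set.Icc lo hi] τ, qOf Y t₀ N k (κ τ') = qOf Y t₀ N k (κ τ) := by
      filter_upwards [e1, self_mem_nhdsWithin] with τ' h1 h2
      exact h1 (hκL τ' h2)
    exact tendsto_const_nhds.congr' (e2.mono fun _ h => h.symm)
  have hqq : ∀ τ ∈ Set.Icc lo hi, qOf Y t₀ N k (κ τ) = q := by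
    intro τ hτ
    rw [hq]
    exact isPreconnected_Icc.constant hqc hτ hlo
  have hqk : q = k ∨ q = k - 1 := by
    rw [hq]
    unfold qOf
    split_ifs
    · exact Or.inl rfl
    · exact Or.inr rfl
  have hnext := fun τ (hτ : τ ∈ Set.Icc lo hi) => h.next hφ (hαI τ hτ) (hκL τ hτ)
  choose! s hs hs2 using hnext
  obtain ⟨F, hFd⟩ : ∃ F : ℝ → ℝ → ℝ, F = fun τ t =>
    min (-det2 (Y (φ (α τ) t (κ τ))) (dirv (angk t₀ N q)))
      (det2 (Y (φ (α τ) t (κ τ))) (dirv (angk t₀ N (q + 1)))) := ⟨_, rfl⟩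
  have hpath : ContinuousOn (fun p : ℝ × ℝ => φ (α p.1) p.2 (κ p.1))
      (Set.Icc lo hi ×ˢ Set.univ) := by
    have e1 : ContinuousOn (fun p : ℝ × ℝ => ((α p.1, p.2, κ p.1) : ℝ × ℝ × (ℝ × ℝ)))
        (Set.Icc lo hi ×ˢ Set.univ) := by
      refine ContinuousOn.prodMk (hα.comp continuousOn_fst fun p hp => hp.1)
        (ContinuousOn.prodMk continuousOn_snd (hκ.comp continuousOn_fst fun p hp => hp.1))
    exact hφ.cont.comp_continuousOn e1
  have hYc : Continuous Y := h.smooth.continuous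
  have hdet : ∀ c : ℝ, ContinuousOn (fun p : ℝ × ℝ => det2 (Y (φ (α p.1) p.2 (κ p.1))) (dirv c))
      (Set.Icc lo hi ×ˢ Set.univ) := by
    intro c
    exact rb_continuous_det2.comp_continuousOn
      (ContinuousOn.prodMk (hYc.comp_continuousOn hpath) continuousOn_const)
  have hF : ContinuousOn (fun p : ℝ × ℝ => F p.1 p.2) (Set.Icc lo hi ×ˢ Set.univ) := by
    rw [hFd]
    exact continuous_min.comp_continuousOn (ContinuousOn.prodMk (hdet _).neg (hdet _))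
  have hend : ∀ τ ∈ Set.Icc lo hi,
      φ (α τ) (s τ) (κ τ) ∈ Lst Y t₀ N ((D₁ ∪ C₁) \ D₂) q ∨
        φ (α τ) (s τ) (κ τ) ∈ Lst Y t₀ N ((D₁ ∪ C₁) \ D₂) (q + 1) := by
    intro τ hτ
    have := hs2 τ hτ
    rw [hqq τ hτ] at this
    exact this
  have hstep : ∀ τ ∈ Set.Icc lo hi, Step Y t₀ N φ (α τ) q (κ τ) (s τ) := by
    intro τ hτ
    have := hs τ hτ
    rw [hqq τ hτ] at this
    exact this
  have hcont : ContinuousOn s (Set.Icc lo hi) := by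
    refine exit_time_continuous hF (fun τ hτ => (hstep τ hτ).1) ?_ ?_ ?_ ?_
    · intro τ hτ t ht
      have e1 := (hstep τ hτ).2 t ht
      rw [hFd]
      exact lt_min (neg_pos.2 e1.1) e1.2
    · intro τ hτ
      rw [hFd]
      rcases hend τ hτ with e1 | e1
      · refine (min_le_left _ _).trans ?_
        rw [nextPath_det_zero e1, neg_zero]
      · refine (min_le_right _ _).trans ?_
        rw [nextPath_det_zero e1]
    · intro τ hτ
      have e1 : ∀ᶠ t in 𝓝[>] (s τ), F τ t < 0 := by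
        rw [hFd]
        rcases hend τ hτ with e2 | e2
        · exact h.leave hφ (hαI τ hτ) (hκL τ hτ).1 (hstep τ hτ) (Or.inl rfl) e2
        · exact h.leave hφ (hαI τ hτ) (hκL τ hτ).1 (hstep τ hτ) (Or.inr rfl) e2
      exact e1.frequently
    · intro τ hτ
      obtain ⟨ε, hε, e1⟩ := h.start hφ (hαI τ hτ) (hκL τ hτ)
      refine ⟨ε, hε, ?_⟩
      have e2 : Tendsto (fun τ' => ((α τ', κ τ') : ℝ × (ℝ × ℝ))) (𝓝[Set.Icc lo hi] τ)
          (𝓝 (α τ, κ τ)) := (hα τ hτ).prodMk_nhds (hκ τ hτ)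
      filter_upwards [e2.eventually e1, self_mem_nhdsWithin] with τ' h1 h2 t ht
      have e3 := h1 (hκL τ' h2) t ht
      rw [hqq τ hτ] at e3
      rw [hFd]
      exact lt_min (neg_pos.2 e3.1) e3.2
  -- the end points
  have hec : ContinuousOn (fun τ => φ (α τ) (s τ) (κ τ)) (Set.Icc lo hi) := by
    have e1 : ContinuousOn (fun τ : ℝ => ((α τ, s τ, κ τ) : ℝ × ℝ × (ℝ × ℝ))) (Set.Icc lo hi) :=
      ContinuousOn.prodMk hα (ContinuousOn.prodMk hcont hκ)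
    exact hφ.cont.comp_continuousOn e1
  have himg : IsPreconnected ((fun τ => φ (α τ) (s τ) (κ τ)) '' Set.Icc lo hi) :=
    isPreconnected_Icc.image _ hec
  have hsub := isPreconnected_iff_subset_of_disjoint_closed.1 himg
    (Lst Y t₀ N ((D₁ ∪ C₁) \ D₂) q) (Lst Y t₀ N ((D₁ ∪ C₁) \ D₂) (q + 1))
    (h.lst_cpt q).isClosed (h.lst_cpt (q + 1)).isClosed (by
      rintro x ⟨τ, hτ, rfl⟩
      exact hend τ hτ) (by
      rw [Set.eq_empty_iff_forall_notMem]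
      rintro x ⟨_, h1, h2⟩
      exact nextPath_disj h q h1 h2)
  rcases hsub with h1 | h1
  · exact ⟨q, q, s, hqk, Or.inl rfl, hcont, fun τ hτ => ⟨hstep τ hτ, h1 ⟨τ, hτ, rfl⟩⟩⟩
  · exact ⟨q, q + 1, s, hqk, Or.inr rfl, hcont, fun τ hτ => ⟨hstep τ hτ, h1 ⟨τ, hτ, rfl⟩⟩⟩

end Pool.Agent.Lib.MP_95e7ec_an
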