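import Mathlib
import Pool.Agent.Lib.MP_95e7ec_an.Rc.NextPath

/-!
# Rc, Itin: itineraries
-/

set_option autoImplicit false

open Set Filter Topology MeasureTheory
open scoped ContDiff ENNReal

namespace Pool.Agent.Lib.MP_95e7ec_an

variable {Y : ℝ × ℝ → ℝ × ℝ} {δ t₀ : ℝ} {N : ℕ} {C₁ D₁ C₂ D₂ : Set (ℝ × ℝ)}
  {φ : ℝ → ℝ → ℝ × ℝ → ℝ × ℝ} {k : ℤ}

/-- The itinerary along a path: iterate `Ring.next_path`. -/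
theorem Ring.itinerary (h : Ring Y δ t₀ N C₁ D₁ C₂ D₂) (hφ : Flw Y δ ((D₁ ∪ C₁) \ D₂) φ)
    {κ₀ : ℝ → ℝ × ℝ} {α : ℝ → ℝ} {lo hi : ℝ} (hlh : lo ≤ hi)
    (hκ : ContinuousOn κ₀ (Set.Icc lo hi)) (hα : ContinuousOn α (Set.Icc lo hi))
    (hκL : ∀ τ ∈ Set.Icc lo hi, κ₀ τ ∈ Lst Y t₀ N ((D₁ ∪ C₁) \ D₂) k)
    (hαI : ∀ τ ∈ Set.Icc lo hi, α τ ∈ Set.Ioo 0 δ) :
    ∃ (kk q : ℕ → ℤ) (κ : ℕ → ℝ → ℝ × ℝ) (s : ℕ → ℝ → ℝ), kk 0 = k ∧ κ 0 = κ₀ ∧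
      ∀ j : ℕ, (q j = kk j ∨ q j = kk j - 1) ∧ (kk (j + 1) = q j ∨ kk (j + 1) = q j + 1) ∧
        ContinuousOn (κ j) (Set.Icc lo hi) ∧
        ∀ τ ∈ Set.Icc lo hi, κ j τ ∈ Lst Y t₀ N ((D₁ ∪ C₁) \ D₂) (kk j) ∧
          Step Y t₀ N φ (α τ) (q j) (κ j τ) (s j τ) ∧
          κ (j + 1) τ = φ (α τ) (s j τ) (κ j τ) := by
  have hstep : ∀ x : {x : ℤ × (ℝ → ℝ × ℝ) // ContinuousOn x.2 (Set.Icc lo hi) ∧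
      ∀ τ ∈ Set.Icc lo hi, x.2 τ ∈ Lst Y t₀ N ((D₁ ∪ C₁) \ D₂) x.1},
      ∃ (q k' : ℤ) (s : ℝ → ℝ), (q = x.1.1 ∨ q = x.1.1 - 1) ∧ (k' = q ∨ k' = q + 1) ∧
        ContinuousOn s (Set.Icc lo hi) ∧ ∀ τ ∈ Set.Icc lo hi,
          Step Y t₀ N φ (α τ) q (x.1.2 τ) (s τ) ∧
          φ (α τ) (s τ) (x.1.2 τ) ∈ Lst Y t₀ N ((D₁ ∪ C₁) \ D₂) k' :=
    fun x => h.next_path hφ hlh x.2.1 hα x.2.2 hαI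
  choose Q K S hQ hK hS hstp using hstep
  have hcont : ∀ x : {x : ℤ × (ℝ → ℝ × ℝ) // ContinuousOn x.2 (Set.Icc lo hi) ∧
      ∀ τ ∈ Set.Icc lo hi, x.2 τ ∈ Lst Y t₀ N ((D₁ ∪ C₁) \ D₂) x.1},
      ContinuousOn (fun τ => φ (α τ) (S x τ) (x.1.2 τ)) (Set.Icc lo hi) := fun x =>
    hφ.cont.comp_continuousOn (hα.prodMk ((hS x).prodMk x.2.1))
  let st : ℕ → {x : ℤ × (ℝ → ℝ × ℝ) // ContinuousOn x.2 (Set.Icc lo hi) ∧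
      ∀ τ ∈ Set.Icc lo hi, x.2 τ ∈ Lst Y t₀ N ((D₁ ∪ C₁) \ D₂) x.1} := fun n =>
    Nat.rec ⟨(k, κ₀), hκ, hκL⟩ (fun _ x => ⟨(K x, fun τ => φ (α τ) (S x τ) (x.1.2 τ)),
      hcont x, fun τ hτ => (hstp x τ hτ).2⟩) n
  have hst : ∀ n, st (n + 1) = ⟨(K (st n), fun τ => φ (α τ) (S (st n) τ) ((st n).1.2 τ)),
      hcont (st n), fun τ hτ => (hstp (st n) τ hτ).2⟩ := fun n => rfl
  refine ⟨fun j => (st j).1.1, fun j => Q (st j), fun j => (st j).1.2, fun j => S (st j), rfl,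
    rfl, fun j => ⟨hQ (st j), ?_, (st j).2.1, fun τ hτ => ⟨(st j).2.2 τ hτ,
      (hstp (st j) τ hτ).1, ?_⟩⟩⟩
  · simp only [hst]
    exact hK (st j)
  · simp only [hst]

end Pool.Agent.Lib.MP_95e7ec_an
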