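import Mathlib
import Pool.Agent.Lib.MP_95e7ec_an.Rc.LeafFlow
import Pool.Agent.Lib.MP_95e7ec_an.Rc.NextLoc

/-!
# Rc, Return: a leaf returns after finitely many steps
-/

set_option autoImplicit false

open Set Filter Topology MeasureTheory
open scoped ContDiff ENNReal

namespace Pool.Agent.Lib.MP_95e7ec_an

variable {Y : ℝ × ℝ → ℝ × ℝ} {δ t₀ : ℝ} {N : ℕ} {C₁ D₁ C₂ D₂ : Set (ℝ × ℝ)}
  {φ : ℝ → ℝ → ℝ × ℝ → ℝ × ℝ}

/-- The listed points of a leaf: the steps from `p 0 ∈ C` stay on `C` and come back to `p 0` after a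
number `J` of steps, with `p 0, ..., p (J-1)` different.

Proof. `Leaf.flow` gives the least period `T`. Let `τ_j = ∑_{i<j} s i`, so `p j = φ a τ_j (p 0)`
(`Flw.add`). Not all `τ_j` are `≤ T`: otherwise `τ_j → τ_∞ ≤ T`; by `Ring.lst_mod` and pigeonhole
infinitely many `p j` have the same direction `dirv c`, so for `w = φ a τ_∞ (p 0)`, in `Lst`, the function
`t ↦ det2 (Y (φ a t (p 0))) (dirv c)` vanishes at infinitely many times converging to `τ_∞`, so it has
derivative `0` there, but the derivative is `ρ ℓ (dirv (c + a)) ≠ 0` (`Ring.lst_pos`). (Or use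
`Ring.start` at the limit point: after a listed point close to `w` the flow is in an open arc for a time
`≥ ε`.) Let `J` be the least number with `τ_J ≥ T`. If `τ_J > T` then `τ_{J-1} < T < τ_J`
and `φ a T (p 0) = p 0 ∈ Lst` would be in an open arc (`Ring.not_arc`). So `τ_J = T`. The points
`p 0, ..., p (J-1)` are different since `φ a · (p 0)` is injective on `[0, T)`. -/
theorem Leaf.return (h : Ring Y δ t₀ N C₁ D₁ C₂ D₂) (hφ : Flw Y δ ((D₁ ∪ C₁) \ D₂) φ) {a : ℝ}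
    (ha : a ∈ Set.Ioo 0 δ) {C D : Set (ℝ × ℝ)} (hL : Leaf Y a C D)
    (hCR : C ⊆ (D₁ ∪ C₁) \ D₂) {p : ℕ → ℝ × ℝ} {kk q : ℕ → ℤ} {s : ℕ → ℝ} (h0 : p 0 ∈ C)
    (hp : ∀ j, p j ∈ Lst Y t₀ N ((D₁ ∪ C₁) \ D₂) (kk j))
    (hs : ∀ j, Step Y t₀ N φ a (q j) (p j) (s j) ∧ p (j + 1) = φ a (s j) (p j)) :
    ∃ J : ℕ, 0 < J ∧ p J = p 0 ∧ ∀ i < J, ∀ j < J, p i = p j → i = j := by
  have hz0 : p 0 ∈ C := h0
  obtain ⟨_, T, hT, hTz, _, hinj⟩ := Leaf.flow (h.smooth.of_le (by norm_num)) hφ ha hL hCR h0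
  set τ : ℕ → ℝ := fun j => ∑ i ∈ Finset.range j, s i with hτ
  have hτ0 : τ 0 = 0 := by simp [hτ]
  have hτs : ∀ j, τ (j + 1) = τ j + s j := fun j => Finset.sum_range_succ _ _
  have hspos : ∀ j, 0 < s j := fun j => (hs j).1.1
  have hmono : StrictMono τ := strictMono_nat_of_lt_succ fun j => by
    rw [hτs]
    linarith [hspos j]
  have hpτ : ∀ j, p j = φ a (τ j) (p 0) := by
    intro j
    induction j with
    | zero => rw [hτ0, hφ.zero]
    | succ j ih =>
      rw [(hs j).2, hτs, add_comm, hφ.add, ← ih]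
  -- the times are not bounded by `T`
  have hex : ∃ j, T ≤ τ j := by
    by_contra hcon
    push Not at hcon
    have hbdd : BddAbove (Set.range τ) := ⟨T, by
      rintro _ ⟨j, rfl⟩
      exact (hcon j).le⟩
    have hlim := tendsto_atTop_ciSup hmono.monotone hbdd
    set L : ℝ := ⨆ i, τ i with hL'
    have hlim1 : Tendsto (fun j => τ (j + 1)) atTop (𝓝 L) :=
      hlim.comp (tendsto_add_atTop_nat 1)
    have hs0 : Tendsto s atTop (𝓝 0) := by
      have h1 := hlim1.sub hlim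
      rw [sub_self] at h1
      refine h1.congr fun j => ?_
      rw [hτs]
      ring
    have hplim : Tendsto p atTop (𝓝 (φ a L (p 0))) := by
      have hc : Continuous fun t : ℝ => φ a t (p 0) :=
        hφ.cont.comp (continuous_const.prodMk (continuous_id.prodMk continuous_const))
      refine ((hc.tendsto L).comp hlim).congr fun j => ?_
      exact (hpτ j).symm
    -- pigeonhole
    have hP : ∀ j, ∃ r : ℕ, r < N ∧ p j ∈ Lst Y t₀ N ((D₁ ∪ C₁) \ D₂) (r : ℤ) := by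
      intro j
      obtain ⟨k', m, hk', _, hd⟩ := dirv_angk_mod t₀ h.Npos (kk j)
      refine ⟨k', hk', (hp j).1, ?_⟩
      obtain ⟨ρ, hρ, hY⟩ := (hp j).2
      refine ⟨ρ, hρ, ?_⟩
      rw [hY, hd, angk, Int.cast_natCast]
    obtain ⟨r, hr⟩ : ∃ r : ℕ, ∃ᶠ j in atTop,
        p j ∈ Lst Y t₀ N ((D₁ ∪ C₁) \ D₂) (r : ℤ) := by
      by_contra hno
      push Not at hno
      have h1 : ∀ᶠ j in atTop, ∀ r ∈ Finset.range N,
          p j ∉ Lst Y t₀ N ((D₁ ∪ C₁) \ D₂) (r : ℤ) := by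
        rw [Filter.eventually_all_finset]
        intro r _
        exact hno r
      obtain ⟨j, hj⟩ := h1.exists
      obtain ⟨r, hr, hrp⟩ := hP j
      exact hj r (Finset.mem_range.2 hr) hrp
    have hw : φ a L (p 0) ∈ Lst Y t₀ N ((D₁ ∪ C₁) \ D₂) (r : ℤ) :=
      (h.lst_cpt (r : ℤ)).isClosed.mem_of_frequently_of_tendsto hr hplim
    obtain ⟨ε, hε, hev⟩ := Ring.start h hφ ha hw
    have hpair : Tendsto (fun j => ((a, p j) : ℝ × (ℝ × ℝ))) atTop (𝓝 (a, φ a L (p 0))) :=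
      tendsto_const_nhds.prodMk_nhds hplim
    have h2 := hpair.eventually hev
    have h3 : ∀ᶠ j in atTop, s j < ε := hs0.eventually (gt_mem_nhds hε)
    obtain ⟨j, hj, hj2, hj3⟩ := (hr.and_eventually (h2.and h3)).exists
    have h4 := hj2 hj (s j) ⟨hspos j, hj3.le⟩
    rw [← (hs j).2] at h4
    exact h.not_arc (hp (j + 1)) h4
  classical
  set J : ℕ := Nat.find hex with hJ
  have hJT : T ≤ τ J := Nat.find_spec hex
  have hJlt : ∀ i < J, τ i < T := fun i hi => not_le.1 (Nat.find_min hex hi)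
  have hJpos : 0 < J := by
    rcases Nat.eq_zero_or_pos J with h1 | h1
    · rw [h1, hτ0] at hJT
      linarith
    · exact h1
  obtain ⟨I, hI⟩ : ∃ I, J = I + 1 := ⟨J - 1, by omega⟩
  have hIT : τ I < T := hJlt I (by omega)
  have hJeq : τ J = T := by
    by_contra hne
    have hlt : T < τ J := lt_of_le_of_ne hJT (Ne.symm hne)
    rw [hI, hτs] at hlt
    have h1 := (hs I).1.2 (T - τ I) ⟨by linarith, by linarith⟩
    rw [hpτ I, ← hφ.add, sub_add_cancel, hTz] at h1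
    exact h.not_arc (hp 0) h1
  refine ⟨J, hJpos, ?_, ?_⟩
  · rw [hpτ J, hJeq, hTz]
  · intro i hi j hj hij
    have hnn : ∀ i, 0 ≤ τ i := fun i => by
      rw [← hτ0]
      exact hmono.monotone (Nat.zero_le i)
    rw [hpτ i, hpτ j] at hij
    exact hmono.injective (hinj _ ⟨hnn i, hJlt i hi⟩ _ ⟨hnn j, hJlt j hj⟩ hij)

end Pool.Agent.Lib.MP_95e7ec_an
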