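import Mathlib

/-!
# Rc: cut-off functions
-/

set_option autoImplicit false

open Set Filter Topology NNReal
open scoped ContDiff

namespace Pool.Agent.Lib.MP_95e7ec_an

/-- A `C¹` function with compact support on a finite dimensional space is bounded and Lipschitz. -/
theorem bdd_lip_of_cpt {E F : Type*} [NormedAddCommGroup E] [NormedSpace ℝ E]
    [FiniteDimensional ℝ E] [NormedAddCommGroup F] [NormedSpace ℝ F] {f : E → F}
    (hf : ContDiff ℝ 1 f) (hc : HasCompactSupport f) :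
    (∃ K : ℝ≥0, LipschitzWith K f) ∧ ∃ B : ℝ, ∀ x, ‖f x‖ ≤ B := by
  refine ⟨?_, hc.exists_bound_of_continuous hf.continuous⟩
  exact ContDiff.lipschitzWith_of_hasCompactSupport hc hf (by norm_num)

/-- A smooth cut-off function: `1` near the compact set `K`, compact support in the open set `O`. -/
theorem exists_cutoff {K O : Set (ℝ × ℝ)} (hK : IsCompact K) (hO : IsOpen O) (hKO : K ⊆ O) :
    ∃ χ : ℝ × ℝ → ℝ, ContDiff ℝ ∞ χ ∧ HasCompactSupport χ ∧ tsupport χ ⊆ O ∧
      ∃ U : Set (ℝ × ℝ), IsOpen U ∧ K ⊆ U ∧ ∀ z ∈ U, χ z = 1 := by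
  obtain ⟨L2, hL2, hKL2, hL2O⟩ := exists_compact_between hK hO hKO
  obtain ⟨L1, hL1, hKL1, hL1L2⟩ := exists_compact_between hK isOpen_interior hKL2
  have hd : Disjoint (interior L2)ᶜ L1 := by
    rw [Set.disjoint_left]
    intro x hx hx1
    exact hx (hL1L2 hx1)
  obtain ⟨f, hf0, hf1, -⟩ := exists_contMDiffMap_zero_one_of_isClosed (n := (⊤ : ℕ∞))
    (modelWithCornersSelf ℝ (ℝ × ℝ)) (isOpen_interior.isClosed_compl) hL1.isClosed hd
  have hsup : tsupport (f : ℝ × ℝ → ℝ) ⊆ L2 := by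
    refine closure_minimal ?_ hL2.isClosed
    intro x hx
    by_contra hxL
    exact hx (hf0 (fun h => hxL (interior_subset h)))
  refine ⟨f, f.contMDiff.contDiff, ?_, hsup.trans hL2O, interior L1, isOpen_interior, hKL1, ?_⟩
  · exact hL2.of_isClosed_subset (isClosed_tsupport _) hsup
  · intro z hz
    exact hf1 (interior_subset hz)

end Pool.Agent.Lib.MP_95e7ec_an
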