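import Mathlib
import Pool.Agent.Lib.MP_2f875b_anE.Ode

/-!
# Rc, GenFlow: the flow of a bounded Lipschitz vector field
-/

set_option autoImplicit false

open Set Filter Topology NNReal
open scoped ContDiff

namespace Pool.Agent.Lib.MP_95e7ec_an

private theorem GenFlow_dist_pos {E : Type*} [NormedAddCommGroup E] [NormedSpace ℝ E]
    {f : E → E} {K : ℝ≥0} (hf : LipschitzWith K f) {y z : ℝ → E}
    (hy : ∀ t, HasDerivAt y (f (y t)) t) (hz : ∀ t, HasDerivAt z (f (z t)) t) {t : ℝ}
    (ht : 0 ≤ t) : dist (y t) (z t) ≤ dist (y 0) (z 0) * Real.exp (K * t) := by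
  have h := dist_le_of_trajectories_ODE (v := fun _ => f) (K := K) (f := y) (g := z) (a := 0)
    (b := t) (δ := dist (y 0) (z 0)) (fun s => hf)
    (fun s _ => (hy s).continuousAt.continuousWithinAt)
    (fun s _ => (hy s).hasDerivWithinAt)
    (fun s _ => (hz s).continuousAt.continuousWithinAt)
    (fun s _ => (hz s).hasDerivWithinAt) le_rfl t ⟨ht, le_rfl⟩
  simpa using h

private theorem GenFlow_dist {E : Type*} [NormedAddCommGroup E] [NormedSpace ℝ E]
    {f : E → E} {K : ℝ≥0} (hf : LipschitzWith K f) {y z : ℝ → E}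
    (hy : ∀ t, HasDerivAt y (f (y t)) t) (hz : ∀ t, HasDerivAt z (f (z t)) t) (t : ℝ) :
    dist (y t) (z t) ≤ dist (y 0) (z 0) * Real.exp (K * |t|) := by
  rcases le_total 0 t with ht | ht
  · rw [abs_of_nonneg ht]
    exact GenFlow_dist_pos hf hy hz ht
  · have hrev : ∀ w : ℝ → E, (∀ t, HasDerivAt w (f (w t)) t) →
        ∀ t, HasDerivAt (fun s => w (-s)) ((fun u => -f u) (w (-t))) t := by
      intro w hw t
      have h1 := (hw (-t)).scomp t (hasDerivAt_neg t)
      rw [neg_one_smul] at h1
      exact h1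
    have hfn : LipschitzWith K (fun u => -f u) := hf.neg
    have h := GenFlow_dist_pos hfn (hrev y hy) (hrev z hz) (t := -t) (by linarith)
    simp only [neg_neg, neg_zero] at h
    rw [abs_of_nonpos ht]
    exact h

/-- A bounded Lipschitz vector field has a global continuous flow. Proof: `Clo.exists_global`
(solutions), `Clo.sol_unique` (the group property), and Gronwall (`dist_le_of_trajectories_ODE`:
`dist (Φ t x) (Φ t y) ≤ dist x y * exp (K |t|)`, also for negative `t` by reversing the time) together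
with `‖Φ t x - Φ s x‖ ≤ B |t - s|` for the joint continuity. -/
theorem exists_gen_flow {E : Type*} [NormedAddCommGroup E] [NormedSpace ℝ E] [CompleteSpace E]
    {f : E → E} {K : ℝ≥0} (hf : LipschitzWith K f) {B : ℝ} (hB : ∀ x, ‖f x‖ ≤ B) :
    ∃ Φ : ℝ → E → E, (Continuous fun p : ℝ × E => Φ p.1 p.2) ∧ (∀ x, Φ 0 x = x) ∧
      (∀ s t x, Φ (s + t) x = Φ s (Φ t x)) ∧
      ∀ x t, HasDerivAt (fun s => Φ s x) (f (Φ t x)) t := by
  have hB0 : 0 ≤ B := (norm_nonneg _).trans (hB 0)
  choose Z hZ0 hZ using Clo.exists_global hf hB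
  refine ⟨fun t x => Z x t, ?_, hZ0, fun s t x => ?_, fun x t => hZ x t⟩
  · refine continuous_prod_of_continuous_lipschitzWith (fun p : ℝ × E => Z p.2 p.1)
      (Real.toNNReal B) (fun t => ?_) (fun x => ?_)
    · have hL : LipschitzWith (Real.toNNReal (Real.exp (K * |t|))) fun x => Z x t := by
        refine LipschitzWith.of_dist_le_mul fun x y => ?_
        rw [Real.coe_toNNReal _ (Real.exp_pos _).le]
        have h := GenFlow_dist hf (hZ x) (hZ y) t
        rw [hZ0, hZ0] at h
        rw [mul_comm]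
        exact h
      exact hL.continuous
    · refine LipschitzWith.of_dist_le_mul fun t s => ?_
      rw [Real.coe_toNNReal _ hB0, dist_eq_norm, dist_eq_norm]
      exact Convex.norm_image_sub_le_of_norm_hasDerivWithin_le (f := Z x)
        (f' := fun u => f (Z x u)) (s := univ)
        (fun u _ => (hZ x u).hasDerivWithinAt) (fun u _ => hB _) convex_univ trivial trivial
  · have h1 : ∀ u, HasDerivAt (fun u => Z x (u + t)) (f (Z x (u + t))) u := fun u =>
      (hZ x (u + t)).comp_add_const u t
    have h2 := Clo.sol_unique hf h1 (hZ (Z x t)) (by simp [hZ0])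
    exact congrFun h2 s

end Pool.Agent.Lib.MP_95e7ec_an
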