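import Mathlib
import Pool.Agent.Lib.MP_95e7ec_an.Rc.RingLem
import Pool.Agent.Lib.MP_95e7ec_an.Rc.GenFlow
import Pool.Agent.Lib.MP_95e7ec_an.Rc.Cutoff

/-!
# Rc, RingFlow: the flow of the turned fields in a ring
-/

set_option autoImplicit false

open Set Filter Topology MeasureTheory
open scoped ContDiff ENNReal

namespace Pool.Agent.Lib.MP_95e7ec_an

variable {Y : ℝ × ℝ → ℝ × ℝ} {δ t₀ : ℝ} {N : ℕ} {C₁ D₁ C₂ D₂ : Set (ℝ × ℝ)}

/-- small moves along a differentiable curve -/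
private theorem RingFlow_move {γ : ℝ → ℝ × ℝ} {t : ℝ} {u : ℝ × ℝ} (hγ : HasDerivAt γ u t)
    {U : Set (ℝ × ℝ)} (h : ∃ η : ℝ, 0 < η ∧ ∀ᶠ ε in 𝓝[>] (0 : ℝ), ∀ w : ℝ × ℝ,
      nm (w - γ t - ε • u) ≤ η * ε → w ∈ U) : ∀ᶠ s in 𝓝[>] t, γ s ∈ U := by
  obtain ⟨η, hη, hev⟩ := h
  have h1 := (hasDerivAt_iff_isLittleO.1 hγ).def (half_pos hη)
  have h2 : ∀ᶠ s in 𝓝[>] t, ‖γ s - γ t - (s - t) • u‖ ≤ η / 2 * ‖s - t‖ :=
    h1.filter_mono nhdsWithin_le_nhds
  have h3 : Tendsto (fun s : ℝ => s - t) (𝓝[>] t) (𝓝[>] (0 : ℝ)) := by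
    apply tendsto_nhdsWithin_iff.2
    constructor
    · have h4 : Tendsto (fun s : ℝ => s - t) (𝓝 t) (𝓝 (t - t)) :=
        (continuous_id.sub continuous_const).tendsto t
      rw [sub_self] at h4
      exact h4.mono_left nhdsWithin_le_nhds
    · filter_upwards [self_mem_nhdsWithin] with s hs
      have hs : t < s := hs
      exact sub_pos.2 hs
  filter_upwards [h2, h3.eventually hev, self_mem_nhdsWithin] with s hs1 hs2 hs3
  have hs3 : t < s := hs3
  apply hs2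
  have h4 := rb_nm_le_norm (γ s - γ t - (s - t) • u)
  rw [Real.norm_eq_abs, abs_of_pos (sub_pos.2 hs3)] at hs1
  linarith

private theorem RingFlow_det0 (Y : ℝ × ℝ → ℝ × ℝ) (a : ℝ) (z : ℝ × ℝ) :
    det2 (turn a Y z) (Y z) = -(Real.sin a * nm (Y z) ^ 2) := by
  rw [nm_sq]
  simp only [det2, turn]
  ring

private theorem RingFlow_det1 (Y : ℝ × ℝ → ℝ × ℝ) (a b : ℝ) (z : ℝ × ℝ) :
    det2 (turn a Y z) (turn b Y z) = Real.sin (b - a) * nm (Y z) ^ 2 := by
  rw [nm_sq, Real.sin_sub]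
  simp only [det2, turn]
  ring

/-- One step out of the ring is impossible. If `γ` has the derivative `turn a Y (γ t)` at `t`, with
`0 < a < δ`, and `γ t` is in the ring, then `γ s` is in the ring for all `s > t` close to `t`. Proof:
if `γ t ∈ C₁` then `γ s ∈ D₁` by `Side.into` (`det2 (turn a Y) Y = -|Y|² sin a < 0`); if
`γ t ∈ C₂` then `γ s ∉ D₂ ∪ C₂` by `Side.out` (`det2 (turn a Y) (turn δ Y) = |Y|² sin (δ - a) > 0`);
otherwise `γ t` is in the open sets `D₁`, resp. the complement of `D₂ ∪ C₂`. (`C₁` and `C₂` are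
disjoint.) -/
theorem Ring.stay (h : Ring Y δ t₀ N C₁ D₁ C₂ D₂) {a : ℝ} (ha : a ∈ Set.Ioo 0 δ)
    {γ : ℝ → ℝ × ℝ} {t : ℝ} (hγ : HasDerivAt γ (turn a Y (γ t)) t)
    (ht : γ t ∈ (D₁ ∪ C₁) \ D₂) : ∀ᶠ s in 𝓝[>] t, γ s ∈ (D₁ ∪ C₁) \ D₂ := by
  have hne := h.ne ht
  have hnm : 0 < nm (Y (γ t)) := nm_pos hne
  have ha0 : 0 < Real.sin a := by
    apply Real.sin_pos_of_pos_of_lt_pi ha.1
    have h1 := ha.2
    have h2 := h.δle
    have h3 := Real.pi_gt_three
    linarith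
  have hda : 0 < Real.sin (δ - a) := by
    apply Real.sin_pos_of_pos_of_lt_pi (sub_pos.2 ha.2)
    have h1 := ha.1
    have h2 := h.δle
    have h3 := Real.pi_gt_three
    linarith
  have hcl : IsClosed (D₂ ∪ C₂) := h.jp₂.cpt.isClosed
  -- inside of the outer barrier
  have hA : ∀ᶠ s in 𝓝[>] t, γ s ∈ D₁ := by
    rcases ht.1 with h1 | h1
    · exact (hγ.continuousAt.eventually_mem (h.jp₁.op.mem_nhds h1)).filter_mono
        nhdsWithin_le_nhds
    · apply RingFlow_move hγ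
      apply h.side₁.into h1
      rw [RingFlow_det0]
      have := mul_pos ha0 (pow_pos hnm 2)
      linarith
  -- outside of the inner barrier
  have hB : ∀ᶠ s in 𝓝[>] t, γ s ∉ D₂ ∪ C₂ := by
    by_cases h1 : γ t ∈ C₂
    · apply RingFlow_move hγ (U := (D₂ ∪ C₂)ᶜ)
      apply h.side₂.out h1
      rw [RingFlow_det1]
      exact mul_pos hda (pow_pos hnm 2)
    · have h2 : γ t ∈ (D₂ ∪ C₂)ᶜ := by
        rintro (h3 | h3)
        · exact ht.2 h3
        · exact h1 h3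
      exact (hγ.continuousAt.eventually_mem (hcl.isOpen_compl.mem_nhds h2)).filter_mono
        nhdsWithin_le_nhds
  filter_upwards [hA, hB] with s hs1 hs2
  exact ⟨Or.inl hs1, fun h3 => hs2 (Or.inl h3)⟩

private theorem RingFlow_turn_sub (g : ℝ × ℝ → ℝ × ℝ) (a : ℝ) (z w : ℝ × ℝ) :
    ‖turn a g z - turn a g w‖ ≤ 2 * ‖g z - g w‖ := by
  have h1 : |(g z).1 - (g w).1| ≤ ‖g z - g w‖ := norm_fst_le (g z - g w)
  have h2 : |(g z).2 - (g w).2| ≤ ‖g z - g w‖ := norm_snd_le (g z - g w)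
  have hc := Real.abs_cos_le_one a
  have hs := Real.abs_sin_le_one a
  have hp1 : |Real.cos a * ((g z).1 - (g w).1)| ≤ ‖g z - g w‖ := by
    rw [abs_mul]
    exact (mul_le_of_le_one_left (abs_nonneg _) hc).trans h1
  have hp2 : |Real.sin a * ((g z).2 - (g w).2)| ≤ ‖g z - g w‖ := by
    rw [abs_mul]
    exact (mul_le_of_le_one_left (abs_nonneg _) hs).trans h2
  have hp3 : |Real.sin a * ((g z).1 - (g w).1)| ≤ ‖g z - g w‖ := by
    rw [abs_mul]
    exact (mul_le_of_le_one_left (abs_nonneg _) hs).trans h1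
  have hp4 : |Real.cos a * ((g z).2 - (g w).2)| ≤ ‖g z - g w‖ := by
    rw [abs_mul]
    exact (mul_le_of_le_one_left (abs_nonneg _) hc).trans h2
  rw [Prod.norm_def]
  refine max_le ?_ ?_
  · have e : (turn a g z - turn a g w).1
        = Real.cos a * ((g z).1 - (g w).1) - Real.sin a * ((g z).2 - (g w).2) := by
      simp only [turn, Prod.fst_sub]; ring
    rw [e, Real.norm_eq_abs]
    have := abs_sub (Real.cos a * ((g z).1 - (g w).1)) (Real.sin a * ((g z).2 - (g w).2))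
    linarith
  · have e : (turn a g z - turn a g w).2
        = Real.sin a * ((g z).1 - (g w).1) + Real.cos a * ((g z).2 - (g w).2) := by
      simp only [turn, Prod.snd_sub]; ring
    rw [e, Real.norm_eq_abs]
    have := abs_add_le (Real.sin a * ((g z).1 - (g w).1)) (Real.cos a * ((g z).2 - (g w).2))
    linarith

private theorem RingFlow_turn_bd (g : ℝ × ℝ → ℝ × ℝ) (a : ℝ) (z : ℝ × ℝ) :
    ‖turn a g z‖ ≤ 2 * ‖g z‖ := by
  have h := RingFlow_turn_sub (fun b => if b = z then g z else 0) a z (z.1 + 1, z.2)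
  have hne : ((z.1 + 1, z.2) : ℝ × ℝ) ≠ z := by
    intro h1
    have := congrArg Prod.fst h1
    simp at this
  have e1 : turn a (fun b => if b = z then g z else 0) z = turn a g z := by
    simp [turn]
  have e2 : turn a (fun b => if b = z then g z else 0) (z.1 + 1, z.2) = 0 := by
    simp only [turn, if_neg hne]
    ext <;> simp
  rw [e1, e2] at h
  simpa [if_neg hne] using h

private theorem RingFlow_turn_ang (g : ℝ × ℝ → ℝ × ℝ) (a b : ℝ) (z : ℝ × ℝ) :
    ‖turn a g z - turn b g z‖ ≤ 2 * ‖g z‖ * |a - b| := by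
  have h1 : |(g z).1| ≤ ‖g z‖ := norm_fst_le (g z)
  have h2 : |(g z).2| ≤ ‖g z‖ := norm_snd_le (g z)
  have hg := norm_nonneg (g z)
  have hc : |Real.cos a - Real.cos b| ≤ |a - b| := Real.abs_cos_sub_cos_le a b
  have hs : |Real.sin a - Real.sin b| ≤ |a - b| := Real.abs_sin_sub_sin_le a b
  have hp : ∀ x y : ℝ, |x| ≤ |a - b| → |y| ≤ ‖g z‖ → |x * y| ≤ ‖g z‖ * |a - b| := by
    intro x y hx hy
    rw [abs_mul, mul_comm]
    exact mul_le_mul hy hx (abs_nonneg _) hg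
  rw [Prod.norm_def]
  refine max_le ?_ ?_
  · have e : (turn a g z - turn b g z).1
        = (Real.cos a - Real.cos b) * (g z).1 - (Real.sin a - Real.sin b) * (g z).2 := by
      simp only [turn, Prod.fst_sub]; ring
    rw [e, Real.norm_eq_abs]
    have := abs_sub ((Real.cos a - Real.cos b) * (g z).1) ((Real.sin a - Real.sin b) * (g z).2)
    have h3 := hp _ _ hc h1
    have h4 := hp _ _ hs h2
    linarith
  · have e : (turn a g z - turn b g z).2
        = (Real.sin a - Real.sin b) * (g z).1 + (Real.cos a - Real.cos b) * (g z).2 := by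
      simp only [turn, Prod.snd_sub]; ring
    rw [e, Real.norm_eq_abs]
    have := abs_add_le ((Real.sin a - Real.sin b) * (g z).1)
      ((Real.cos a - Real.cos b) * (g z).2)
    have h3 := hp _ _ hs h1
    have h4 := hp _ _ hc h2
    linarith

/-- The flow of the turned fields. Proof: `χ` a cut-off function (`exists_cutoff`) which is `1` near
the ring, `f (z, a) = (turn a (χ • Y) z, 0)` on `(ℝ × ℝ) × ℝ`; it is bounded and Lipschitz
(`bdd_lip_of_cpt` for `χ • Y`; `turn a v = cos a v + sin a J v`). `exists_gen_flow` gives `Φ`, the second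
component is constant, `φ a t z = (Φ t (z, a)).1`. Invariance: the set of the `t ≥ 0` with
`φ a s z ∈ R` for all `s ∈ [0, t]` is closed and `Ring.stay` extends it
(`IsClosed.Icc_subset_of_forall_exists_gt`). -/
theorem Ring.exists_flw (h : Ring Y δ t₀ N C₁ D₁ C₂ D₂) :
    ∃ φ, Flw Y δ ((D₁ ∪ C₁) \ D₂) φ := by
  obtain ⟨χ, hχ, hχc, -, U, hU, hRU, hχ1⟩ := exists_cutoff h.cpt isOpen_univ
    (Set.subset_univ _)
  set g : ℝ × ℝ → ℝ × ℝ := fun z => χ z • Y z with hg
  have hgC : ContDiff ℝ 1 g := by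
    have h1 : ContDiff ℝ 1 χ := hχ.of_le (by exact_mod_cast le_top)
    exact h1.smul (h.smooth.of_le (by norm_num))
  have hgc : HasCompactSupport g := hχc.smul_right
  obtain ⟨⟨K, hK⟩, B, hB⟩ := bdd_lip_of_cpt hgC hgc
  have hB0 : 0 ≤ B := (norm_nonneg _).trans (hB 0)
  have hgY : ∀ z ∈ (D₁ ∪ C₁) \ D₂, ∀ a, turn a g z = turn a Y z := by
    intro z hz a
    simp only [turn, hg, hχ1 z (hRU hz), one_smul]
  let f : (ℝ × ℝ) × ℝ → (ℝ × ℝ) × ℝ := fun p => (turn p.2 g p.1, 0)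
  have hfL : LipschitzWith (2 * K + 2 * B.toNNReal) f := by
    apply LipschitzWith.of_dist_le_mul
    intro p q
    have h1 := RingFlow_turn_sub g p.2 p.1 q.1
    have h2 := RingFlow_turn_ang g p.2 q.2 q.1
    have h3 : ‖g p.1 - g q.1‖ ≤ K * dist p.1 q.1 := by
      rw [← dist_eq_norm]
      exact hK.dist_le_mul _ _
    have h4 : dist p.1 q.1 ≤ dist p q := by
      rw [Prod.dist_eq]; exact le_max_left _ _
    have h5 : |p.2 - q.2| ≤ dist p q := by
      rw [← Real.dist_eq, Prod.dist_eq (x := p)]; exact le_max_right _ _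
    have h6 : dist (f p) (f q) = ‖turn p.2 g p.1 - turn q.2 g q.1‖ := by
      change max (dist (turn p.2 g p.1) (turn q.2 g q.1)) (dist (0 : ℝ) 0) = _
      rw [dist_self, dist_eq_norm, max_eq_left (norm_nonneg _)]
    have h7 : ‖turn p.2 g p.1 - turn q.2 g q.1‖ ≤ ‖turn p.2 g p.1 - turn p.2 g q.1‖
        + ‖turn p.2 g q.1 - turn q.2 g q.1‖ := by
      have := norm_add_le (turn p.2 g p.1 - turn p.2 g q.1) (turn p.2 g q.1 - turn q.2 g q.1)
      rwa [sub_add_sub_cancel] at this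
    have hKn : (0 : ℝ) ≤ K := K.2
    have h8 : 2 * ‖g q.1‖ * |p.2 - q.2| ≤ 2 * B * dist p q := by
      have := hB q.1
      apply mul_le_mul (by linarith) h5 (abs_nonneg _) (by positivity)
    have h9 : (K : ℝ) * dist p.1 q.1 ≤ K * dist p q := mul_le_mul_of_nonneg_left h4 hKn
    rw [h6]
    push_cast
    rw [Real.coe_toNNReal B hB0]
    linarith
  have hfB : ∀ x, ‖f x‖ ≤ 2 * B := by
    intro x
    have h1 := RingFlow_turn_bd g x.2 x.1
    have h2 := hB x.1
    simp only [f, Prod.norm_def (x := (turn x.2 g x.1, (0 : ℝ))), norm_zero]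
    exact max_le (by linarith) (by linarith)
  obtain ⟨Φ, hΦc, hΦ0, hΦa, hΦd⟩ := exists_gen_flow hfL hfB
  have hsnd : ∀ x t, (Φ t x).2 = x.2 := by
    intro x t
    have h1 : ∀ s, HasDerivAt (fun s => (Φ s x).2) 0 s := by
      intro s
      exact (hΦd x s).snd
    have h2 := is_const_of_deriv_eq_zero (fun s => (h1 s).differentiableAt)
      (fun s => (h1 s).deriv) t 0
    simpa only [hΦ0] using h2
  have hder : ∀ a z t, HasDerivAt (fun s => (Φ s (z, a)).1) (turn a g (Φ t (z, a)).1) t := by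
    intro a z t
    have h1 : HasDerivAt (fun s => (Φ s (z, a)).1) (f (Φ t (z, a))).1 t := (hΦd (z, a) t).fst
    have h2 : (f (Φ t (z, a))).1 = turn a g (Φ t (z, a)).1 := by
      simp only [f, hsnd]
    rwa [h2] at h1
  have hcont : Continuous fun p : ℝ × ℝ × (ℝ × ℝ) => (Φ p.2.1 (p.2.2, p.1)).1 := by
    have h1 : Continuous fun p : ℝ × ℝ × (ℝ × ℝ) => (p.2.1, (p.2.2, p.1)) := by fun_prop
    exact continuous_fst.comp (hΦc.comp h1)
  have hmem : ∀ a ∈ Set.Ioo 0 δ, ∀ z ∈ (D₁ ∪ C₁) \ D₂, ∀ t, 0 ≤ t →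
      (Φ t (z, a)).1 ∈ (D₁ ∪ C₁) \ D₂ := by
    intro a ha z hz t ht
    have hγc : Continuous fun s : ℝ => (Φ s (z, a)).1 :=
      continuous_iff_continuousAt.2 fun s => (hder a z s).continuousAt
    have hsub : Set.Icc 0 t ⊆ {s : ℝ | (Φ s (z, a)).1 ∈ (D₁ ∪ C₁) \ D₂} := by
      apply IsClosed.Icc_subset_of_forall_exists_gt
      · exact (h.cpt.isClosed.preimage hγc).inter isClosed_Icc
      · change (Φ 0 (z, a)).1 ∈ (D₁ ∪ C₁) \ D₂
        rw [hΦ0]
        exact hz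
      · intro x hx y hy
        have hxR : (Φ x (z, a)).1 ∈ (D₁ ∪ C₁) \ D₂ := hx.1
        have h1 : HasDerivAt (fun s => (Φ s (z, a)).1) (turn a Y (Φ x (z, a)).1) x := by
          have h2 := hder a z x
          rwa [hgY _ hxR] at h2
        have h3 := h.stay ha h1 hxR
        have h4 : ∀ᶠ s in 𝓝[>] x, s ∈ Set.Ioc x y := Ioc_mem_nhdsGT hy
        obtain ⟨s, hs1, hs2⟩ := (h3.and h4).exists
        exact ⟨s, hs1, hs2⟩
    exact hsub ⟨ht, le_rfl⟩
  refine ⟨fun a t z => (Φ t (z, a)).1, hcont, ?_, ?_, hmem, ?_⟩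
  · intro a z
    simp only [hΦ0]
  · intro a s t z
    have h1 : Φ t (z, a) = ((Φ t (z, a)).1, a) := Prod.ext rfl (hsnd (z, a) t)
    simp only [hΦa]
    rw [← h1]
  · intro a ha z hz t ht
    have h1 := hder a z t
    rwa [hgY _ (hmem a ha z hz t ht)] at h1

end Pool.Agent.Lib.MP_95e7ec_an
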