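import Mathlib
import Pool.Agent.Lib.MP_95e7ec_an.Rc.RingLem
import Pool.Agent.Lib.MP_95e7ec_an.Rb.Move

/-!
# Rc, StepLem: displacement during a step
-/

set_option autoImplicit false

open Set Filter Topology MeasureTheory
open scoped ContDiff ENNReal

namespace Pool.Agent.Lib.MP_95e7ec_an

variable {Y : ℝ × ℝ → ℝ × ℝ} {δ t₀ : ℝ} {N : ℕ} {C₁ D₁ C₂ D₂ : Set (ℝ × ℝ)}
  {φ : ℝ → ℝ → ℝ × ℝ → ℝ × ℝ} {k : ℤ}

/-- the next point is unique: if `s < s'` then `φ a s z` is in the arc `q'` (`Ring.not_arc`) -/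
theorem Step.unique (h : Ring Y δ t₀ N C₁ D₁ C₂ D₂) {a : ℝ} {z : ℝ × ℝ} {q q' k₁ k₂ : ℤ}
    {s s' : ℝ} {R : Set (ℝ × ℝ)} (hs : Step Y t₀ N φ a q z s) (h1 : φ a s z ∈ Lst Y t₀ N R k₁)
    (hs' : Step Y t₀ N φ a q' z s') (h2 : φ a s' z ∈ Lst Y t₀ N R k₂) : s = s' := by
  rcases lt_trichotomy s s' with h3 | h3 | h3
  · exact absurd (hs'.2 s ⟨hs.1, h3⟩) (h.not_arc h1)
  · exact h3
  · exact absurd (hs.2 s' ⟨hs'.1, h3⟩) (h.not_arc h2)

/-- derivative of the determinant with a fixed vector -/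
theorem StepLem_deriv {g : ℝ → ℝ × ℝ} {g' : ℝ × ℝ} {t : ℝ} (hg : HasDerivAt g g' t)
    (e : ℝ × ℝ) : HasDerivAt (fun s => det2 (g s) e) (det2 g' e) t := by
  have h5 : HasDerivAt (fun s : ℝ => (g s).1) g'.1 t :=
    (ContinuousLinearMap.fst ℝ ℝ ℝ).hasFDerivAt.comp_hasDerivAt t hg
  have h6 : HasDerivAt (fun s : ℝ => (g s).2) g'.2 t :=
    (ContinuousLinearMap.snd ℝ ℝ ℝ).hasFDerivAt.comp_hasDerivAt t hg
  simp only [det2]
  exact (h5.mul_const e.2).sub (h6.mul_const e.1)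

/-- a direction with the two sign conditions is in the arc -/
theorem StepLem_dir {u : ℝ × ℝ} {c₀ c₁ : ℝ} (hc0 : c₀ ≤ c₁) (_hc : c₁ - c₀ ≤ 1)
    (h0 : det2 u (dirv c₀) < 0) (h1 : 0 < det2 u (dirv c₁)) :
    ∃ ρ α : ℝ, 0 < ρ ∧ α ∈ Set.Icc c₀ c₁ ∧ u = ρ • dirv α := by
  obtain ⟨α, hα⟩ := rb_exists_dir u
  have hu : u ≠ 0 := by
    rintro rfl
    simp [det2] at h0
  have hpos : 0 < nm u := nm_pos hu
  set β : ℝ := toIocMod Real.two_pi_pos (-Real.pi) (α - c₀) with hβ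
  have hβm := toIocMod_mem_Ioc Real.two_pi_pos (-Real.pi) (α - c₀)
  rw [← hβ] at hβm
  have hβe : β = (α - c₀) - (toIocDiv Real.two_pi_pos (-Real.pi) (α - c₀)) • (2 * Real.pi) := by
    rw [hβ]; rfl
  set m : ℤ := toIocDiv Real.two_pi_pos (-Real.pi) (α - c₀)
  have hαβ : α = c₀ + β + m * (2 * Real.pi) := by
    rw [hβe, zsmul_eq_mul]; ring
  have hdir : dirv α = dirv (c₀ + β) := by
    rw [hαβ]
    simp only [dirv]
    rw [Real.cos_add_int_mul_two_pi, Real.sin_add_int_mul_two_pi]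
  have h0' : Real.sin (-β) < 0 := by
    rw [hα, hdir, rb_det2_smul_left, rb_det2_dirv] at h0
    have h2 : c₀ - (c₀ + β) = -β := by ring
    rw [h2] at h0
    by_contra h3
    push Not at h3
    exact absurd h0 (not_lt.2 (mul_nonneg hpos.le h3))
  have h1' : 0 < Real.sin (c₁ - c₀ - β) := by
    rw [hα, hdir, rb_det2_smul_left, rb_det2_dirv] at h1
    have h2 : c₁ - (c₀ + β) = c₁ - c₀ - β := by ring
    rw [h2] at h1
    exact (mul_pos_iff_of_pos_left hpos).1 h1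
  have hβ0 : 0 < β := by
    by_contra h3
    push Not at h3
    rw [Real.sin_neg] at h0'
    have h4 : Real.sin β ≤ 0 := Real.sin_nonpos_of_nonpos_of_neg_pi_le h3 (by linarith [hβm.1])
    linarith
  have hβ1 : β < c₁ - c₀ := by
    by_contra h3
    push Not at h3
    have h4 : Real.sin (c₁ - c₀ - β) ≤ 0 :=
      Real.sin_nonpos_of_nonpos_of_neg_pi_le (by linarith) (by linarith [hβm.2])
    linarith
  refine ⟨nm u, c₀ + β, hpos, ⟨by linarith, by linarith⟩, ?_⟩
  rw [← hdir]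
  exact hα

theorem StepLem_gap (h : Ring Y δ t₀ N C₁ D₁ C₂ D₂) (q : ℤ) (a : ℝ) :
    angk t₀ N q + a ≤ angk t₀ N (q + 1) + a ∧
      (angk t₀ N (q + 1) + a) - (angk t₀ N q + a) ≤ 1 := by
  have h1 : (angk t₀ N (q + 1) + a) - (angk t₀ N q + a) = 2 * Real.pi / N := by
    simp only [angk]; push_cast; ring
  have h2 : 0 ≤ 2 * Real.pi / (N : ℝ) := by positivity
  have h3 := h.small
  have h4 := h.δle
  constructor
  · linarith
  · rw [h1]; linarith

/-- The displacement during a step is in the closed cone of the directions of the arc. Proof: for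
`t ∈ (0, s)` the velocity `v = turn a Y (φ a t z)` satisfies `det2 v (dirv (c_q + a)) ≤ 0` and
`0 ≤ det2 v (dirv (c_{q+1} + a))` (`det2_turn_dirv` in Rb/Move), and `0 < ` scalar product with
`dirv (c_q + a)`; integrate (monotonicity), so the displacement `u` satisfies the same; write
`u = nm u • dirv α` (`rb_exists_dir`) and choose `α` modulo `2π`. -/
theorem Step.edge (h : Ring Y δ t₀ N C₁ D₁ C₂ D₂) (hφ : Flw Y δ ((D₁ ∪ C₁) \ D₂) φ) {a : ℝ}
    (ha : a ∈ Set.Ioo 0 δ) {z : ℝ × ℝ} (hz : z ∈ (D₁ ∪ C₁) \ D₂) {q : ℤ} {s : ℝ}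
    (hs : Step Y t₀ N φ a q z s) {t t' : ℝ} (ht : 0 ≤ t) (htt' : t < t') (ht' : t' ≤ s) :
    ∃ ρ α : ℝ, 0 < ρ ∧ α ∈ Set.Icc (angk t₀ N q + a) (angk t₀ N (q + 1) + a) ∧
      φ a t' z - φ a t z = ρ • dirv α := by
  have hder : ∀ τ ∈ Set.Ioo t t', HasDerivAt (fun s => φ a s z) (turn a Y (φ a τ z)) τ :=
    fun τ hτ => hφ.deriv a ha z hz τ (ht.trans hτ.1.le)
  have hcont : Continuous fun s => φ a s z :=
    hφ.cont.comp (Continuous.prodMk continuous_const
      (Continuous.prodMk continuous_id continuous_const))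
  have hdc : ∀ e : ℝ × ℝ, Continuous fun s => det2 (φ a s z) e := by
    intro e
    exact rb_continuous_det2.comp (Continuous.prodMk hcont continuous_const)
  have harc : ∀ τ ∈ Set.Ioo t t', ArcAt Y t₀ N q (φ a τ z) :=
    fun τ hτ => hs.2 τ ⟨lt_of_le_of_lt ht hτ.1, lt_of_lt_of_le hτ.2 ht'⟩
  obtain ⟨hg1, hg2⟩ := StepLem_gap h q a
  apply StepLem_dir hg1 hg2
  · have h1 : StrictAntiOn (fun s => det2 (φ a s z) (dirv (angk t₀ N q + a))) (Set.Icc t t') := by
      apply strictAntiOn_of_deriv_neg (convex_Icc _ _) (hdc _).continuousOn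
      intro τ hτ
      rw [interior_Icc] at hτ
      rw [(StepLem_deriv (hder τ hτ) _).deriv, det2_turn_dirv]
      exact (harc τ hτ).1
    have h2 := h1 (Set.left_mem_Icc.2 htt'.le) (Set.right_mem_Icc.2 htt'.le) htt'
    simp only at h2
    rw [rb_det2_sub_left]
    linarith
  · have h1 : StrictMonoOn (fun s => det2 (φ a s z) (dirv (angk t₀ N (q + 1) + a)))
        (Set.Icc t t') := by
      apply strictMonoOn_of_deriv_pos (convex_Icc _ _) (hdc _).continuousOn
      intro τ hτ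
      rw [interior_Icc] at hτ
      rw [(StepLem_deriv (hder τ hτ) _).deriv, det2_turn_dirv]
      exact (harc τ hτ).2
    have h2 := h1 (Set.left_mem_Icc.2 htt'.le) (Set.right_mem_Icc.2 htt'.le) htt'
    simp only at h2
    rw [rb_det2_sub_left]
    linarith

/-- the scalar product with a unit vector is at most the norm -/
theorem StepLem_dot (u : ℝ × ℝ) (c : ℝ) :
    u.1 * Real.cos c + u.2 * Real.sin c ≤ nm u := by
  obtain ⟨α, hα⟩ := rb_exists_dir u
  have h0 := rb_nm_nonneg u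
  have h1 : u.1 = nm u * Real.cos α := by
    have := congrArg Prod.fst hα
    simpa [dirv] using this
  have h2 : u.2 = nm u * Real.sin α := by
    have := congrArg Prod.snd hα
    simpa [dirv] using this
  have h3 : u.1 * Real.cos c + u.2 * Real.sin c = nm u * Real.cos (α - c) := by
    rw [h1, h2, Real.cos_sub]
    rw [← h1, ← h2]
    rw [h1, h2]
    ring
  rw [h3]
  nlinarith [Real.cos_le_one (α - c)]

/-- During a step the distance from the starting point is at most twice the final one. Proof: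
`Step.edge` for `0, t` and for `t, s`; take scalar products with `dirv (c_q + a)`:
`nm (φ t - z) cos (2π/N) ≤ dot (φ t - z) ≤ dot (φ s - z) ≤ nm (φ s - z)`. -/
theorem Step.edge_le (h : Ring Y δ t₀ N C₁ D₁ C₂ D₂) (hφ : Flw Y δ ((D₁ ∪ C₁) \ D₂) φ) {a : ℝ}
    (ha : a ∈ Set.Ioo 0 δ) {z : ℝ × ℝ} (hz : z ∈ (D₁ ∪ C₁) \ D₂) {q : ℤ} {s : ℝ}
    (hs : Step Y t₀ N φ a q z s) {t : ℝ} (ht : t ∈ Set.Icc 0 s) :
    nm (φ a t z - z) ≤ 2 * nm (φ a s z - z) := by
  obtain ⟨hg1, hg2⟩ := StepLem_gap h q a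
  have hcos : ∀ α ∈ Set.Icc (angk t₀ N q + a) (angk t₀ N (q + 1) + a),
      1 / 2 ≤ Real.cos (α - (angk t₀ N q + a)) := by
    intro α hα
    have h1 : 0 ≤ α - (angk t₀ N q + a) := by linarith [hα.1]
    have h2 : α - (angk t₀ N q + a) ≤ 1 := by linarith [hα.2]
    have h3 := Real.one_sub_sq_div_two_le_cos (x := α - (angk t₀ N q + a))
    nlinarith
  have hn := rb_nm_nonneg (φ a s z - z)
  rcases ht.1.lt_or_eq with h0 | h0
  · rcases ht.2.lt_or_eq with h1 | h1
    · obtain ⟨ρ, α, hρ, hα, he⟩ := Step.edge h hφ ha hz hs le_rfl h0 ht.2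
      obtain ⟨ρ', α', hρ', hα', he'⟩ := Step.edge h hφ ha hz hs ht.1 h1 le_rfl
      rw [hφ.zero] at he
      set c : ℝ := angk t₀ N q + a with hc
      have h2 := StepLem_dot (φ a s z - z) c
      have h3 : φ a s z - z = ρ • dirv α + ρ' • dirv α' := by
        rw [← he, ← he']; abel
      have h4 : (φ a s z - z).1 * Real.cos c + (φ a s z - z).2 * Real.sin c =
          ρ * Real.cos (α - c) + ρ' * Real.cos (α' - c) := by
        rw [h3, Real.cos_sub, Real.cos_sub]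
        simp only [dirv, Prod.fst_add, Prod.snd_add, Prod.smul_fst, Prod.smul_snd, smul_eq_mul]
        ring
      have h5 := hcos α hα
      have h6 := hcos α' hα'
      have h7 : nm (φ a t z - z) = ρ := by
        rw [he, rb_nm_smul, rb_nm_dirv, abs_of_pos hρ, mul_one]
      rw [h7]
      nlinarith
    · rw [h1]; linarith
  · rw [← h0, hφ.zero, sub_self, rb_nm_zero]
    linarith

end Pool.Agent.Lib.MP_95e7ec_an
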