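import Mathlib
import Pool.Agent.Lib.MP_95e7ec_an.Rc.RingLem

/-!
# Rc, StrandC: chords of strands
-/

set_option autoImplicit false

open Set Filter Topology MeasureTheory
open scoped ContDiff ENNReal

namespace Pool.Agent.Lib.MP_95e7ec_an

variable {Y : ℝ × ℝ → ℝ × ℝ} {δ t₀ : ℝ} {N : ℕ} {C₁ D₁ C₂ D₂ : Set (ℝ × ℝ)} {k : ℤ}
  {Γ : ℝ → ℝ × ℝ → ℝ × ℝ}

private theorem StrandC_hasDeriv {f : ℝ → ℝ × ℝ} {g z : ℝ × ℝ} {t b : ℝ}
    (hf : HasDerivAt f g t) :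
    HasDerivAt (fun s => det2 (f s - z) (dirv b)) (det2 g (dirv b)) t := by
  have h1 : HasDerivAt (fun s => (f s).1) g.1 t := hf.fst
  have h2 : HasDerivAt (fun s => (f s).2) g.2 t := hf.snd
  have h3 := ((h1.sub_const z.1).mul_const (dirv b).2).sub
    ((h2.sub_const z.2).mul_const (dirv b).1)
  exact h3

private theorem StrandC_cont {f : ℝ → ℝ × ℝ} (hf : Continuous f) (z : ℝ × ℝ) (b : ℝ) :
    Continuous (fun s => det2 (f s - z) (dirv b)) := by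
  unfold det2
  fun_prop

private theorem StrandC_contΓ {c : ℝ} {L : Set (ℝ × ℝ)} (hΓ : Strd Y c L Γ) (z : ℝ × ℝ) :
    Continuous (fun s => Γ s z) :=
  hΓ.cont.comp (Continuous.prodMk continuous_id continuous_const)

/-- The chord of a piece of a strand is in the open cone (integrate `Ring.tangent`). -/
theorem Strd.cone (h : Ring Y δ t₀ N C₁ D₁ C₂ D₂)
    (hΓ : Strd Y (angk t₀ N k) (Lst Y t₀ N ((D₁ ∪ C₁) \ D₂) k) Γ) {z : ℝ × ℝ} {T : ℝ}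
    (hT : 0 < T) (hs : Seg Γ (Lst Y t₀ N ((D₁ ∪ C₁) \ D₂) k) z T) {a : ℝ}
    (ha : a ∈ Set.Icc 0 δ) : 0 < det2 (Γ T z - z) (dirv (angk t₀ N k + a)) := by
  have hmono : StrictMonoOn (fun s => det2 (Γ s z - z) (dirv (angk t₀ N k + a))) (Icc 0 T) := by
    apply strictMonoOn_of_deriv_pos (convex_Icc 0 T)
      (StrandC_cont (StrandC_contΓ hΓ z) z _).continuousOn
    intro t ht
    rw [interior_Icc] at ht
    have hmem : Γ t z ∈ Lst Y t₀ N ((D₁ ∪ C₁) \ D₂) k :=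
      hs t (by rw [uIcc_of_le hT.le]; exact Ioo_subset_Icc_self ht)
    obtain ⟨g, hg, hg1, hg2⟩ := hΓ.deriv t z hmem
    rw [(StrandC_hasDeriv (z := z) (b := angk t₀ N k + a) hg).deriv]
    exact h.tangent hmem hg1 hg2 ha
  have h1 := hmono (left_mem_Icc.2 hT.le) (right_mem_Icc.2 hT.le) hT
  simp only [hΓ.zero, sub_self] at h1
  have h2 : det2 (0 : ℝ × ℝ) (dirv (angk t₀ N k + a)) = 0 := by simp [det2]
  rwa [h2] at h1

/-- The direction of a vector of the open cone. Proof: `rb_exists_dir`, `rb_det2_dirv`: one has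
`sin (c - φ) > 0` and `sin (c + δ - φ) > 0`; choose `φ` modulo `2π` in `(c - π, c)`; then
`c + δ - φ ∈ (0, π + δ)` and the second inequality gives `< π`. -/
theorem exists_cone_angle {δ c : ℝ} (hδ : 0 < δ) (hδ1 : δ ≤ 1) {u : ℝ × ℝ}
    (h0 : 0 < det2 u (dirv c)) (h1 : 0 < det2 u (dirv (c + δ))) :
    ∃ ρ φ : ℝ, 0 < ρ ∧ φ ∈ Set.Ioo (c + δ - Real.pi) c ∧ u = ρ • dirv φ ∧ ρ = nm u := by
  have hu : u ≠ 0 := by
    rintro rfl
    simp [det2] at h0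
  obtain ⟨φ₀, hφ⟩ := rb_exists_dir u
  have hnm : 0 < nm u := nm_pos hu
  have hpi := Real.pi_pos
  have h2pi : 0 < 2 * Real.pi := by linarith
  set x : ℝ := c - φ₀ with hx
  set m : ℤ := ⌊x / (2 * Real.pi)⌋ with hm
  set y : ℝ := x - m * (2 * Real.pi) with hy
  have hy0 : 0 ≤ y := by
    have := Int.floor_le (x / (2 * Real.pi))
    rw [le_div_iff₀ h2pi] at this
    rw [hy]; linarith
  have hy1 : y < 2 * Real.pi := by
    have := Int.lt_floor_add_one (x / (2 * Real.pi))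
    rw [div_lt_iff₀ h2pi] at this
    rw [hy]; rw [← hm] at this; linarith
  have e0 : det2 u (dirv c) = nm u * Real.sin y := by
    conv_lhs => rw [hφ]
    rw [rb_det2_smul_left, rb_det2_dirv, ← hx, hy, Real.sin_sub_int_mul_two_pi]
  have e1 : det2 u (dirv (c + δ)) = nm u * Real.sin (y + δ) := by
    conv_lhs => rw [hφ]
    rw [rb_det2_smul_left, rb_det2_dirv]
    have : y + δ = (c + δ - φ₀) - m * (2 * Real.pi) := by rw [hy, hx]; ring
    rw [this, Real.sin_sub_int_mul_two_pi]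
  rw [e0] at h0
  rw [e1] at h1
  have s0 : 0 < Real.sin y := (pos_iff_pos_of_mul_pos h0).1 hnm
  have s1 : 0 < Real.sin (y + δ) := (pos_iff_pos_of_mul_pos h1).1 hnm
  have hy0' : 0 < y := by
    rcases hy0.lt_or_eq with h | h
    · exact h
    · rw [← h, Real.sin_zero] at s0; exact absurd s0 (lt_irrefl 0)
  have hneg : ∀ w : ℝ, Real.pi ≤ w → w ≤ 2 * Real.pi → Real.sin w ≤ 0 := by
    intro w hw1 hw2
    have h3 : 0 ≤ Real.sin (w - Real.pi) :=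
      Real.sin_nonneg_of_nonneg_of_le_pi (by linarith) (by linarith)
    rw [Real.sin_sub_pi] at h3
    linarith
  have hypi : y < Real.pi := by
    by_contra hcon
    push Not at hcon
    linarith [hneg y hcon hy1.le]
  have hypi2 : y + δ < Real.pi := by
    by_contra hcon
    push Not at hcon
    have h3 := Real.pi_gt_three
    linarith [hneg (y + δ) hcon (by linarith)]
  refine ⟨nm u, c - y, hnm, ⟨by linarith, by linarith⟩, ?_, rfl⟩
  have h4 : dirv (c - y) = dirv φ₀ := by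
    have h5 : c - y = φ₀ + m * (2 * Real.pi) := by rw [hy, hx]; ring
    rw [h5]
    simp only [dirv, Real.cos_add_int_mul_two_pi, Real.sin_add_int_mul_two_pi]
  rw [h4]
  exact hφ

/-- Rolle's theorem on a strand: between two chords with different directions there is a point
with the tangent direction `ψ`, for every `ψ` between. Proof: `g t = det2 (Γ t z - z) (dirv ψ)` is
differentiable on `[0, T]` with `g 0 = 0`; `g t₁ = ρ₁ sin (ψ - φ₁)` and `g t₂ = ρ₂ sin (ψ - φ₂)` have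
opposite signs, so `g` has a zero `t₃` between `t₁` and `t₂`, and `g' t₄ = 0` for some `t₄ ∈ (0, t₃)`. The
tangent vector at `t₄` is a nonzero multiple of `dirv ψ` (`rb_parallel`), so
`det2 (DY (dirv ψ)) (dirv c) = 0` there, and `Y` is a multiple of `dirv c`. -/
theorem Strd.rolle (h : Ring Y δ t₀ N C₁ D₁ C₂ D₂)
    (hΓ : Strd Y (angk t₀ N k) (Lst Y t₀ N ((D₁ ∪ C₁) \ D₂) k) Γ) {z : ℝ × ℝ}
    {T t₁ t₂ φ₁ φ₂ ρ₁ ρ₂ ψ : ℝ} (hs : Seg Γ (Lst Y t₀ N ((D₁ ∪ C₁) \ D₂) k) z T)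
    (ht₁ : t₁ ∈ Set.Ioc 0 T) (ht₂ : t₂ ∈ Set.Ioc 0 T) (hρ₁ : 0 < ρ₁) (hρ₂ : 0 < ρ₂)
    (h₁ : Γ t₁ z - z = ρ₁ • dirv φ₁) (h₂ : Γ t₂ z - z = ρ₂ • dirv φ₂)
    (hφ₁ : φ₁ ∈ Set.Ioo (angk t₀ N k + δ - Real.pi) (angk t₀ N k))
    (hφ₂ : φ₂ ∈ Set.Ioo (angk t₀ N k + δ - Real.pi) (angk t₀ N k))
    (hψ : ψ ∈ Set.Ioo (min φ₁ φ₂) (max φ₁ φ₂)) :
    ∃ t ∈ Set.Ioo 0 T, det2 (fderiv ℝ Y (Γ t z) (dirv ψ)) (Y (Γ t z)) = 0 := by
  have hδ := h.δpos
  have hpi := Real.pi_pos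
  have hTpos : 0 < T := lt_of_lt_of_le ht₁.1 ht₁.2
  set g : ℝ → ℝ := fun s => det2 (Γ s z - z) (dirv ψ) with hg
  have hgc : Continuous g := StrandC_cont (StrandC_contΓ hΓ z) z ψ
  have g0 : g 0 = 0 := by
    simp only [hg, hΓ.zero, sub_self]
    simp [det2]
  have g1 : g t₁ = ρ₁ * Real.sin (ψ - φ₁) := by
    simp only [hg]
    rw [h₁, rb_det2_smul_left, rb_det2_dirv]
  have g2 : g t₂ = ρ₂ * Real.sin (ψ - φ₂) := by
    simp only [hg]
    rw [h₂, rb_det2_smul_left, rb_det2_dirv]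
  -- a zero `t₃` in `(0, T)`
  have hpos : ∀ φ φ' : ℝ, φ ∈ Set.Ioo (angk t₀ N k + δ - Real.pi) (angk t₀ N k) →
      φ' ∈ Set.Ioo (angk t₀ N k + δ - Real.pi) (angk t₀ N k) → φ < ψ → ψ < φ' →
      0 < Real.sin (ψ - φ) ∧ Real.sin (ψ - φ') < 0 := by
    intro φ φ' hφ hφ' hl hr
    obtain ⟨p1, p2⟩ := hφ
    obtain ⟨p3, p4⟩ := hφ'
    exact ⟨Real.sin_pos_of_pos_of_lt_pi (by linarith) (by linarith),
      Real.sin_neg_of_neg_of_neg_pi_lt (by linarith) (by linarith)⟩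
  have hsign : g t₁ * g t₂ < 0 := by
    rcases le_total φ₁ φ₂ with hle | hle
    · rw [min_eq_left hle, max_eq_right hle] at hψ
      obtain ⟨p, q⟩ := hpos φ₁ φ₂ hφ₁ hφ₂ hψ.1 hψ.2
      rw [g1, g2]
      exact mul_neg_of_pos_of_neg (mul_pos hρ₁ p) (mul_neg_of_pos_of_neg hρ₂ q)
    · rw [min_eq_right hle, max_eq_left hle] at hψ
      obtain ⟨p, q⟩ := hpos φ₂ φ₁ hφ₂ hφ₁ hψ.1 hψ.2
      rw [g1, g2]
      exact mul_neg_of_neg_of_pos (mul_neg_of_pos_of_neg hρ₁ q) (mul_pos hρ₂ p)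
  have h3 : ∃ t₃ ∈ Ioo (0 : ℝ) T, g t₃ = 0 := by
    have hz : (0 : ℝ) ∈ uIcc (g t₁) (g t₂) := by
      rw [mem_uIcc]
      rcases mul_neg_iff.1 hsign with ⟨a, b⟩ | ⟨a, b⟩
      · exact Or.inr ⟨b.le, a.le⟩
      · exact Or.inl ⟨a.le, b.le⟩
    obtain ⟨t₃, ht3, hg3⟩ := intermediate_value_uIcc (a := t₁) (b := t₂) hgc.continuousOn hz
    have hne1 : t₃ ≠ t₁ := by
      rintro rfl
      rw [hg3, zero_mul] at hsign
      exact lt_irrefl _ hsign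
    have hne2 : t₃ ≠ t₂ := by
      rintro rfl
      rw [hg3, mul_zero] at hsign
      exact lt_irrefl _ hsign
    refine ⟨t₃, ⟨?_, ?_⟩, hg3⟩
    · rcases mem_uIcc.1 ht3 with ⟨a, b⟩ | ⟨a, b⟩
      · linarith [ht₁.1]
      · linarith [ht₂.1]
    · rcases mem_uIcc.1 ht3 with ⟨a, b⟩ | ⟨a, b⟩
      · exact lt_of_lt_of_le (lt_of_le_of_ne b hne2) ht₂.2
      · exact lt_of_lt_of_le (lt_of_le_of_ne b hne1) ht₁.2
  obtain ⟨t₃, ⟨ht30, ht3T⟩, hg3⟩ := h3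
  obtain ⟨t, ht, hdt⟩ := exists_deriv_eq_zero ht30 hgc.continuousOn (g0.trans hg3.symm)
  have hmem : Γ t z ∈ Lst Y t₀ N ((D₁ ∪ C₁) \ D₂) k :=
    hs t (by rw [uIcc_of_le hTpos.le]; exact ⟨ht.1.le, (ht.2.trans ht3T).le⟩)
  obtain ⟨v, hv, hv1, hv2⟩ := hΓ.deriv t z hmem
  have hdv : det2 v (dirv ψ) = 0 := by
    rw [← (StrandC_hasDeriv (z := z) (b := ψ) hv).deriv]
    exact hdt
  have hvp := rb_parallel hdv
  set s : ℝ := v.1 * Real.cos ψ + v.2 * Real.sin ψ with hsdef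
  have hs0 : s ≠ 0 := by
    intro h0
    rw [h0, zero_smul] at hvp
    rw [hvp] at hv1
    simp [det2] at hv1
  have hlin : fderiv ℝ Y (Γ t z) v = s • fderiv ℝ Y (Γ t z) (dirv ψ) := by
    conv_lhs => rw [hvp]
    rw [map_smul]
  rw [hlin, rb_det2_smul_left] at hv2
  have hfin := (mul_eq_zero.1 hv2).resolve_left hs0
  obtain ⟨-, ρ, hρ, hY⟩ := hmem
  refine ⟨t, ⟨ht.1, ht.2.trans ht3T⟩, ?_⟩
  rw [hY, rb_det2_smul_right, hfin, mul_zero]

end Pool.Agent.Lib.MP_95e7ec_an
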