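import Mathlib
import Pool.Agent.Lib.MP_95e7ec_an.Rc.RingLem

/-!
# Rc, StrandA: strands, height and paths
-/

set_option autoImplicit false

open Set Filter Topology MeasureTheory
open scoped ContDiff ENNReal

namespace Pool.Agent.Lib.MP_95e7ec_an

variable {Y : ℝ × ℝ → ℝ × ℝ} {δ t₀ : ℝ} {N : ℕ} {C₁ D₁ C₂ D₂ : Set (ℝ × ℝ)} {k : ℤ}
  {Γ : ℝ → ℝ × ℝ → ℝ × ℝ}

/-- Along a piece of a strand the height `det2 (·) (dirv c)` increases with speed `1`
(integrate `Strd.deriv`: `det2 g (dirv c) = 1`). -/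
theorem Strd.height (hΓ : Strd Y (angk t₀ N k) (Lst Y t₀ N ((D₁ ∪ C₁) \ D₂) k) Γ) {z : ℝ × ℝ}
    {T : ℝ} (hs : Seg Γ (Lst Y t₀ N ((D₁ ∪ C₁) \ D₂) k) z T) :
    det2 (Γ T z) (dirv (angk t₀ N k)) = det2 z (dirv (angk t₀ N k)) + T := by
  set c := angk t₀ N k with hc
  have hder : ∀ t ∈ Set.uIcc 0 T,
      HasDerivWithinAt (fun s => det2 (Γ s z) (dirv c) - s) 0 (Set.uIcc 0 T) t := by
    intro t ht
    obtain ⟨g, hg, hg1, -⟩ := hΓ.deriv t z (hs t ht)
    have h1 : HasDerivAt (fun s => (Γ s z).1) g.1 t := hg.fst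
    have h2 : HasDerivAt (fun s => (Γ s z).2) g.2 t := hg.snd
    have h3 : HasDerivAt (fun s => det2 (Γ s z) (dirv c) - s) (det2 g (dirv c) - 1) t := by
      have h4 := ((h1.mul_const (dirv c).2).sub (h2.mul_const (dirv c).1)).sub (hasDerivAt_id t)
      exact h4
    rw [hg1, sub_self] at h3
    exact h3.hasDerivWithinAt
  have key := Convex.norm_image_sub_le_of_norm_hasDerivWithin_le (C := 0) hder
    (fun x _ => by simp) (convex_uIcc 0 T) Set.left_mem_uIcc Set.right_mem_uIcc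
  rw [zero_mul] at key
  have h5 := norm_le_zero_iff.1 key
  simp only [hΓ.zero, sub_zero] at h5
  linarith

/-- A path in `Lst k` stays on one strand. Proof: let `κ` be the path, `u = det2 (·) (dirv c)`, `τ`
fixed, `s τ' = u (κ τ') - u (κ τ)`. The set of the `τ' ∈ [α, β]` with `Γ (s τ') (κ τ) = κ τ'` contains
`τ`, it is closed in `[α, β]` by continuity, and open: if it contains `τ₁` then for `τ'` near `τ₁` the points
`κ τ'` and `Γ (s τ') (κ τ)` are both close to `κ τ₁ ∈ Lst k`, both zeros of `det2 (Y ·) (dirv c)`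
(`Strd.level`) and of the same height (`Strd.level`), so they are equal by `Ring.loc_inj`. By
connectedness it is everything (`IsPreconnected`, or sup argument). For the segment: every `t` between
`0` and `s τ'` is `s τ''` for some `τ''` between `τ` and `τ'` (intermediate value theorem). -/
theorem Strd.path (h : Ring Y δ t₀ N C₁ D₁ C₂ D₂)
    (hΓ : Strd Y (angk t₀ N k) (Lst Y t₀ N ((D₁ ∪ C₁) \ D₂) k) Γ) {κ : ℝ → ℝ × ℝ} {α β : ℝ}
    (hκ : ContinuousOn κ (Set.Icc α β))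
    (hκL : ∀ τ ∈ Set.Icc α β, κ τ ∈ Lst Y t₀ N ((D₁ ∪ C₁) \ D₂) k) {τ τ' : ℝ}
    (hτ : τ ∈ Set.Icc α β) (hτ' : τ' ∈ Set.Icc α β) :
    Γ (det2 (κ τ') (dirv (angk t₀ N k)) - det2 (κ τ) (dirv (angk t₀ N k))) (κ τ) = κ τ' ∧
      Seg Γ (Lst Y t₀ N ((D₁ ∪ C₁) \ D₂) k) (κ τ)
        (det2 (κ τ') (dirv (angk t₀ N k)) - det2 (κ τ) (dirv (angk t₀ N k))) := by
  set c := angk t₀ N k with hc
  have hdc : Continuous fun w : ℝ × ℝ => det2 w (dirv c) := by
    unfold det2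
    fun_prop
  set u : ℝ → ℝ := fun x => det2 (κ x) (dirv c) - det2 (κ τ) (dirv c) with hu
  have hucont : ContinuousOn u (Set.Icc α β) := (hdc.comp_continuousOn hκ).sub continuousOn_const
  have hκr : Continuous (fun x : Set.Icc α β => κ x) := continuousOn_iff_continuous_domRestrict.1 hκ
  have hur : Continuous (fun x : Set.Icc α β => u x) :=
    continuousOn_iff_continuous_domRestrict.1 hucont
  have hGr : Continuous (fun x : Set.Icc α β => Γ (u x) (κ τ)) :=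
    hΓ.cont.comp (hur.prodMk continuous_const)
  have hzero : ∀ x ∈ Set.Icc α β, det2 (Y (κ x)) (dirv c) = 0 := by
    intro x hx
    obtain ⟨-, ρ, -, h2⟩ := hκL x hx
    rw [h2, rb_det2_smul_left, ← hc, rb_det2_self, mul_zero]
  have hall : ∀ x ∈ Set.Icc α β, Γ (u x) (κ τ) = κ x := by
    have hclopen : IsClopen {x : Set.Icc α β | Γ (u x) (κ τ) = κ x} := by
      refine ⟨isClosed_eq hGr hκr, ?_⟩
      rw [isOpen_iff_mem_nhds]
      intro x₁ hx₁
      have hx₁' : Γ (u x₁) (κ τ) = κ x₁ := hx₁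
      have hL : κ x₁ ∈ Lst Y t₀ N ((D₁ ∪ C₁) \ D₂) k := hκL x₁ x₁.2
      obtain ⟨U, hU, hinj⟩ := h.loc_inj hL
      have hlev := hΓ.level (u x₁) (κ τ) (by rw [hx₁']; exact hL)
      have e1 := (hur.continuousAt (x := x₁)).eventually hlev
      have e2 : ∀ᶠ x : Set.Icc α β in 𝓝 x₁, κ x ∈ U := (hκr.continuousAt (x := x₁)).eventually hU
      have e3 : ∀ᶠ x : Set.Icc α β in 𝓝 x₁, Γ (u x) (κ τ) ∈ U := by
        have : U ∈ 𝓝 (Γ (u x₁) (κ τ)) := by rw [hx₁']; exact hU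
        exact (hGr.continuousAt (x := x₁)).eventually this
      filter_upwards [e1, e2, e3] with x h1 h2 h3
      refine hinj _ h3 _ h2 h1.1 (hzero x x.2) ?_
      rw [h1.2, hx₁', hu]
      ring
    have : PreconnectedSpace (Set.Icc α β) := Subtype.preconnectedSpace isPreconnected_Icc
    have huniv := hclopen.eq_univ ⟨⟨τ, hτ⟩, by
      show Γ (u τ) (κ τ) = κ τ
      rw [hu]
      simp only [sub_self]
      exact hΓ.zero _⟩
    intro x hx
    have : (⟨x, hx⟩ : Set.Icc α β) ∈ {x : Set.Icc α β | Γ (u x) (κ τ) = κ x} := by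
      rw [huniv]; trivial
    exact this
  refine ⟨hall τ' hτ', ?_⟩
  intro t ht
  have hsub : Set.uIcc τ τ' ⊆ Set.Icc α β := Set.uIcc_subset_Icc hτ hτ'
  have hiv := intermediate_value_uIcc (hucont.mono hsub)
  have hu0 : u τ = 0 := by rw [hu]; exact sub_self _
  rw [hu0] at hiv
  obtain ⟨x, hx, hxt⟩ := hiv ht
  rw [← hxt, hall x (hsub hx)]
  exact hκL x (hsub hx)

end Pool.Agent.Lib.MP_95e7ec_an
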