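import Mathlib
import Pool.Agent.Lib.MP_95e7ec_an.Rc.StrandA

/-!
# Rc, StrandB: strands and leaves
-/

set_option autoImplicit false

open Set Filter Topology MeasureTheory
open scoped ContDiff ENNReal

namespace Pool.Agent.Lib.MP_95e7ec_an

variable {Y : ℝ × ℝ → ℝ × ℝ} {δ t₀ : ℝ} {N : ℕ} {C₁ D₁ C₂ D₂ : Set (ℝ × ℝ)} {k : ℤ}
  {Γ : ℝ → ℝ × ℝ → ℝ × ℝ}

/-- first order expansion of a path in both directions -/
theorem StrandB_deriv {x : ℝ → ℝ × ℝ} {g : ℝ × ℝ} {τ : ℝ} (hx : HasDerivAt x g τ) {η : ℝ}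
    (hη : 0 < η) : ∀ᶠ ε in 𝓝[>] (0 : ℝ), nm (x (τ + ε) - x τ - ε • g) ≤ η * ε ∧
      nm (x (τ - ε) - x τ - ε • (-g)) ≤ η * ε := by
  have h1 := hasDerivAt_iff_isLittleO_nhds_zero.1 hx
  have h2 := Asymptotics.isLittleO_iff.1 h1 (half_pos hη)
  have t1 : Tendsto (fun ε : ℝ => ε) (𝓝[>] (0 : ℝ)) (𝓝 0) := nhdsWithin_le_nhds
  have t2 : Tendsto (fun ε : ℝ => -ε) (𝓝[>] (0 : ℝ)) (𝓝 0) := by
    have h3 : Tendsto (fun ε : ℝ => -ε) (𝓝 (0 : ℝ)) (𝓝 (-0)) := (continuous_neg).tendsto 0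
    rw [neg_zero] at h3
    exact h3.mono_left nhdsWithin_le_nhds
  filter_upwards [t1.eventually h2, t2.eventually h2, self_mem_nhdsWithin] with ε h3 h4 hε
  have hε : 0 < ε := hε
  rw [Real.norm_eq_abs, abs_of_pos hε] at h3
  rw [Real.norm_eq_abs, abs_neg, abs_of_pos hε] at h4
  constructor
  · have h5 := rb_nm_le_norm (x (τ + ε) - x τ - ε • g)
    linarith
  · have h5 := rb_nm_le_norm (x (τ - ε) - x τ - ε • (-g))
    have h6 : x (τ - ε) - x τ - ε • (-g) = x (τ + -ε) - x τ - -ε • g := by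
      rw [smul_neg, neg_smul, sub_eq_add_neg τ ε]
    rw [h6] at h5 ⊢
    linarith

/-- At a point of a leaf the strand goes out forwards and comes from inside. -/
theorem StrandB_loc (h : Ring Y δ t₀ N C₁ D₁ C₂ D₂)
    (hΓ : Strd Y (angk t₀ N k) (Lst Y t₀ N ((D₁ ∪ C₁) \ D₂) k) Γ) {a : ℝ}
    (ha : a ∈ Set.Icc 0 δ) {C D : Set (ℝ × ℝ)} (hL : Leaf Y a C D) {z : ℝ × ℝ} {τ : ℝ}
    (hz : Γ τ z ∈ C) (hl : Γ τ z ∈ Lst Y t₀ N ((D₁ ∪ C₁) \ D₂) k) :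
    ∀ᶠ ε in 𝓝[>] (0 : ℝ), Γ (τ + ε) z ∉ D ∪ C ∧ Γ (τ - ε) z ∈ D := by
  obtain ⟨g, hg, hg1, hg0⟩ := hΓ.deriv τ z hl
  have htan := h.tangent hl hg1 hg0 ha
  obtain ⟨ρ, hρ, hY⟩ := hl.2
  obtain ⟨hturn, -⟩ := cur_of_dir (ψ := a) hY
  have hpos : 0 < det2 g (turn a Y (Γ τ z)) := by
    rw [hturn, rb_det2_smul_right]
    exact mul_pos hρ htan
  have hneg : det2 (-g) (turn a Y (Γ τ z)) < 0 := by
    have h1 : det2 (-g) (turn a Y (Γ τ z)) = -det2 g (turn a Y (Γ τ z)) := by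
      simp only [det2, Prod.fst_neg, Prod.snd_neg]
      ring
    rw [h1]
    linarith
  obtain ⟨η₁, hη₁, e₁⟩ := hL.side.out hz hpos
  obtain ⟨η₂, hη₂, e₂⟩ := hL.side.into hz hneg
  filter_upwards [e₁, e₂, StrandB_deriv hg hη₁, StrandB_deriv hg hη₂] with ε f₁ f₂ f₃ f₄
  exact ⟨f₁ _ f₃.1, f₂ _ f₄.2⟩

/-- shifting a segment -/
theorem StrandB_shift {L : Set (ℝ × ℝ)} {c : ℝ} (hΓ : Strd Y c L Γ) {z : ℝ × ℝ} {T t : ℝ}
    (hs : Seg Γ L z T) (ht : t ∈ Set.uIcc 0 T) : Seg Γ L (Γ t z) (T - t) := by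
  intro u hu
  rw [← hΓ.add]
  apply hs
  rw [Set.mem_uIcc] at hu ht ⊢
  rcases hu with ⟨h1, h2⟩ | ⟨h1, h2⟩ <;> rcases ht with ⟨h3, h4⟩ | ⟨h3, h4⟩
  · left; constructor <;> linarith
  · right; constructor <;> linarith
  · left; constructor <;> linarith
  · right; constructor <;> linarith

/-- going back to the starting point -/
theorem StrandB_back {L : Set (ℝ × ℝ)} {c : ℝ} (hΓ : Strd Y c L Γ) {z : ℝ × ℝ} {T : ℝ}
    (hs : Seg Γ L z T) : Seg Γ L (Γ T z) (-T) ∧ Γ (-T) (Γ T z) = z := by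
  constructor
  · intro u hu
    rw [← hΓ.add]
    apply hs
    rw [Set.mem_uIcc] at hu ⊢
    rcases hu with ⟨h1, h2⟩ | ⟨h1, h2⟩
    · right; constructor <;> linarith
    · left; constructor <;> linarith
  · rw [← hΓ.add, neg_add_cancel, hΓ.zero]

/-- A strand which starts on a leaf leaves its filled region for ever. Proof: at a point `p` of `C` in
`Lst k`, `turn a Y p = ρ dirv (c + a)` (`cur_of_dir`), the tangent vector `g` of the strand satisfies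
`det2 g (dirv (c + a)) > 0` (`Ring.tangent`): `Side.out` forwards, `Side.into` backwards. If
`Γ t z ∈ D ∪ C` for some `t ∈ (0, T]`, take the least such `t* ≥ ε` (closed set; small `t > 0` are
outside). `Γ t* z ∈ D` is impossible (`D` open), and if `Γ t* z ∈ C` then `Γ t z ∈ D` for `t < t*`
close to `t*`. -/
theorem Strd.cross (h : Ring Y δ t₀ N C₁ D₁ C₂ D₂)
    (hΓ : Strd Y (angk t₀ N k) (Lst Y t₀ N ((D₁ ∪ C₁) \ D₂) k) Γ) {a : ℝ}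
    (ha : a ∈ Set.Icc 0 δ) {C D : Set (ℝ × ℝ)} (hL : Leaf Y a C D) {z : ℝ × ℝ} (hz : z ∈ C)
    {T : ℝ} (hs : Seg Γ (Lst Y t₀ N ((D₁ ∪ C₁) \ D₂) k) z T) :
    ∀ t ∈ Set.Ioc 0 T, Γ t z ∉ D ∪ C := by
  intro t₁ ht₁ hbad
  have hc : Continuous fun τ => Γ τ z := hΓ.cont.comp (by fun_prop : Continuous fun τ : ℝ => (τ, z))
  have hz0 : Γ 0 z ∈ C := by rw [hΓ.zero]; exact hz
  have hmem : ∀ τ, 0 ≤ τ → τ ≤ T → Γ τ z ∈ Lst Y t₀ N ((D₁ ∪ C₁) \ D₂) k := fun τ h1 h2 =>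
    hs τ (Set.mem_uIcc.2 (Or.inl ⟨h1, h2⟩))
  have hT0 : 0 < T := lt_of_lt_of_le ht₁.1 ht₁.2
  have e0 := StrandB_loc h hΓ ha hL hz0 (hmem 0 le_rfl hT0.le)
  have e1 : ∀ᶠ ε in 𝓝[>] (0 : ℝ), ε ∈ Set.Ioo 0 t₁ := Ioo_mem_nhdsGT ht₁.1
  obtain ⟨e, ⟨he1, -⟩, he2⟩ := (e0.and e1).exists
  rw [zero_add] at he1
  have hcl : IsClosed (D ∪ C) := hL.jp.cpt.isClosed
  have hB : IsCompact (Set.Icc e t₁ ∩ (fun τ => Γ τ z) ⁻¹' (D ∪ C)) :=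
    isCompact_Icc.inter_right (hcl.preimage hc)
  obtain ⟨t', ⟨ht'1, ht'2⟩, hmin⟩ := hB.exists_isLeast ⟨t₁, ⟨he2.2.le, le_rfl⟩, hbad⟩
  have ht'e : e < t' := by
    rcases ht'1.1.lt_or_eq with h1 | h1
    · exact h1
    · exact absurd (h1 ▸ ht'2) he1
  have hno : ∀ τ, e ≤ τ → τ < t' → Γ τ z ∉ D ∪ C := fun τ h1 h2 h3 =>
    absurd (hmin ⟨⟨h1, h2.le.trans ht'1.2⟩, h3⟩) (not_le.2 h2)
  have e2 : ∀ᶠ ε in 𝓝[>] (0 : ℝ), ε ∈ Set.Ioo 0 (t' - e) := Ioo_mem_nhdsGT (by linarith)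
  have e3 : ∀ᶠ ε in 𝓝[>] (0 : ℝ), Γ (t' - ε) z ∈ D := by
    rcases ht'2 with h1 | h1
    · have h2 : ContinuousAt (fun ε : ℝ => Γ (t' - ε) z) 0 :=
        (hc.comp (continuous_const.sub continuous_id)).continuousAt
      have h3 : ∀ᶠ ε in 𝓝 (0 : ℝ), Γ (t' - ε) z ∈ D := by
        apply h2.eventually_mem
        apply hL.jp.op.mem_nhds
        simpa using h1
      exact h3.filter_mono nhdsWithin_le_nhds
    · have h2 := StrandB_loc h hΓ ha hL h1 (hmem t' (by linarith [he2.1]) (by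
        linarith [ht'1.2, ht₁.2]))
      exact h2.mono fun ε h3 => h3.2
  obtain ⟨ε, h1, h2⟩ := (e2.and e3).exists
  exact hno (t' - ε) (by linarith [h1.2]) (by linarith [h1.1]) (Or.inl h2)

/-- Two points of a leaf on the same strand coincide (`Strd.cross`, for `T < 0` exchange the points
with `Strd.add`). -/
theorem Strd.unique (h : Ring Y δ t₀ N C₁ D₁ C₂ D₂)
    (hΓ : Strd Y (angk t₀ N k) (Lst Y t₀ N ((D₁ ∪ C₁) \ D₂) k) Γ) {a : ℝ}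
    (ha : a ∈ Set.Icc 0 δ) {C D : Set (ℝ × ℝ)} (hL : Leaf Y a C D) {z : ℝ × ℝ} (hz : z ∈ C)
    {T : ℝ} (hs : Seg Γ (Lst Y t₀ N ((D₁ ∪ C₁) \ D₂) k) z T) (hT : Γ T z ∈ C) :
    T = 0 ∧ Γ T z = z := by
  rcases lt_trichotomy T 0 with h1 | h1 | h1
  · exfalso
    obtain ⟨h2, h3⟩ := StrandB_back hΓ hs
    have h4 := Strd.cross h hΓ ha hL hT h2 (-T) ⟨by linarith, le_rfl⟩
    rw [h3] at h4
    exact h4 (Or.inr hz)
  · subst h1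
    exact ⟨rfl, hΓ.zero z⟩
  · exact absurd (Or.inr hT) (Strd.cross h hΓ ha hL hz hs T ⟨h1, le_rfl⟩)

/-- A strand which connects an inside point with a point of the leaf goes outwards
(`Strd.cross` from the other end). -/
theorem Strd.pos (h : Ring Y δ t₀ N C₁ D₁ C₂ D₂)
    (hΓ : Strd Y (angk t₀ N k) (Lst Y t₀ N ((D₁ ∪ C₁) \ D₂) k) Γ) {a : ℝ}
    (ha : a ∈ Set.Icc 0 δ) {C D : Set (ℝ × ℝ)} (hL : Leaf Y a C D) {z : ℝ × ℝ} (hz : z ∈ D)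
    {T : ℝ} (hs : Seg Γ (Lst Y t₀ N ((D₁ ∪ C₁) \ D₂) k) z T) (hT : Γ T z ∈ C) : 0 < T := by
  rcases lt_trichotomy T 0 with h1 | h1 | h1
  · exfalso
    obtain ⟨h2, h3⟩ := StrandB_back hΓ hs
    have h4 := Strd.cross h hΓ ha hL hT h2 (-T) ⟨by linarith, le_rfl⟩
    rw [h3] at h4
    exact h4 (Or.inl hz)
  · exfalso
    subst h1
    rw [hΓ.zero] at hT
    exact Set.disjoint_left.1 hL.jp.disj hz hT
  · exact h1

/-- Before it reaches a leaf from inside the strand is inside. Proof: if `Γ t z ∉ D` for some `t < T`,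
let `t'` be the least such time; `Γ t' z ∉ D` and `Γ t z ∈ D` before, so `Γ t' z` is in the closed set
`D ∪ C`, hence in `C`, and `Strd.cross` from `t'` (with `Strd.add`) contradicts `Γ T z ∈ C`. -/
theorem Strd.before (h : Ring Y δ t₀ N C₁ D₁ C₂ D₂)
    (hΓ : Strd Y (angk t₀ N k) (Lst Y t₀ N ((D₁ ∪ C₁) \ D₂) k) Γ) {a : ℝ}
    (ha : a ∈ Set.Icc 0 δ) {C D : Set (ℝ × ℝ)} (hL : Leaf Y a C D) {z : ℝ × ℝ} (hz : z ∈ D)
    {T : ℝ} (hs : Seg Γ (Lst Y t₀ N ((D₁ ∪ C₁) \ D₂) k) z T) (hT : Γ T z ∈ C) :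
    ∀ t ∈ Set.Ico 0 T, Γ t z ∈ D := by
  intro t₁ ht₁
  by_contra hbad
  have hc : Continuous fun τ => Γ τ z := hΓ.cont.comp (by fun_prop : Continuous fun τ : ℝ => (τ, z))
  have hT0 : 0 < T := lt_of_le_of_lt ht₁.1 ht₁.2
  have hB : IsCompact (Set.Icc 0 t₁ ∩ (fun τ => Γ τ z) ⁻¹' Dᶜ) :=
    isCompact_Icc.inter_right (hL.jp.op.isClosed_compl.preimage hc)
  obtain ⟨t', ⟨ht'1, ht'2⟩, hmin⟩ := hB.exists_isLeast ⟨t₁, ⟨ht₁.1, le_rfl⟩, hbad⟩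
  have ht'0 : 0 < t' := by
    rcases ht'1.1.lt_or_eq with h1 | h1
    · exact h1
    · exfalso
      apply ht'2
      change Γ t' z ∈ D
      rw [← h1, hΓ.zero]
      exact hz
  have hin : ∀ τ, 0 ≤ τ → τ < t' → Γ τ z ∈ D := fun τ h1 h2 => by
    by_contra h3
    exact absurd (hmin ⟨⟨h1, h2.le.trans ht'1.2⟩, h3⟩) (not_le.2 h2)
  have hcl : Γ t' z ∈ D ∪ C := by
    have h1 : IsClosed (D ∪ C) := hL.jp.cpt.isClosed
    have h2 : Tendsto (fun ε : ℝ => Γ (t' - ε) z) (𝓝[>] (0 : ℝ)) (𝓝 (Γ t' z)) := by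
      have h3 : ContinuousAt (fun ε : ℝ => Γ (t' - ε) z) 0 :=
        (hc.comp (continuous_const.sub continuous_id)).continuousAt
      have h4 : Tendsto (fun ε : ℝ => Γ (t' - ε) z) (𝓝 (0 : ℝ)) (𝓝 (Γ (t' - 0) z)) := h3
      rw [sub_zero] at h4
      exact h4.mono_left nhdsWithin_le_nhds
    apply h1.mem_of_tendsto h2
    have e1 : ∀ᶠ ε in 𝓝[>] (0 : ℝ), ε ∈ Set.Ioo 0 t' := Ioo_mem_nhdsGT ht'0
    exact e1.mono fun ε hε => Or.inl (hin _ (by linarith [hε.2]) (by linarith [hε.1]))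
  have hC : Γ t' z ∈ C := by
    rcases hcl with h1 | h1
    · exact absurd h1 ht'2
    · exact h1
  have ht'T : t' < T := lt_of_le_of_lt ht'1.2 ht₁.2
  have h2 := StrandB_shift hΓ hs (Set.mem_uIcc.2 (Or.inl ⟨ht'0.le, ht'T.le⟩))
  have h3 := Strd.cross h hΓ ha hL hC h2 (T - t') ⟨by linarith, le_rfl⟩
  rw [← hΓ.add, sub_add_cancel] at h3
  exact h3 (Or.inr hT)

/-- A strand from an inside point meets the leaf at most once: order the two times, the second point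
is on the strand of the first one (`Strd.add`), `Strd.unique`. (`0 < T₁` by `Strd.pos`.) -/
theorem Strd.time_unique (h : Ring Y δ t₀ N C₁ D₁ C₂ D₂)
    (hΓ : Strd Y (angk t₀ N k) (Lst Y t₀ N ((D₁ ∪ C₁) \ D₂) k) Γ) {a : ℝ}
    (ha : a ∈ Set.Icc 0 δ) {C D : Set (ℝ × ℝ)} (hL : Leaf Y a C D) {z : ℝ × ℝ} (hz : z ∈ D)
    {T₁ T₂ : ℝ} (hs₁ : Seg Γ (Lst Y t₀ N ((D₁ ∪ C₁) \ D₂) k) z T₁) (hT₁ : Γ T₁ z ∈ C)
    (hs₂ : Seg Γ (Lst Y t₀ N ((D₁ ∪ C₁) \ D₂) k) z T₂) (hT₂ : Γ T₂ z ∈ C) : T₁ = T₂ := by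
  have p₁ := Strd.pos h hΓ ha hL hz hs₁ hT₁
  have p₂ := Strd.pos h hΓ ha hL hz hs₂ hT₂
  rcases lt_trichotomy T₁ T₂ with h1 | h1 | h1
  · exfalso
    exact Set.disjoint_left.1 hL.jp.disj
      (Strd.before h hΓ ha hL hz hs₂ hT₂ T₁ ⟨p₁.le, h1⟩) hT₁
  · exact h1
  · exfalso
    exact Set.disjoint_left.1 hL.jp.disj
      (Strd.before h hΓ ha hL hz hs₁ hT₁ T₂ ⟨p₂.le, h1⟩) hT₂

end Pool.Agent.Lib.MP_95e7ec_an
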