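import Mathlib
import Pool.Agent.Lib.MP_95e7ec_an.Rc.StrandB
import Pool.Agent.Lib.MP_95e7ec_an.Rb.SideLem

/-!
# Rc, StrandR: strands reach the leaves
-/

set_option autoImplicit false

open Set Filter Topology MeasureTheory
open scoped ContDiff ENNReal

namespace Pool.Agent.Lib.MP_95e7ec_an

variable {Y : ℝ × ℝ → ℝ × ℝ} {δ t₀ : ℝ} {N : ℕ} {C₁ D₁ C₂ D₂ : Set (ℝ × ℝ)} {k : ℤ}
  {Γ : ℝ → ℝ × ℝ → ℝ × ℝ}

/-- turning a multiple of `dirv c` -/
theorem StrandR_turn {Y : ℝ × ℝ → ℝ × ℝ} {p : ℝ × ℝ} {ρ c a : ℝ} (h : Y p = ρ • dirv c) :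
    turn a Y p = ρ • dirv (c + a) := by
  simp only [turn, h, dirv, Prod.smul_fst, Prod.smul_snd, smul_eq_mul, Real.cos_add, Real.sin_add]
  ext
  · simp only [Prod.smul_fst, smul_eq_mul]; ring
  · simp only [Prod.smul_snd, smul_eq_mul]; ring

/-- a strand is continuous in the time -/
theorem StrandR_cont {c : ℝ} {L : Set (ℝ × ℝ)} (hΓ : Strd Y c L Γ) (z : ℝ × ℝ) :
    Continuous fun t => Γ t z := by
  have h1 : Continuous fun t : ℝ => ((t, z) : ℝ × (ℝ × ℝ)) := by fun_prop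
  exact hΓ.cont.comp h1

/-- the displacement along a differentiable curve, in the form of `Side.out` -/
theorem StrandR_disp {f : ℝ → ℝ × ℝ} {T : ℝ} {g : ℝ × ℝ} (hf : HasDerivAt f g T) {η : ℝ}
    (hη : 0 < η) : ∀ᶠ ε in 𝓝[>] (0 : ℝ), nm (f (T + ε) - f T - ε • g) ≤ η * ε := by
  rw [hasDerivAt_iff_isLittleO_nhds_zero] at hf
  have h1 := hf.def (half_pos hη)
  filter_upwards [h1.filter_mono nhdsWithin_le_nhds, self_mem_nhdsWithin] with ε h2 h3
  have h3 : 0 < ε := h3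
  rw [Real.norm_eq_abs, abs_of_pos h3] at h2
  have h4 := rb_nm_le_norm (f (T + ε) - f T - ε • g)
  linarith

/-- the component of `Y` along `dirv c` stays positive -/
theorem StrandR_pos (hY : Continuous Y) {f : ℝ → ℝ × ℝ} (hf : Continuous f) {T ρ c : ℝ}
    (hρ : 0 < ρ) (h : Y (f T) = ρ • dirv c) :
    ∀ᶠ s in 𝓝 T, 0 < (Y (f s)).1 * Real.cos c + (Y (f s)).2 * Real.sin c := by
  have h1 : Continuous fun s => (Y (f s)).1 * Real.cos c + (Y (f s)).2 * Real.sin c := by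
    have h2 := hY.comp hf
    have h3 : Continuous fun s => (Y (f s)).1 := continuous_fst.comp h2
    have h4 : Continuous fun s => (Y (f s)).2 := continuous_snd.comp h2
    exact (h3.mul continuous_const).add (h4.mul continuous_const)
  apply h1.continuousAt.eventually (lt_mem_nhds ?_)
  show 0 < (Y (f T)).1 * Real.cos c + (Y (f T)).2 * Real.sin c
  rw [h]
  simp only [dirv, Prod.smul_fst, Prod.smul_snd, smul_eq_mul]
  have h5 := Real.sin_sq_add_cos_sq c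
  have h6 : ρ * Real.cos c * Real.cos c + ρ * Real.sin c * Real.sin c = ρ := by
    linear_combination ρ * h5
  rw [h6]
  exact hρ

/-- At a point of `Lst k` strictly inside the outer barrier, the strand stays in `Lst k` for a short
time. -/
theorem StrandR_stay (h : Ring Y δ t₀ N C₁ D₁ C₂ D₂)
    (hΓ : Strd Y (angk t₀ N k) (Lst Y t₀ N ((D₁ ∪ C₁) \ D₂) k) Γ) {z : ℝ × ℝ} {T : ℝ}
    (hp : Γ T z ∈ Lst Y t₀ N ((D₁ ∪ C₁) \ D₂) k) (hp₁ : Γ T z ∈ D₁) :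
    ∀ᶠ ε in 𝓝[>] (0 : ℝ), Γ (T + ε) z ∈ Lst Y t₀ N ((D₁ ∪ C₁) \ D₂) k := by
  have hcont := StrandR_cont hΓ z
  obtain ⟨g, hg, hg1, hg2⟩ := hΓ.deriv T z hp
  have hshift : Tendsto (fun ε : ℝ => T + ε) (𝓝[>] 0) (𝓝 T) := by
    have h1 : Tendsto (fun ε : ℝ => T + ε) (𝓝 0) (𝓝 (T + 0)) :=
      (continuous_const.add continuous_id).tendsto 0
    rw [add_zero] at h1
    exact h1.mono_left nhdsWithin_le_nhds
  have hc' : Tendsto (fun ε : ℝ => Γ (T + ε) z) (𝓝[>] 0) (𝓝 (Γ T z)) :=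
    (hcont.tendsto T).comp hshift
  -- in `D₁`
  have e1 : ∀ᶠ ε in 𝓝[>] (0 : ℝ), Γ (T + ε) z ∈ D₁ := hc'.eventually (h.jp₁.op.mem_nhds hp₁)
  -- not in `D₂`
  obtain ⟨ρ, hρ, hYp⟩ := hp.2
  have e2 : ∀ᶠ ε in 𝓝[>] (0 : ℝ), Γ (T + ε) z ∉ D₂ ∪ C₂ := by
    by_cases hC : Γ T z ∈ C₂
    · have ht : 0 < det2 g (turn δ Y (Γ T z)) := by
        rw [StrandR_turn hYp, rb_det2_smul_right]
        exact mul_pos hρ (h.tangent hp hg1 hg2 ⟨h.δpos.le, le_rfl⟩)
      obtain ⟨η, hη, hev⟩ := h.side₂.out hC ht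
      filter_upwards [hev, StrandR_disp hg hη] with ε h1 h2
      exact h1 _ h2
    · have h1 : Γ T z ∉ D₂ ∪ C₂ := by
        rintro (h2 | h2)
        · exact hp.1.2 h2
        · exact hC h2
      have h2 : IsOpen (D₂ ∪ C₂)ᶜ := h.jp₂.cpt.isClosed.isOpen_compl
      exact hc'.eventually (h2.mem_nhds h1)
  have e3 : ∀ᶠ ε in 𝓝[>] (0 : ℝ), det2 (Y (Γ (T + ε) z)) (dirv (angk t₀ N k)) = 0 :=
    (hshift.eventually (hΓ.level T z hp)).mono fun _ h => h.1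
  have e4 := hshift.eventually (StrandR_pos h.smooth.continuous hcont hρ hYp)
  filter_upwards [e1, e2, e3, e4] with ε h1 h2 h3 h4
  refine ⟨⟨Or.inl h1, fun h5 => h2 (Or.inl h5)⟩, _, h4, rb_parallel h3⟩

/-- A strand which starts inside a leaf reaches it. Proof: let `T` be the supremum of the times
`t ≥ 0` with `Γ s z ∈ Lst k ∩ (D ∪ C)` for all `s ∈ [0, t]`; it is finite since the height grows with
speed `1` (`Strd.height`) and `D ∪ C` is bounded; `Γ T z ∈ Lst k ∩ (D ∪ C)` (closed). If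
`p = Γ T z` were in `D`: for `s > T` close to `T`, `Γ s z ∈ D` (open), `Γ s z` is in the ring (`D ⊆ D₁`; if
`p ∈ C₂` then `Side.out` for `turn δ Y` and `Ring.tangent` with `a = δ`, otherwise `p` is in the open
complement of `D₂ ∪ C₂`), and `Y (Γ s z)` is a positive multiple of `dirv c` (`Strd.level`,
`rb_parallel`, continuity), so `Γ s z ∈ Lst k ∩ (D ∪ C)`, contradiction. So `p ∈ C`; the points before
are in `D` by `Strd.before`. -/
theorem Strd.reach (h : Ring Y δ t₀ N C₁ D₁ C₂ D₂)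
    (hΓ : Strd Y (angk t₀ N k) (Lst Y t₀ N ((D₁ ∪ C₁) \ D₂) k) Γ) {a : ℝ}
    (ha : a ∈ Set.Icc 0 δ) {C D : Set (ℝ × ℝ)} (hL : Leaf Y a C D) (hD : D ∪ C ⊆ D₁)
    {z : ℝ × ℝ} (hz : z ∈ D) (hzL : z ∈ Lst Y t₀ N ((D₁ ∪ C₁) \ D₂) k) :
    ∃ T : ℝ, 0 < T ∧ Seg Γ (Lst Y t₀ N ((D₁ ∪ C₁) \ D₂) k) z T ∧ Γ T z ∈ C ∧
      ∀ t ∈ Set.Ico 0 T, Γ t z ∈ D := by
  set L : Set (ℝ × ℝ) := Lst Y t₀ N ((D₁ ∪ C₁) \ D₂) k with hLdef
  set c : ℝ := angk t₀ N k with hc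
  have hcont := StrandR_cont hΓ z
  set S : Set ℝ := {t | 0 ≤ t ∧ ∀ s ∈ Icc 0 t, Γ s z ∈ L ∩ (D ∪ C)} with hS
  have h0 : (0 : ℝ) ∈ S := by
    refine ⟨le_rfl, fun s hs => ?_⟩
    have h1 : s = 0 := le_antisymm hs.2 hs.1
    rw [h1, hΓ.zero]
    exact ⟨hzL, Or.inl hz⟩
  -- the set is bounded
  have hbdd : BddAbove S := by
    have h1 : Continuous fun w : ℝ × ℝ => det2 w (dirv c) := by unfold det2; fun_prop
    obtain ⟨M, hM⟩ := (hL.jp.cpt.image h1).bddAbove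
    refine ⟨M - det2 z (dirv c), fun t ht => ?_⟩
    have h2 : Seg Γ L z t := by
      intro s hs
      rw [uIcc_of_le ht.1] at hs
      exact (ht.2 s hs).1
    have h3 := hΓ.height h2
    have h4 : det2 (Γ t z) (dirv c) ≤ M := hM ⟨_, (ht.2 t ⟨ht.1, le_rfl⟩).2, rfl⟩
    linarith
  set T : ℝ := sSup S with hT
  have hT0 : 0 ≤ T := le_csSup hbdd h0
  have hcl : IsClosed (L ∩ (D ∪ C)) := (h.lst_cpt k).isClosed.inter hL.jp.cpt.isClosed
  have hlt : ∀ s ∈ Ico 0 T, Γ s z ∈ L ∩ (D ∪ C) := by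
    intro s hs
    obtain ⟨t, ht, hst⟩ := exists_lt_of_lt_csSup ⟨0, h0⟩ hs.2
    exact ht.2 s ⟨hs.1, hst.le⟩
  have hTm : Γ T z ∈ L ∩ (D ∪ C) := by
    rcases hT0.eq_or_lt with h1 | h1
    · rw [← h1, hΓ.zero]
      exact ⟨hzL, Or.inl hz⟩
    · have h2 : T ∈ closure (Ico 0 T) := by
        rw [closure_Ico h1.ne]
        exact ⟨hT0, le_rfl⟩
      have h3 : Γ T z ∈ closure (L ∩ (D ∪ C)) :=
        map_mem_closure (f := fun t => Γ t z) hcont h2 hlt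
      rw [hcl.closure_eq] at h3
      exact h3
  have hle : ∀ s ∈ Icc 0 T, Γ s z ∈ L ∩ (D ∪ C) := by
    intro s hs
    rcases hs.2.eq_or_lt with h1 | h1
    · rw [h1]; exact hTm
    · exact hlt s ⟨hs.1, h1⟩
  have hseg : Seg Γ L z T := by
    intro s hs
    rw [uIcc_of_le hT0] at hs
    exact (hle s hs).1
  -- the last point is not in `D`
  have hnD : Γ T z ∉ D := by
    intro hpD
    have e1 := StrandR_stay h hΓ hTm.1 (hD (Or.inl hpD))
    have e2 : ∀ᶠ s in 𝓝 T, Γ s z ∈ D := hcont.continuousAt.eventually (hL.jp.op.mem_nhds hpD)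
    have hshift : Tendsto (fun ε : ℝ => T + ε) (𝓝[>] 0) (𝓝 T) := by
      have h1 : Tendsto (fun ε : ℝ => T + ε) (𝓝 0) (𝓝 (T + 0)) :=
        (continuous_const.add continuous_id).tendsto 0
      rw [add_zero] at h1
      exact h1.mono_left nhdsWithin_le_nhds
    have e3 := e1.and (hshift.eventually e2)
    obtain ⟨r, hr, hr'⟩ := (mem_nhdsGT_iff_exists_Ioo_subset).1 e3
    have hr : 0 < r := hr
    have hmem : T + r / 2 ∈ S := by
      refine ⟨by positivity, fun s hs => ?_⟩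
      rcases le_or_gt s T with h1 | h1
      · exact hle s ⟨hs.1, h1⟩
      · have h2 : s - T ∈ Ioo 0 r := ⟨by linarith, by linarith [hs.2]⟩
        have h3 := hr' h2
        have h4 : T + (s - T) = s := by ring
        simp only [mem_ofPred_eq, h4] at h3
        exact ⟨h3.1, Or.inl h3.2⟩
    have h5 := le_csSup hbdd hmem
    linarith
  have hC : Γ T z ∈ C := hTm.2.resolve_left hnD
  have hTpos : 0 < T := by
    rcases hT0.eq_or_lt with h1 | h1
    · exfalso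
      rw [← h1, hΓ.zero] at hC
      exact disjoint_left.1 hL.jp.disj hz hC
    · exact h1
  exact ⟨T, hTpos, hseg, hC, hΓ.before h ha hL hz hseg hC⟩

end Pool.Agent.Lib.MP_95e7ec_an
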