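import Mathlib
import Pool.Agent.Lib.MP_95e7ec_an.Rc.RingLem
import Pool.Agent.Lib.MP_95e7ec_an.Rc.GenFlow
import Pool.Agent.Lib.MP_95e7ec_an.Rc.Cutoff

/-!
# Rc, StrdFlow: the flow of the strands
-/

set_option autoImplicit false

open Set Filter Topology MeasureTheory
open scoped ContDiff ENNReal

namespace Pool.Agent.Lib.MP_95e7ec_an

variable {Y : ℝ × ℝ → ℝ × ℝ} {δ t₀ : ℝ} {N : ℕ} {C₁ D₁ C₂ D₂ : Set (ℝ × ℝ)}

/-- the function `z ↦ det2 (DY(z) u) e` is `C¹` -/
theorem strdFlow_ell {Y : ℝ × ℝ → ℝ × ℝ} (hY : ContDiff ℝ 2 Y) (u e : ℝ × ℝ) :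
    ContDiff ℝ 1 fun z => det2 (fderiv ℝ Y z u) e := by
  have h1 : ContDiff ℝ 1 (fderiv ℝ Y) := hY.fderiv_right (by norm_num)
  have h2 : ContDiff ℝ 1 fun z => fderiv ℝ Y z u := h1.clm_apply contDiff_const
  unfold det2
  exact (h2.fst.mul contDiff_const).sub (h2.snd.mul contDiff_const)

/-- The flow of the strands. Proof: on the open set `O` where `ℓ_z (dirv c) ≠ 0`,
`ℓ_z u = det2 (DY(z) u) (dirv c)`, put `G z = -n + (ℓ_z n / ℓ_z (dirv c)) • dirv c`, `n = nrm (dirv c)`
(`det2 n (dirv c) = -1`), so `det2 (G z) (dirv c) = 1` and `ℓ_z (G z) = 0`. `G` is `C¹` on `O`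
(`Y` is `C²`). `Lst k` is compact and contained in `O` (`Ring.lst_pos` with `a = 0`). With the cut-off
`χ` of `exists_cutoff`, `χ • G` (zero outside `O`) is `C¹` with compact support: `bdd_lip_of_cpt`,
`exists_gen_flow`. `deriv`: `χ = 1` near the points of `Lst k`. `level`: near `t` the curve is in the
open set where `χ = 1`, there `d/ds det2 (Y (Γ s z)) (dirv c) = ℓ (G) = 0`, and the value at `t` is
`0`; and `d/ds det2 (Γ s z) (dirv c) = det2 G (dirv c) = 1`. -/
theorem Ring.exists_strd (h : Ring Y δ t₀ N C₁ D₁ C₂ D₂) (k : ℤ) :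
    ∃ Γ, Strd Y (angk t₀ N k) (Lst Y t₀ N ((D₁ ∪ C₁) \ D₂) k) Γ := by
  set e : ℝ × ℝ := dirv (angk t₀ N k) with he
  set nn : ℝ × ℝ := nrm e with hnn
  have hdn : det2 nn e = -1 := by
    have h3 := Real.sin_sq_add_cos_sq (angk t₀ N k)
    simp only [hnn, he, nrm, det2, dirv]
    linear_combination -h3
  set O : Set (ℝ × ℝ) := {z | det2 (fderiv ℝ Y z e) e ≠ 0} with hO
  have hOo : IsOpen O := isOpen_ne_fun (strdFlow_ell h.smooth e e).continuous continuous_const
  set G : ℝ × ℝ → ℝ × ℝ := fun z =>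
    -nn + (det2 (fderiv ℝ Y z nn) e / det2 (fderiv ℝ Y z e) e) • e with hG
  have hGe : ∀ z, det2 (G z) e = 1 := by
    intro z
    rw [hG]
    simp only
    rw [rb_det2_add_left, rb_det2_smul_left, rb_det2_self, mul_zero, add_zero]
    have : det2 (-nn) e = -det2 nn e := by simp only [det2, Prod.fst_neg, Prod.snd_neg]; ring
    rw [this, hdn, neg_neg]
  have hGl : ∀ z ∈ O, det2 (fderiv ℝ Y z (G z)) e = 0 := by
    intro z hz
    have h1 : fderiv ℝ Y z (G z) = -fderiv ℝ Y z nn +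
        (det2 (fderiv ℝ Y z nn) e / det2 (fderiv ℝ Y z e) e) • fderiv ℝ Y z e := by
      rw [hG]
      simp only
      rw [map_add, map_neg, map_smul]
    rw [h1, rb_det2_add_left, rb_det2_smul_left]
    have h2 : det2 (-fderiv ℝ Y z nn) e = -det2 (fderiv ℝ Y z nn) e := by
      simp only [det2, Prod.fst_neg, Prod.snd_neg]; ring
    have hz' : det2 (fderiv ℝ Y z e) e ≠ 0 := hz
    rw [h2, div_mul_cancel₀ _ hz']
    ring
  have hKO : Lst Y t₀ N ((D₁ ∪ C₁) \ D₂) k ⊆ O := by
    intro w hw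
    have h1 := h.lst_pos hw (a := 0) ⟨le_rfl, h.δpos.le⟩
    rw [add_zero] at h1
    intro h2
    rw [← he, h2, mul_zero] at h1
    exact lt_irrefl _ h1
  obtain ⟨χ, hχ, hχc, hχO, U, hUo, hKU, hU1⟩ := exists_cutoff (h.lst_cpt k) hOo hKO
  have hUO : U ⊆ O := by
    intro z hz
    apply hχO
    apply subset_tsupport
    rw [Function.mem_support, hU1 z hz]
    exact one_ne_zero
  set f : ℝ × ℝ → ℝ × ℝ := fun z => χ z • G z with hf
  have hfd : ContDiff ℝ 1 f := by
    rw [contDiff_iff_contDiffAt]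
    intro z
    by_cases hz : z ∈ O
    · have h1 : ContDiffAt ℝ 1 G z := by
        rw [hG]
        have h0 : ContDiffAt ℝ 1
            (fun z => det2 (fderiv ℝ Y z nn) e / det2 (fderiv ℝ Y z e) e) z :=
          (strdFlow_ell h.smooth nn e).contDiffAt.div
            (strdFlow_ell h.smooth e e).contDiffAt hz
        have h00 : ContDiffAt ℝ 1
            (fun z => (det2 (fderiv ℝ Y z nn) e / det2 (fderiv ℝ Y z e) e) • e) z :=
          h0.smul (contDiffAt_const (c := e))
        exact contDiffAt_const.add h00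
      exact (hχ.contDiffAt.of_le (by norm_num)).smul h1
    · have h1 : z ∉ tsupport χ := fun hz' => hz (hχO hz')
      have h2 : χ =ᶠ[𝓝 z] 0 := notMem_tsupport_iff_eventuallyEq.1 h1
      have h3 : f =ᶠ[𝓝 z] fun _ => (0 : ℝ × ℝ) := by
        filter_upwards [h2] with w hw
        rw [hf]
        simp only
        rw [hw]
        simp
      exact contDiffAt_const.congr_of_eventuallyEq h3
  have hfc : HasCompactSupport f := by
    apply hχc.mono
    intro z hz
    rw [Function.mem_support] at hz ⊢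
    intro h0
    apply hz
    rw [hf]
    simp only
    rw [h0, zero_smul]
  obtain ⟨⟨K, hK⟩, B, hB⟩ := bdd_lip_of_cpt hfd hfc
  obtain ⟨Γ, hΓc, hΓ0, hΓa, hΓd⟩ := exists_gen_flow hK hB
  have hfU : ∀ z ∈ U, f z = G z := by
    intro z hz
    rw [hf]
    simp only
    rw [hU1 z hz, one_smul]
  refine ⟨Γ, hΓc, hΓ0, hΓa, ?_, ?_⟩
  · intro t z hz
    have hzU := hKU hz
    refine ⟨G (Γ t z), ?_, hGe _, hGl _ (hUO hzU)⟩
    have h1 := hΓd z t
    rwa [hfU _ hzU] at h1
  · intro t z hz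
    have hzU := hKU hz
    have hcz : Continuous fun s : ℝ => Γ s z := hΓc.comp (Continuous.prodMk continuous_id continuous_const)
    have hev : ∀ᶠ s in 𝓝 t, Γ s z ∈ U := hcz.continuousAt.eventually (hUo.mem_nhds hzU)
    obtain ⟨ε, hε, hball⟩ := Metric.eventually_nhds_iff_ball.1 hev
    have hY0 : det2 (Y (Γ t z)) e = 0 := by
      obtain ⟨-, ρ, -, hρ⟩ := hz
      rw [hρ, ← he, rb_det2_smul_left, rb_det2_self, mul_zero]
    have hd1 : ∀ s ∈ Metric.ball t ε, HasDerivAt (fun s => det2 (Y (Γ s z)) e) 0 s := by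
      intro s hs
      have hsU := hball s hs
      have h1 := hΓd z s
      rw [hfU _ hsU] at h1
      have h2 : HasFDerivAt Y (fderiv ℝ Y (Γ s z)) (Γ s z) :=
        ((h.smooth.differentiable (by norm_num)) _).hasFDerivAt
      have h3 : HasDerivAt (fun s => Y (Γ s z)) (fderiv ℝ Y (Γ s z) (G (Γ s z))) s :=
        h2.comp_hasDerivAt s h1
      have h4 := hGl _ (hUO hsU)
      have h5 : HasDerivAt (fun s => (Y (Γ s z)).1) (fderiv ℝ Y (Γ s z) (G (Γ s z))).1 s :=
        HasFDerivAt.comp_hasDerivAt s (ContinuousLinearMap.fst ℝ ℝ ℝ).hasFDerivAt h3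
      have h6 : HasDerivAt (fun s => (Y (Γ s z)).2) (fderiv ℝ Y (Γ s z) (G (Γ s z))).2 s :=
        HasFDerivAt.comp_hasDerivAt s (ContinuousLinearMap.snd ℝ ℝ ℝ).hasFDerivAt h3
      have h7 := (h5.mul_const e.2).sub (h6.mul_const e.1)
      have h8 : (fderiv ℝ Y (Γ s z) (G (Γ s z))).1 * e.2 -
          (fderiv ℝ Y (Γ s z) (G (Γ s z))).2 * e.1 = 0 := h4
      rw [h8] at h7
      exact h7
    have hd2 : ∀ s ∈ Metric.ball t ε, HasDerivAt (fun s => det2 (Γ s z) e - s) 0 s := by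
      intro s hs
      have hsU := hball s hs
      have h1 := hΓd z s
      rw [hfU _ hsU] at h1
      have h5 : HasDerivAt (fun s => (Γ s z).1) (G (Γ s z)).1 s :=
        HasFDerivAt.comp_hasDerivAt s (ContinuousLinearMap.fst ℝ ℝ ℝ).hasFDerivAt h1
      have h6 : HasDerivAt (fun s => (Γ s z).2) (G (Γ s z)).2 s :=
        HasFDerivAt.comp_hasDerivAt s (ContinuousLinearMap.snd ℝ ℝ ℝ).hasFDerivAt h1
      have h7 := ((h5.mul_const e.2).sub (h6.mul_const e.1)).sub (hasDerivAt_id s)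
      have h8 : (G (Γ s z)).1 * e.2 - (G (Γ s z)).2 * e.1 = 1 := hGe _
      rw [h8, sub_self] at h7
      exact h7
    have hpre : IsPreconnected (Metric.ball t ε) := (convex_ball t ε).isPreconnected
    have ht : t ∈ Metric.ball t ε := Metric.mem_ball_self hε
    have hc1 : ∀ s ∈ Metric.ball t ε, det2 (Y (Γ s z)) e = det2 (Y (Γ t z)) e := by
      intro s hs
      exact Metric.isOpen_ball.is_const_of_deriv_eq_zero hpre
        (fun s hs => (hd1 s hs).differentiableAt.differentiableWithinAt)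
        (fun s hs => (hd1 s hs).deriv) hs ht
    have hc2 : ∀ s ∈ Metric.ball t ε, det2 (Γ s z) e - s = det2 (Γ t z) e - t := by
      intro s hs
      exact Metric.isOpen_ball.is_const_of_deriv_eq_zero hpre
        (fun s hs => (hd2 s hs).differentiableAt.differentiableWithinAt)
        (fun s hs => (hd2 s hs).deriv) hs ht
    filter_upwards [Metric.ball_mem_nhds t hε] with s hs
    refine ⟨?_, ?_⟩
    · rw [hc1 s hs, hY0]
    · have := hc2 s hs
      linarith

end Pool.Agent.Lib.MP_95e7ec_an
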