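import Mathlib
import Pool.Agent.Lib.MP_95e7ec_an.Rb.Nest
import Pool.Agent.Lib.MP_95e7ec_an.Rc.RingFlow
import Pool.Agent.Lib.MP_95e7ec_an.Rc.StrdFlow
import Pool.Agent.Lib.MP_95e7ec_an.Rc.StrandR
import Pool.Agent.Lib.MP_95e7ec_an.Rc.StrandC
import Pool.Agent.Lib.MP_95e7ec_an.Rc.StepLem
import Pool.Agent.Lib.MP_95e7ec_an.Rc.Itin
import Pool.Agent.Lib.MP_95e7ec_an.Rc.Return
import Pool.Agent.Lib.MP_95e7ec_an.Rc.Cover
import Pool.Agent.Lib.MP_95e7ec_an.Rc.Polygon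

/-!
# Rc, Triple: the cost of two consecutive families
-/

set_option autoImplicit false

open Set Filter Topology MeasureTheory
open scoped ContDiff ENNReal

namespace Pool.Agent.Lib.MP_95e7ec_an

variable {Y : ℝ × ℝ → ℝ × ℝ} {δ t₀ : ℝ} {N : ℕ} {C₁ D₁ C₂ D₂ : Set (ℝ × ℝ)}

theorem lst_congr {R : Set (ℝ × ℝ)} {k k' : ℤ} (h : dirv (angk t₀ N k) = dirv (angk t₀ N k')) :
    Lst Y t₀ N R k = Lst Y t₀ N R k' := by
  unfold Lst
  rw [h]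

/-- connection of two points of a path by the strand -/
theorem triple_conn (h : Ring Y δ t₀ N C₁ D₁ C₂ D₂) {k : ℤ} {Γ : ℝ → ℝ × ℝ → ℝ × ℝ}
    (hΓ : Strd Y (angk t₀ N k) (Lst Y t₀ N ((D₁ ∪ C₁) \ D₂) k) Γ) {κ : ℝ → ℝ × ℝ}
    {lo hi τ τ' : ℝ} (hκ : ContinuousOn κ (Set.Icc lo hi))
    (hκL : ∀ τ ∈ Set.Icc lo hi, κ τ ∈ Lst Y t₀ N ((D₁ ∪ C₁) \ D₂) k)
    (hτ : τ ∈ Set.Icc lo hi) (hτ' : τ' ∈ Set.Icc lo hi) {a : ℝ}
    (ha : a ∈ Set.Icc 0 δ) {C D : Set (ℝ × ℝ)} (hL : Leaf Y a C D) (hz : κ τ ∈ D)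
    (hz' : κ τ' ∈ C) :
    ∃ T : ℝ, 0 < T ∧ Seg Γ (Lst Y t₀ N ((D₁ ∪ C₁) \ D₂) k) (κ τ) T ∧ Γ T (κ τ) = κ τ' := by
  obtain ⟨h1, h2⟩ := hΓ.path h hκ hκL hτ hτ'
  exact ⟨_, hΓ.pos h ha hL hz h2 (by rw [h1]; exact hz'), h2, h1⟩

/-- Two pieces of strands which start on a leaf and meet start at the same point. -/
theorem triple_inj (h : Ring Y δ t₀ N C₁ D₁ C₂ D₂) {Γ : ℤ → ℝ → ℝ × ℝ → ℝ × ℝ}
    (hΓ : ∀ k, Strd Y (angk t₀ N k) (Lst Y t₀ N ((D₁ ∪ C₁) \ D₂) k) (Γ k)) {a : ℝ}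
    (ha : a ∈ Set.Icc 0 δ) {C D : Set (ℝ × ℝ)} (hL : Leaf Y a C D) {k k' : ℤ} {p p' : ℝ × ℝ}
    (hp : p ∈ C) (hp' : p' ∈ C) {t t' T T' : ℝ} (ht : t ∈ Set.Ioo 0 T) (ht' : t' ∈ Set.Ioo 0 T')
    (hs : Seg (Γ k) (Lst Y t₀ N ((D₁ ∪ C₁) \ D₂) k) p T)
    (hs' : Seg (Γ k') (Lst Y t₀ N ((D₁ ∪ C₁) \ D₂) k') p' T')
    (he : Γ k t p = Γ k' t' p') : p = p' := by
  wlog hle : t' ≤ t generalizing k k' p p' t t' T T'
  · exact (this hp' hp ht' ht hs' hs he.symm (not_le.1 hle).le).symm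
  have hTu : Set.uIcc 0 T = Set.Icc 0 T := Set.uIcc_of_le (ht.1.trans ht.2).le
  have hTu' : Set.uIcc 0 T' = Set.Icc 0 T' := Set.uIcc_of_le (ht'.1.trans ht'.2).le
  have hz : Γ k t p ∈ Lst Y t₀ N ((D₁ ∪ C₁) \ D₂) k := hs t (by
    rw [hTu]; exact ⟨ht.1.le, ht.2.le⟩)
  have hz' : Γ k t p ∈ Lst Y t₀ N ((D₁ ∪ C₁) \ D₂) k' := by
    rw [he]
    exact hs' t' (by rw [hTu']; exact ⟨ht'.1.le, ht'.2.le⟩)
  obtain ⟨hdir, -⟩ := h.lst_mod hz hz'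
  have hL' : Lst Y t₀ N ((D₁ ∪ C₁) \ D₂) k = Lst Y t₀ N ((D₁ ∪ C₁) \ D₂) k' := lst_congr hdir
  -- the path `τ ↦ Γ k' τ p'`
  have hcont : ContinuousOn (fun τ => Γ k' τ p') (Set.Icc 0 t') := by
    refine Continuous.continuousOn ?_
    exact (hΓ k').cont.comp (by fun_prop : Continuous fun τ : ℝ => (τ, p'))
  have hmem : ∀ τ ∈ Set.Icc 0 t', (fun τ => Γ k' τ p') τ ∈ Lst Y t₀ N ((D₁ ∪ C₁) \ D₂) k := by
    intro τ hτ
    rw [hL']
    exact hs' τ (by rw [hTu']; exact ⟨hτ.1, hτ.2.trans ht'.2.le⟩)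
  have h1 := ((hΓ k).path h hcont hmem (τ := t') (τ' := 0) ⟨ht'.1.le, le_rfl⟩
    ⟨le_rfl, ht'.1.le⟩).1
  have hheight : det2 (Γ k' t' p') (dirv (angk t₀ N k')) =
      det2 p' (dirv (angk t₀ N k')) + t' := by
    refine (hΓ k').height ?_
    intro τ hτ
    rw [Set.uIcc_of_le ht'.1.le] at hτ
    exact hs' τ (by rw [hTu']; exact ⟨hτ.1, hτ.2.trans ht'.2.le⟩)
  simp only [(hΓ k').zero] at h1
  rw [hdir] at h1
  have h2 : det2 p' (dirv (angk t₀ N k')) - det2 (Γ k' t' p') (dirv (angk t₀ N k')) = -t' := by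
    rw [hheight]; ring
  rw [h2, ← he, ← (hΓ k).add] at h1
  have h3 : -t' + t = t - t' := by ring
  rw [h3] at h1
  -- `Γ k (t - t') p = p'`
  have h4 := hΓ k |>.unique h ha hL hp (T := t - t') (by
    intro τ hτ
    rw [Set.uIcc_of_le (sub_nonneg.2 hle)] at hτ
    exact hs τ (by rw [hTu]; exact ⟨hτ.1, by linarith [hτ.2, ht'.1, ht.2]⟩)) (by rw [h1]; exact hp')
  rw [← h4.2, h1]


theorem angk_succ (t₀ : ℝ) (N : ℕ) (k : ℤ) :
    angk t₀ N (k + 1) = angk t₀ N k + 2 * Real.pi / N := by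
  unfold angk
  push_cast
  ring

theorem triple_telescope {p : ℕ → ℝ × ℝ} {r : ℕ → ℝ} {J : ℕ}
    (hr : ∀ i < J, nm (p (i + 1) - p i) ≤ r i) {i j : ℕ} (hi : i ≤ J) (hj : j ≤ J) :
    nm (p i - p j) ≤ ∑ l ∈ Finset.range J, r l := by
  wlog hij : i ≤ j generalizing i j
  · rw [rb_nm_sub_comm]
    exact this hj hi (not_le.1 hij).le
  have hr0 : ∀ l < J, 0 ≤ r l := fun l hl => (rb_nm_nonneg _).trans (hr l hl)
  have h1 : ∀ d : ℕ, i + d ≤ J → nm (p i - p (i + d)) ≤ ∑ l ∈ Finset.Ico i (i + d), r l := by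
    intro d
    induction d with
    | zero => intro _; simp [rb_nm_zero]
    | succ d ih =>
      intro hd
      have h2 := ih (by omega)
      rw [← add_assoc, Finset.sum_Ico_succ_top (by omega)]
      have h3 := rb_nm_tri (p i) (p (i + d)) (p (i + d + 1))
      have h4 := hr (i + d) (by omega)
      rw [rb_nm_sub_comm] at h4
      linarith
  obtain ⟨d, rfl⟩ := Nat.exists_eq_add_of_le hij
  refine (h1 d hj).trans ?_
  refine Finset.sum_le_sum_of_subset_of_nonneg ?_ ?_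
  · intro l hl
    rw [Finset.mem_Ico] at hl
    rw [Finset.mem_range]
    omega
  · intro l hl _
    exact hr0 l (Finset.mem_range.1 hl)

/-- the distance of an inside point from a vertex is at most three perimeters -/
theorem triple_per (h : Ring Y δ t₀ N C₁ D₁ C₂ D₂) {φ : ℝ → ℝ → ℝ × ℝ → ℝ × ℝ}
    (hφ : Flw Y δ ((D₁ ∪ C₁) \ D₂) φ) {a : ℝ} (ha : a ∈ Set.Ioo 0 δ) {C D : Set (ℝ × ℝ)}
    (hL : Leaf Y a C D) (hCR : C ⊆ (D₁ ∪ C₁) \ D₂) {p : ℕ → ℝ × ℝ} {q : ℕ → ℤ} {s : ℕ → ℝ}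
    (h0 : p 0 ∈ C) (hs : ∀ j, Step Y t₀ N φ a (q j) (p j) (s j) ∧ p (j + 1) = φ a (s j) (p j))
    {J : ℕ} (hJ : 0 < J) (hret : p J = p 0) {r : ℕ → ℝ}
    (hr : ∀ i < J, nm (p (i + 1) - p i) = r i) {j : ℕ} (hj : j ≤ J) {z : ℝ × ℝ} (hz : z ∈ D) :
    nm (p j - z) ≤ 3 * ∑ i ∈ Finset.range J, r i := by
  have hY1 : ContDiff ℝ 1 Y := h.smooth.of_le one_le_two
  have hmem := Leaf.steps_mem hY1 hφ ha hL hCR h0 hs
  have hne : z - p j ≠ 0 := by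
    intro he
    rw [sub_eq_zero] at he
    exact Set.disjoint_left.1 hL.jp.disj hz (by rw [he]; exact hmem j)
  obtain ⟨t, ht, hw⟩ := hL.jp.ray hz hne
  obtain ⟨i, hi, t', ht', hw'⟩ := Leaf.cover hY1 hφ ha hL hCR h0 hs hJ hret _ hw
  have h1 := Step.edge_le h hφ ha (hCR (hmem i)) (hs i).1 ht'
  rw [← hw', ← (hs i).2, hr i hi] at h1
  have h2 := triple_telescope (p := p) (r := r) (fun i hi => (hr i hi).le) hj hi.le
  have h3 : p j - (z + t • (z - p j)) = (1 + t) • (p j - z) := by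
    rw [add_smul, one_smul, smul_sub, smul_sub]
    abel
  have h4 : nm (p j - (z + t • (z - p j))) = (1 + t) * nm (p j - z) := by
    rw [h3, rb_nm_smul, abs_of_nonneg (by linarith)]
  have h5 : r i ≤ ∑ l ∈ Finset.range J, r l := by
    refine Finset.single_le_sum (f := r) (fun l hl => ?_) (Finset.mem_range.2 hi)
    rw [← hr l (Finset.mem_range.1 hl)]
    exact rb_nm_nonneg _
  have h6 := rb_nm_tri (p j) (p i) (z + t • (z - p j))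
  rw [rb_nm_sub_comm (p i), h4] at h6
  have h7 : nm (p j - z) ≤ (1 + t) * nm (p j - z) := by
    have := rb_nm_nonneg (p j - z)
    nlinarith
  linarith


/-- the polygon inequality for three leaves -/
theorem triple_poly (h : Ring Y δ t₀ N C₁ D₁ C₂ D₂) {φ : ℝ → ℝ → ℝ × ℝ → ℝ × ℝ}
    (hφ : Flw Y δ ((D₁ ∪ C₁) \ D₂) φ) {CB DB : Set (ℝ × ℝ)}
    (lB : Leaf Y (3 * δ / 4) CB DB)
    (hBR : CB ⊆ (D₁ ∪ C₁) \ D₂) {J : ℕ} (hJ : 0 < J) {kk q : ℕ → ℤ} {a b c : ℕ → ℝ × ℝ}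
    {sa sb sc : ℕ → ℝ} {φb φc Rb Rc : ℕ → ℝ}
    (hq : ∀ j, q j = kk j ∨ q j = kk j - 1) (hk : ∀ j, kk (j + 1) = q j ∨ kk (j + 1) = q j + 1)
    (haL : ∀ j, a j ∈ Lst Y t₀ N ((D₁ ∪ C₁) \ D₂) (kk j))
    (hbL : ∀ j, b j ∈ Lst Y t₀ N ((D₁ ∪ C₁) \ D₂) (kk j))
    (hcL : ∀ j, c j ∈ Lst Y t₀ N ((D₁ ∪ C₁) \ D₂) (kk j))
    (hsa : ∀ j, Step Y t₀ N φ (δ / 2) (q j) (a j) (sa j) ∧ a (j + 1) = φ (δ / 2) (sa j) (a j))
    (hsb : ∀ j, Step Y t₀ N φ (3 * δ / 4) (q j) (b j) (sb j) ∧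
      b (j + 1) = φ (3 * δ / 4) (sb j) (b j))
    (hsc : ∀ j, Step Y t₀ N φ (δ / 4) (q j) (c j) (sc j) ∧ c (j + 1) = φ (δ / 4) (sc j) (c j))
    (ha : a J = a 0) (hb : b J = b 0) (hc : c J = c 0) (hb0 : b 0 ∈ CB)
    (haB : ∀ j, a j ∈ DB)
    (hdb : ∀ j, 0 < Rb j ∧ φb j ∈ Set.Ioo (angk t₀ N (kk j) + δ - Real.pi) (angk t₀ N (kk j)) ∧
      b j - a j = Rb j • dirv (φb j) ∧ Rb j = nm (b j - a j))
    (hdc : ∀ j, 0 < Rc j ∧ φc j ∈ Set.Ioo (angk t₀ N (kk j) + δ - Real.pi) (angk t₀ N (kk j)) ∧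
      c j - a j = Rc j • dirv (φc j) ∧ Rc j = nm (c j - a j)) :
    δ ^ 3 / (400 * (2 * Real.pi / N)) ≤ ∑ j ∈ Finset.range J, |φc (j + 1) - φb (j + 1)| := by
  have hδ := h.δpos
  have hη : 0 < 2 * Real.pi / N := by
    have : (0 : ℝ) < N := by exact_mod_cast h.Npos
    positivity
  have hIa : δ / 2 ∈ Set.Ioo 0 δ := ⟨by linarith, by linarith⟩
  have hIb : 3 * δ / 4 ∈ Set.Ioo 0 δ := ⟨by linarith, by linarith⟩
  have hIc : δ / 4 ∈ Set.Ioo 0 δ := ⟨by linarith, by linarith⟩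
  -- the edges
  have edge : ∀ {u : ℝ} (_ : u ∈ Set.Ioo 0 δ) {p : ℕ → ℝ × ℝ} {s : ℕ → ℝ}
      (_ : ∀ j, p j ∈ Lst Y t₀ N ((D₁ ∪ C₁) \ D₂) (kk j))
      (_ : ∀ j, Step Y t₀ N φ u (q j) (p j) (s j) ∧ p (j + 1) = φ u (s j) (p j)) (j : ℕ),
      ∃ ρ α : ℝ, 0 < ρ ∧ α ∈ Set.Icc (angk t₀ N (q j) + u) (angk t₀ N (q j + 1) + u) ∧
        p (j + 1) - p j = ρ • dirv α := by
    intro u hu p s hpL hps j
    obtain ⟨ρ, α, h1, h2, h3⟩ := Step.edge h hφ hu (hpL j).1 (hps j).1 (t := 0) (t' := s j) le_rfl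
      (hps j).1.1 le_rfl
    refine ⟨ρ, α, h1, h2, ?_⟩
    rw [hφ.zero] at h3
    rw [(hps j).2, h3]
  choose RA α hRA hα hA using edge hIa haL hsa
  choose RB β hRB hβ hB using edge hIb hbL hsb
  choose RC γ hRC hγ hC using edge hIc hcL hsc
  have ha1 : a (J + 1) = a 1 := by
    have h1 := hsa J
    have h2 := hsa 0
    rw [ha] at h1
    have h3 := haL (J + 1)
    rw [h1.2] at h3
    have h4 := haL (0 + 1)
    rw [h2.2] at h4
    have h5 := Step.unique h h1.1 h3 h2.1 h4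
    rw [h1.2, h5, ← h2.2]
  have hRBn : ∀ i < J, nm (b (i + 1) - b i) = RB i := by
    intro i _
    rw [hB i, rb_nm_smul, rb_nm_dirv, abs_of_pos (hRB i), mul_one]
  have hα1 : ∀ j, |α j - angk t₀ N (kk j) - δ / 2| ≤ 2 * Real.pi / N := by
    intro j
    have h1 := hα j
    have h2 := angk_succ t₀ N (q j)
    rcases hq j with h3 | h3
    · rw [h3] at h1 h2
      rw [abs_le]
      constructor <;> linarith [h1.1, h1.2]
    · have h4 := angk_succ t₀ N (kk j - 1)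
      rw [h3] at h1 h2
      rw [sub_add_cancel] at h1 h4
      rw [abs_le]
      constructor <;> linarith [h1.1, h1.2]
  have hα2 : ∀ j, |α j - angk t₀ N (kk (j + 1)) - δ / 2| ≤ 2 * Real.pi / N := by
    intro j
    have h1 := hα j
    have h2 := angk_succ t₀ N (q j)
    rcases hk j with h3 | h3
    · rw [← h3] at h1 h2
      rw [abs_le]
      constructor <;> linarith [h1.1, h1.2]
    · rw [h3]
      rw [abs_le]
      constructor <;> linarith [h1.1, h1.2]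
  refine polygon_cost hJ hδ h.δle hη h.small (a := a) (b := b) (c := c)
    (θ := fun j => angk t₀ N (kk j)) (α := α) (β := β) (γ := γ) (φb := φb) (φc := φc)
    (RA := RA) (RB := RB) (RC := RC) (Rb := Rb) (Rc := Rc) ha hb hc ha1
    (fun j _ => ⟨hRA j, hA j⟩) (fun j _ => ⟨hRB j, hB j⟩) (fun j _ => ⟨hRC j, hC j⟩)
    (fun j _ => ⟨(hdb j).1, (hdb j).2.2.1⟩) (fun j _ => ⟨(hdc j).1, (hdc j).2.2.1⟩)
    (fun j _ => hα1 j) (fun j _ => hα2 j) ?_ ?_ (fun j _ => (hdb j).2.1)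
    (fun j _ => (hdc j).2.1) ?_
  · intro j _
    have h1 := hα j
    have h2 := hβ j
    have h3 := angk_succ t₀ N (q j)
    constructor <;> linarith [h1.1, h1.2, h2.1, h2.2]
  · intro j _
    have h1 := hα j
    have h2 := hγ j
    have h3 := angk_succ t₀ N (q j)
    constructor <;> linarith [h1.1, h1.2, h2.1, h2.2]
  · intro j hj
    rw [(hdb j).2.2.2]
    exact triple_per h hφ hIb lB hBR hb0 hsb hJ hb hRBn hj (haB j)


/-- **The cost of two consecutive families.** -/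
theorem triple_cost (h : Ring Y δ t₀ N C₁ D₁ C₂ D₂) {CA DA CB DB CC DC : Set (ℝ × ℝ)}
    (lA : Leaf Y (δ / 2) CA DA) (lB : Leaf Y (3 * δ / 4) CB DB) (lC : Leaf Y (δ / 4) CC DC)
    (h2A : D₂ ∪ C₂ ⊆ DA) (hAB : DA ∪ CA ⊆ DB) (hAC : DA ∪ CA ⊆ DC) (hB1 : DB ∪ CB ⊆ D₁)
    (hC1 : DC ∪ CC ⊆ D₁) :
    Cost Y t₀ N ((DB ∪ CB ∪ (DC ∪ CC)) \ DA) (δ ^ 3 / (400 * (2 * Real.pi / N))) := by
  classical
  have hY1 : ContDiff ℝ 1 Y := h.smooth.of_le one_le_two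
  have hδ := h.δpos
  have hNpos := h.Npos
  have hNr : (0 : ℝ) < N := by exact_mod_cast hNpos
  have hpi := Real.pi_pos
  have hIa : δ / 2 ∈ Set.Ioo 0 δ := ⟨by linarith, by linarith⟩
  have hIb : 3 * δ / 4 ∈ Set.Ioo 0 δ := ⟨by linarith, by linarith⟩
  have hIc : δ / 4 ∈ Set.Ioo 0 δ := ⟨by linarith, by linarith⟩
  have hIa' := Set.Ioo_subset_Icc_self hIa
  have hIb' := Set.Ioo_subset_Icc_self hIb
  have hIc' := Set.Ioo_subset_Icc_self hIc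
  -- the curves are in the ring
  have hAR : CA ⊆ (D₁ ∪ C₁) \ D₂ := fun z hz =>
    ⟨Or.inl (hB1 (Or.inl (hAB (Or.inr hz)))), fun h2 =>
      Set.disjoint_left.1 lA.jp.disj (h2A (Or.inl h2)) hz⟩
  have hBR : CB ⊆ (D₁ ∪ C₁) \ D₂ := fun z hz =>
    ⟨Or.inl (hB1 (Or.inr hz)), fun h2 =>
      Set.disjoint_left.1 lB.jp.disj (hAB (Or.inl (h2A (Or.inl h2)))) hz⟩
  have hCR : CC ⊆ (D₁ ∪ C₁) \ D₂ := fun z hz =>
    ⟨Or.inl (hC1 (Or.inr hz)), fun h2 =>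
      Set.disjoint_left.1 lC.jp.disj (hAC (Or.inl (h2A (Or.inl h2)))) hz⟩
  obtain ⟨φ, hφ⟩ := h.exists_flw
  choose Γ hΓ using fun k : ℤ => h.exists_strd k
  obtain ⟨a0, ha0, ha0L⟩ := lA.exists_lst (t₀ := t₀) (N := N) hAR 0
  obtain ⟨Tb, hTb, hsb, hTbC, -⟩ := (hΓ 0).reach h hIb' lB hB1 (hAB (Or.inr ha0)) ha0L
  obtain ⟨Tc, hTc, hsc, hTcC, -⟩ := (hΓ 0).reach h hIc' lC hC1 (hAC (Or.inr ha0)) ha0L
  have hub : Set.uIcc 0 Tb = Set.Icc 0 Tb := Set.uIcc_of_le hTb.le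
  have huc : Set.uIcc 0 Tc = Set.Icc 0 Tc := Set.uIcc_of_le hTc.le
  -- the path
  set κ₀ : ℝ → ℝ × ℝ := fun τ => Γ 0 (max τ 0 * Tb + max (-τ) 0 * Tc) a0 with hκ₀
  set α : ℝ → ℝ := fun τ => δ / 2 + δ * τ / 4 with hα
  have hκc : ContinuousOn κ₀ (Set.Icc (-1) 1) := by
    refine Continuous.continuousOn ?_
    exact (hΓ 0).cont.comp
      (by fun_prop : Continuous fun τ : ℝ => ((max τ 0 * Tb + max (-τ) 0 * Tc : ℝ), a0))
  have hαc : ContinuousOn α (Set.Icc (-1) 1) := by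
    refine Continuous.continuousOn ?_
    fun_prop
  have hκL : ∀ τ ∈ Set.Icc (-1 : ℝ) 1, κ₀ τ ∈ Lst Y t₀ N ((D₁ ∪ C₁) \ D₂) 0 := by
    intro τ hτ
    rcases le_total 0 τ with h1 | h1
    · have h2 : max τ 0 * Tb + max (-τ) 0 * Tc = τ * Tb := by
        rw [max_eq_left h1, max_eq_right (by linarith)]; ring
      rw [hκ₀]
      simp only [h2]
      refine hsb _ ?_
      rw [hub]
      exact ⟨by positivity, by nlinarith [hτ.2]⟩
    · have h2 : max τ 0 * Tb + max (-τ) 0 * Tc = -τ * Tc := by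
        rw [max_eq_right h1, max_eq_left (by linarith)]; ring
      rw [hκ₀]
      simp only [h2]
      refine hsc _ ?_
      rw [huc]
      have h3 : 0 ≤ -τ := by linarith
      exact ⟨by positivity, by nlinarith [hτ.1]⟩
  have hαI : ∀ τ ∈ Set.Icc (-1 : ℝ) 1, α τ ∈ Set.Ioo 0 δ := by
    intro τ hτ
    rw [hα]
    constructor
    · simp only; nlinarith [hτ.1]
    · simp only; nlinarith [hτ.2]
  obtain ⟨kk, q, κ, s, hk0, hκ0, hit⟩ :=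
    h.itinerary hφ (by norm_num : (-1 : ℝ) ≤ 1) hκc hαc hκL hαI
  have m0 : (0 : ℝ) ∈ Set.Icc (-1 : ℝ) 1 := ⟨by norm_num, by norm_num⟩
  have m1 : (1 : ℝ) ∈ Set.Icc (-1 : ℝ) 1 := ⟨by norm_num, le_rfl⟩
  have mm : (-1 : ℝ) ∈ Set.Icc (-1 : ℝ) 1 := ⟨le_rfl, by norm_num⟩
  have α0 : α 0 = δ / 2 := by rw [hα]; simp
  have α1 : α 1 = 3 * δ / 4 := by rw [hα]; ring
  have αm : α (-1) = δ / 4 := by rw [hα]; ring
  have hq : ∀ j, q j = kk j ∨ q j = kk j - 1 := fun j => (hit j).1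
  have hk : ∀ j, kk (j + 1) = q j ∨ kk (j + 1) = q j + 1 := fun j => (hit j).2.1
  have hκj : ∀ j, ContinuousOn (κ j) (Set.Icc (-1) 1) := fun j => (hit j).2.2.1
  have hL : ∀ j, ∀ τ ∈ Set.Icc (-1 : ℝ) 1, κ j τ ∈ Lst Y t₀ N ((D₁ ∪ C₁) \ D₂) (kk j) :=
    fun j τ hτ => ((hit j).2.2.2 τ hτ).1
  have hst : ∀ j, ∀ τ ∈ Set.Icc (-1 : ℝ) 1, Step Y t₀ N φ (α τ) (q j) (κ j τ) (s j τ) ∧
      κ (j + 1) τ = φ (α τ) (s j τ) (κ j τ) := fun j τ hτ => ((hit j).2.2.2 τ hτ).2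
  have hsa' : ∀ j, Step Y t₀ N φ (δ / 2) (q j) (κ j 0) (s j 0) ∧
      κ (j + 1) 0 = φ (δ / 2) (s j 0) (κ j 0) := by
    intro j; have := hst j 0 m0; rwa [α0] at this
  have hsb' : ∀ j, Step Y t₀ N φ (3 * δ / 4) (q j) (κ j 1) (s j 1) ∧
      κ (j + 1) 1 = φ (3 * δ / 4) (s j 1) (κ j 1) := by
    intro j; have := hst j 1 m1; rwa [α1] at this
  have hsc' : ∀ j, Step Y t₀ N φ (δ / 4) (q j) (κ j (-1)) (s j (-1)) ∧
      κ (j + 1) (-1) = φ (δ / 4) (s j (-1)) (κ j (-1)) := by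
    intro j; have := hst j (-1) mm; rwa [αm] at this
  have hA0 : κ 0 0 ∈ CA := by
    rw [hκ0, hκ₀]
    simp only [neg_zero, max_self, zero_mul, add_zero, (hΓ 0).zero]
    exact ha0
  have hB0 : κ 0 1 ∈ CB := by
    rw [hκ0, hκ₀]
    have h1 : max (1 : ℝ) 0 * Tb + max (-1) 0 * Tc = Tb := by norm_num
    simp only [h1]
    exact hTbC
  have hC0 : κ 0 (-1) ∈ CC := by
    rw [hκ0, hκ₀]
    have h1 : max (-1 : ℝ) 0 * Tb + max (-(-1)) 0 * Tc = Tc := by norm_num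
    simp only [h1]
    exact hTcC
  have hAm := Leaf.steps_mem hY1 hφ hIa lA hAR hA0 hsa'
  have hBm := Leaf.steps_mem hY1 hφ hIb lB hBR hB0 hsb'
  have hCm := Leaf.steps_mem hY1 hφ hIc lC hCR hC0 hsc'
  obtain ⟨J, hJ, hJ0, hinj⟩ :=
    Leaf.return h hφ hIa lA hAR hA0 (fun j => hL j 0 m0) hsa'
  -- the strand segments
  have hsegB : ∀ j, ∃ T : ℝ, 0 < T ∧ Seg (Γ (kk j)) (Lst Y t₀ N ((D₁ ∪ C₁) \ D₂) (kk j)) (κ j 0) T ∧
      Γ (kk j) T (κ j 0) = κ j 1 := fun j =>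
    triple_conn h (hΓ (kk j)) (hκj j) (hL j) m0 m1 hIb' lB (hAB (Or.inr (hAm j))) (hBm j)
  have hsegC : ∀ j, ∃ T : ℝ, 0 < T ∧ Seg (Γ (kk j)) (Lst Y t₀ N ((D₁ ∪ C₁) \ D₂) (kk j)) (κ j 0) T ∧
      Γ (kk j) T (κ j 0) = κ j (-1) := fun j =>
    triple_conn h (hΓ (kk j)) (hκj j) (hL j) m0 mm hIc' lC (hAC (Or.inr (hAm j))) (hCm j)
  choose TB hTB hsB hTBe using hsegB
  choose TC hTC hsC hTCe using hsegC
  -- return of the other leaves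
  have hdir0 : dirv (angk t₀ N (kk J)) = dirv (angk t₀ N (kk 0)) := by
    have h1 := hL J 0 m0
    rw [hJ0] at h1
    exact (h.lst_mod h1 (hL 0 0 m0)).1
  have hLJ : ∀ τ ∈ Set.Icc (-1 : ℝ) 1, κ J τ ∈ Lst Y t₀ N ((D₁ ∪ C₁) \ D₂) (kk 0) := by
    intro τ hτ
    rw [← lst_congr hdir0]
    exact hL J τ hτ
  have hretB : κ J 1 = κ 0 1 := by
    obtain ⟨T, -, h2, h3⟩ := triple_conn h (hΓ (kk 0)) (hκj J) hLJ m0 m1 hIb' lB
      (hAB (Or.inr (hAm J))) (hBm J)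
    rw [hJ0] at h2 h3
    have h4 := (hΓ (kk 0)).time_unique h hIb' lB (hAB (Or.inr (hAm 0))) h2
      (by rw [h3]; exact hBm J) (hsB 0) (by rw [hTBe]; exact hBm 0)
    rw [← h3, h4, hTBe]
  have hretC : κ J (-1) = κ 0 (-1) := by
    obtain ⟨T, -, h2, h3⟩ := triple_conn h (hΓ (kk 0)) (hκj J) hLJ m0 mm hIc' lC
      (hAC (Or.inr (hAm J))) (hCm J)
    rw [hJ0] at h2 h3
    have h4 := (hΓ (kk 0)).time_unique h hIc' lC (hAC (Or.inr (hAm 0))) h2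
      (by rw [h3]; exact hCm J) (hsC 0) (by rw [hTCe]; exact hCm 0)
    rw [← h3, h4, hTCe]
  -- the directions of the chords
  have hang : ∀ {T : ℝ} {j : ℕ} (_ : 0 < T)
      (_ : Seg (Γ (kk j)) (Lst Y t₀ N ((D₁ ∪ C₁) \ D₂) (kk j)) (κ j 0) T),
      ∃ ρ ψ : ℝ, 0 < ρ ∧ ψ ∈ Set.Ioo (angk t₀ N (kk j) + δ - Real.pi) (angk t₀ N (kk j)) ∧
        Γ (kk j) T (κ j 0) - κ j 0 = ρ • dirv ψ ∧ ρ = nm (Γ (kk j) T (κ j 0) - κ j 0) := by
    intro T j hT hs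
    have h1 := (hΓ (kk j)).cone h hT hs (a := 0) ⟨le_rfl, hδ.le⟩
    have h2 := (hΓ (kk j)).cone h hT hs (a := δ) ⟨hδ.le, le_rfl⟩
    rw [add_zero] at h1
    exact exists_cone_angle hδ h.δle h1 h2
  choose Rb φb hRb hφb hdb hRbn using fun j => hang (hTB j) (hsB j)
  choose Rc φc hRc hφc hdc hRcn using fun j => hang (hTC j) (hsC j)
  have hpoly := triple_poly h hφ lB hBR hJ (kk := kk) (q := q) (a := fun j => κ j 0)
    (b := fun j => κ j 1) (c := fun j => κ j (-1)) (φb := φb) (φc := φc) (Rb := Rb) (Rc := Rc)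
    hq hk (fun j => hL j 0 m0) (fun j => hL j 1 m1) (fun j => hL j (-1) mm) hsa' hsb' hsc' hJ0
    hretB hretC hB0 (fun j => hAB (Or.inr (hAm j)))
    (fun j => ⟨hRb j, hφb j, by rw [← hTBe]; exact hdb j, by rw [← hTBe]; exact hRbn j⟩)
    (fun j => ⟨hRc j, hφc j, by rw [← hTCe]; exact hdc j, by rw [← hTCe]; exact hRcn j⟩)
  -- the shifts
  choose k' m hk'N hkm hkd using fun j : ℕ => dirv_angk_mod t₀ hNpos (kk j)
  have hT : ∀ j, TB j ∈ Set.Ioc 0 (max (TB j) (TC j)) ∧ TC j ∈ Set.Ioc 0 (max (TB j) (TC j)) :=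
    fun j => ⟨⟨hTB j, le_max_left _ _⟩, ⟨hTC j, le_max_right _ _⟩⟩
  have hseg : ∀ j, Seg (Γ (kk j)) (Lst Y t₀ N ((D₁ ∪ C₁) \ D₂) (kk j)) (κ j 0)
      (max (TB j) (TC j)) := by
    intro j
    rcases le_total (TB j) (TC j) with h1 | h1
    · rw [max_eq_right h1]; exact hsC j
    · rw [max_eq_left h1]; exact hsB j
  have hdirs : ∀ (ψ : ℝ) (i : ℤ), dirv (ψ + i * (2 * Real.pi)) = dirv ψ := by
    intro ψ i
    simp only [dirv, Real.cos_add_int_mul_two_pi, Real.sin_add_int_mul_two_pi]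
  set lo : Fin J → ℝ := fun x => min (φb (x + 1)) (φc (x + 1)) - m (x + 1) * (2 * Real.pi)
    with hlo
  set hi : Fin J → ℝ := fun x => max (φb (x + 1)) (φc (x + 1)) - m (x + 1) * (2 * Real.pi)
    with hhi
  have hroll : ∀ (x : Fin J) (ψ : ℝ), ψ ∈ Set.Ioo (lo x) (hi x) →
      ∃ t ∈ Set.Ioo 0 (max (TB (x + 1)) (TC (x + 1))),
        det2 (fderiv ℝ Y (Γ (kk (x + 1)) t (κ (x + 1) 0)) (dirv ψ))
          (Y (Γ (kk (x + 1)) t (κ (x + 1) 0))) = 0 := by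
    intro x ψ hψ
    have h1 := (hΓ (kk (x + 1))).rolle h (hseg (x + 1)) (hT (x + 1)).1 (hT (x + 1)).2
      (hRb _) (hRc _) (hdb _) (hdc _) (hφb _) (hφc _) (ψ := ψ + m (x + 1) * (2 * Real.pi))
      ⟨by have := hψ.1; rw [hlo] at this; simp only at this; linarith,
        by have := hψ.2; rw [hhi] at this; simp only at this; linarith⟩
    obtain ⟨t, ht, h2⟩ := h1
    rw [hdirs] at h2
    exact ⟨t, ht, h2⟩
  choose! tt htt htd using hroll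
  refine ⟨Fin J, inferInstance, lo, hi, ?_, ?_, ?_⟩
  · intro x
    have h1 := hφb (x + 1)
    have h2 := hφc (x + 1)
    rw [hkm (x + 1)] at h1 h2
    have h3 : angk t₀ N ((k' (x + 1) : ℕ) : ℤ) = t₀ + k' (x + 1) * (2 * Real.pi / N) := by
      unfold angk
      push_cast
      ring
    rw [h3] at h1 h2
    have h4 : (0 : ℝ) ≤ k' (x + 1) * (2 * Real.pi / N) := by positivity
    have h5 : (k' (x + 1) : ℝ) * (2 * Real.pi / N) ≤ 2 * Real.pi := by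
      have h6 : (k' (x + 1) : ℝ) ≤ N := by exact_mod_cast (hk'N (x + 1)).le
      calc (k' (x + 1) : ℝ) * (2 * Real.pi / N) ≤ N * (2 * Real.pi / N) := by gcongr
        _ = 2 * Real.pi := by field_simp
    refine ⟨?_, ?_, ?_⟩
    · rw [hlo]
      simp only
      rcases min_choice (φb (x + 1)) (φc (x + 1)) with h6 | h6 <;> rw [h6] <;>
        linarith [h1.1, h2.1]
    · rw [hlo, hhi]
      simp only
      have := (min_le_left (φb (x + 1)) (φc (x + 1))).trans (le_max_left _ (φc (x + 1)))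
      linarith
    · rw [hhi]
      simp only
      rcases max_choice (φb (x + 1)) (φc (x + 1)) with h6 | h6 <;> rw [h6] <;>
        linarith [h1.2, h2.2]
  · refine hpoly.trans ?_
    rw [Finset.sum_range]
    refine Finset.sum_le_sum fun x _ => ?_
    rw [hlo, hhi]
    simp only
    have h1 := max_sub_min_eq_abs (φb (x + 1)) (φc (x + 1))
    have h2 : max (φb (↑x + 1)) (φc (↑x + 1)) - ↑(m (↑x + 1)) * (2 * Real.pi) -
        (min (φb (↑x + 1)) (φc (↑x + 1)) - ↑(m (↑x + 1)) * (2 * Real.pi)) =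
        max (φb (↑x + 1)) (φc (↑x + 1)) - min (φb (↑x + 1)) (φc (↑x + 1)) := by ring
    rw [h2, h1]
  · intro ψ
    refine ⟨fun x => Γ (kk (x + 1)) (tt x ψ) (κ (x + 1) 0), ?_, ?_⟩
    · intro x hx
      have ht := htt x ψ hx
      have hmem : Γ (kk (x + 1)) (tt x ψ) (κ (x + 1) 0) ∈
          Lst Y t₀ N ((D₁ ∪ C₁) \ D₂) (kk (x + 1)) := by
        refine hseg (x + 1) _ ?_
        rw [Set.uIcc_of_le (ht.1.trans ht.2).le]
        exact ⟨ht.1.le, ht.2.le⟩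
      refine ⟨⟨?_, ?_⟩, ?_, htd x ψ hx⟩
      · rcases le_total (TB (x + 1)) (TC (x + 1)) with h1 | h1
        · refine Or.inr (Or.inl ?_)
          rw [max_eq_right h1] at ht
          exact (hΓ _).before h hIc' lC (hAC (Or.inr (hAm _))) (hsC (x + 1))
            (by rw [hTCe]; exact hCm _) _ ⟨ht.1.le, ht.2⟩
        · refine Or.inl (Or.inl ?_)
          rw [max_eq_left h1] at ht
          exact (hΓ _).before h hIb' lB (hAB (Or.inr (hAm _))) (hsB (x + 1))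
            (by rw [hTBe]; exact hBm _) _ ⟨ht.1.le, ht.2⟩
      · intro hA
        exact (hΓ _).cross h hIa' lA (hAm _) (hseg (x + 1)) _ ⟨ht.1, ht.2.le⟩ (Or.inl hA)
      · refine ⟨k' (x + 1), hk'N _, ?_⟩
        obtain ⟨-, ρ, -, hρ⟩ := hmem
        rw [hρ, ← hkd, rb_det2_smul_left, rb_det2_self, mul_zero]
    · intro x y hx hy hxy
      have h1 := triple_inj h hΓ hIa' lA (hAm (x + 1)) (hAm (y + 1)) (htt x ψ hx) (htt y ψ hy)
        (hseg (x + 1)) (hseg (y + 1)) hxy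
      have hx' := x.2
      have hy' := y.2
      apply Fin.ext
      by_cases hxJ : (x : ℕ) + 1 = J
      · by_cases hyJ : (y : ℕ) + 1 = J
        · omega
        · exfalso
          rw [hxJ, hJ0] at h1
          have := hinj 0 hJ (y + 1) (by omega) h1
          omega
      · by_cases hyJ : (y : ℕ) + 1 = J
        · exfalso
          rw [hyJ, hJ0] at h1
          have := hinj (x + 1) (by omega) 0 hJ h1
          omega
        · have := hinj (x + 1) (by omega) (y + 1) (by omega) h1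
          omega

end Pool.Agent.Lib.MP_95e7ec_an
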