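import Mathlib
import Pool.Agent.Lib.MP_95e7ec_an.Rb.Rel
import Pool.Agent.Lib.MP_95e7ec_an.Rb.Order
import Pool.Agent.Lib.MP_95e7ec_an.Rc.Triple
import Pool.Agent.Lib.MP_95e7ec_an.Rc.CostLem

/-!
# Rc, Chain: the cost of a chain of families with the same special points
-/

set_option autoImplicit false

open Set Filter Topology MeasureTheory
open scoped ContDiff ENNReal

namespace Pool.Agent.Lib.MP_95e7ec_an

variable {Y : ℝ × ℝ → ℝ × ℝ} {δ t₀ : ℝ} {N : ℕ} {C₁ D₁ C₂ D₂ : Set (ℝ × ℝ)}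

theorem Fml.leaf (F : Fml Y δ) {a : ℝ} (ha : a ∈ Set.Icc 0 δ) : Leaf Y a (F.C a) (F.D a) :=
  ⟨F.orb a ha, F.jp a ha, F.side a ha⟩

theorem Fml.mem_hull (F : Fml Y δ) {a : ℝ} (ha : a ∈ Set.Icc 0 δ) :
    F.D a ∪ F.C a ⊆ F.hull := fun _ hz => Set.mem_biUnion ha hz

theorem Fml.Below.hull_sub {F F' : Fml Y δ} (h : F.Below F') {b : ℝ} (hb : b ∈ Set.Icc 0 δ) :
    F.hull ⊆ F'.D b := by
  intro z hz
  simp only [Fml.hull, Set.mem_iUnion, exists_prop] at hz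
  obtain ⟨a, ha, hza⟩ := hz
  exact h a ha b hb hza

/-- the cost of a chain of families in a ring, two by two from the top -/
theorem pairs_cost (h : Ring Y δ t₀ N C₁ D₁ C₂ D₂) {ι : Type*} [DecidableEq ι] (F : ι → Fml Y δ)
    (T : Finset ι)
    (htot : ∀ i ∈ T, ∀ j ∈ T, i ≠ j → (F i).Below (F j) ∨ (F j).Below (F i))
    (hlow : ∀ i ∈ T, ∀ a ∈ Set.Icc 0 δ, D₂ ∪ C₂ ⊆ (F i).D a)
    (hhigh : ∀ i ∈ T, ∀ a ∈ Set.Icc 0 δ, (F i).D a ∪ (F i).C a ⊆ D₁) :
    Cost Y t₀ N ((⋃ i ∈ T, (F i).hull) \ D₂)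
      ((T.card - 1) / 2 * (δ ^ 3 / (400 * (2 * Real.pi / N)))) := by
  have hδ := h.δpos
  have hNr : (0 : ℝ) < N := by exact_mod_cast h.Npos
  have hpi := Real.pi_pos
  set x : ℝ := δ ^ 3 / (400 * (2 * Real.pi / N)) with hx
  have hxpos : 0 ≤ x := by positivity
  induction T using Finset.strongInduction with
  | H T ih =>
    rcases Nat.lt_or_ge T.card 2 with hc | hc
    · refine Cost.zero _ ?_
      have h1 : (T.card : ℝ) ≤ 1 := by exact_mod_cast (by omega : T.card ≤ 1)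
      nlinarith
    · -- the two top families
      obtain ⟨t₁, ht₁, ht₁'⟩ := exists_bottom (fun i j => (F j).Below (F i)) T
        (Finset.card_pos.1 (by omega)) (fun i hi j hj hij => (htot i hi j hj hij).symm)
        (fun i j k h1 h2 => Fml.Below.trans hδ.le h2 h1)
      set T₁ := T.erase t₁ with hT₁
      have hc₁ : T₁.card = T.card - 1 := Finset.card_erase_of_mem ht₁
      have hsub₁ : ∀ i ∈ T₁, i ∈ T := fun i hi => Finset.mem_of_mem_erase hi
      obtain ⟨t₂, ht₂, ht₂'⟩ := exists_bottom (fun i j => (F j).Below (F i)) T₁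
        (Finset.card_pos.1 (by omega))
        (fun i hi j hj hij => (htot i (hsub₁ i hi) j (hsub₁ j hj) hij).symm)
        (fun i j k h1 h2 => Fml.Below.trans hδ.le h2 h1)
      set T₂ := T₁.erase t₂ with hT₂
      have hc₂ : T₂.card = T₁.card - 1 := Finset.card_erase_of_mem ht₂
      have hsub₂ : ∀ i ∈ T₂, i ∈ T₁ := fun i hi => Finset.mem_of_mem_erase hi
      have hss : T₂ ⊂ T :=
        (Finset.erase_ssubset ht₂).trans (Finset.erase_ssubset ht₁)
      have h21 : (F t₂).Below (F t₁) := ht₁' t₂ (hsub₁ t₂ ht₂) (Finset.ne_of_mem_erase ht₂)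
      have hT₂2 : ∀ i ∈ T₂, (F i).Below (F t₂) := fun i hi =>
        ht₂' i (hsub₂ i hi) (Finset.ne_of_mem_erase hi)
      have ih2 := ih T₂ hss
        (fun i hi j hj => htot i (hsub₁ i (hsub₂ i hi)) j (hsub₁ j (hsub₂ j hj)))
        (fun i hi => hlow i (hsub₁ i (hsub₂ i hi))) (fun i hi => hhigh i (hsub₁ i (hsub₂ i hi)))
      have hIa : δ / 2 ∈ Set.Icc 0 δ := ⟨by linarith, by linarith⟩
      have hIb : 3 * δ / 4 ∈ Set.Icc 0 δ := ⟨by linarith, by linarith⟩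
      have hIc : δ / 4 ∈ Set.Icc 0 δ := ⟨by linarith, by linarith⟩
      have htr := triple_cost h ((F t₂).leaf hIa) ((F t₁).leaf hIb) ((F t₁).leaf hIc)
        (hlow t₂ (hsub₁ t₂ ht₂) _ hIa) (h21 _ hIa _ hIb) (h21 _ hIa _ hIc)
        (hhigh t₁ ht₁ _ hIb) (hhigh t₁ ht₁ _ hIc)
      rw [← hx] at htr
      have hdisj : Disjoint ((⋃ i ∈ T₂, (F i).hull) \ D₂)
          (((F t₁).D (3 * δ / 4) ∪ (F t₁).C (3 * δ / 4) ∪
            ((F t₁).D (δ / 4) ∪ (F t₁).C (δ / 4))) \ (F t₂).D (δ / 2)) := by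
        rw [Set.disjoint_left]
        rintro z ⟨hz, -⟩ ⟨-, hz'⟩
        simp only [Set.mem_iUnion, exists_prop] at hz
        obtain ⟨i, hi, hzi⟩ := hz
        exact hz' ((hT₂2 i hi).hull_sub hIa hzi)
      refine (Cost.union hdisj ih2 htr).mono ?_ ?_
      · rintro z (⟨hz, hz2⟩ | ⟨hz, hz2⟩)
        · refine ⟨?_, hz2⟩
          simp only [Set.mem_iUnion, exists_prop] at hz ⊢
          obtain ⟨i, hi, hzi⟩ := hz
          exact ⟨i, hsub₁ i (hsub₂ i hi), hzi⟩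
        · refine ⟨?_, fun h2 => hz2 (hlow t₂ (hsub₁ t₂ ht₂) _ hIa (Or.inl h2))⟩
          refine Set.mem_biUnion ht₁ ?_
          rcases hz with hz | hz
          · exact (F t₁).mem_hull hIb hz
          · exact (F t₁).mem_hull hIc hz
      · have h3 : (T₂.card : ℝ) = T.card - 2 := by
          have : T₂.card + 2 = T.card := by omega
          rw [← this]; push_cast; ring
        rw [h3]
        linarith

/-- **The cost of a chain.** -/
theorem chain_cost (hY : ContDiff ℝ 2 Y) (hδ : 0 < δ) (hδ1 : δ ≤ 1) {ι : Type*} [DecidableEq ι]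
    (F : ι → Fml Y δ) (s : Finset ι)
    (hdis : ∀ i ∈ s, ∀ j ∈ s, i ≠ j → ∀ a ∈ Set.Icc 0 δ, Disjoint ((F i).C a) ((F j).C a))
    (hN : 0 < N) (hNδ : 2 * Real.pi / N ≤ δ / 200) {S : Set (ℝ × ℝ)}
    (hS : ∀ k < N, ∀ z : ℝ × ℝ, det2 (Y z) (dirv (t₀ + k * (2 * Real.pi / N))) = 0 →
      cur Y 0 z * cur Y δ z = 0 → z ∈ S)
    {A : Set (ℝ × ℝ)} (hA : A.Nonempty) (hF : ∀ i ∈ s, S ∩ (F i).hull = A) :
    ∃ Reg : Set (ℝ × ℝ),
      Cost Y t₀ N Reg ((s.card - 4) / 2 * (δ ^ 3 / (400 * (2 * Real.pi / N)))) ∧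
      ∀ z ∈ Reg, (∃ i ∈ s, z ∈ (F i).hull) ∧ ∃ i ∈ s, z ∉ (F i).D δ := by
  have hY1 : ContDiff ℝ 1 Y := hY.of_le one_le_two
  have h0 : (0 : ℝ) ∈ Set.Icc 0 δ := ⟨le_rfl, hδ.le⟩
  have hδI : δ ∈ Set.Icc 0 δ := ⟨hδ.le, le_rfl⟩
  have hNr : (0 : ℝ) < N := by exact_mod_cast hN
  have hpi := Real.pi_pos
  rcases Nat.lt_or_ge 4 s.card with hcard | hcard
  swap
  · refine ⟨∅, Cost.zero _ ?_, fun z hz => absurd hz (Set.notMem_empty z)⟩
    have h1 : (s.card : ℝ) ≤ 4 := by exact_mod_cast hcard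
    have h2 : 0 ≤ δ ^ 3 / (400 * (2 * Real.pi / N)) := by positivity
    nlinarith
  -- the order
  set r : ι → ι → Prop := fun i j => (F i).Below (F j) with hr
  have htr : ∀ i j k, r i j → r j k → r i k := fun i j k h h' => Fml.Below.trans hδ.le h h'
  have htot : ∀ i ∈ s, ∀ j ∈ s, i ≠ j → r i j ∨ r j i := by
    intro i hi j hj hij
    rcases fml_rel hY1 hδ.le hδ1 (F i) (F j) (hdis i hi j hj hij) with h | h | h
    · exact Or.inl h
    · exact Or.inr h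
    · exfalso
      obtain ⟨z, hz⟩ := hA
      have hzi : z ∈ (F i).hull := by rw [← hF i hi] at hz; exact hz.2
      have hzj : z ∈ (F j).hull := by rw [← hF j hj] at hz; exact hz.2
      simp only [Fml.hull, Set.mem_iUnion, exists_prop] at hzi hzj
      obtain ⟨a, ha, hza⟩ := hzi
      obtain ⟨b, hb, hzb⟩ := hzj
      exact Set.disjoint_left.1 (h a ha b hb) hza hzb
  obtain ⟨b0, hb0, hb0'⟩ := exists_bottom r s (Finset.card_pos.1 (by omega)) htot htr
  set s1 := s.erase b0 with hs1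
  have hc1 : s1.card = s.card - 1 := Finset.card_erase_of_mem hb0
  have hsub1 : ∀ i ∈ s1, i ∈ s := fun i hi => Finset.mem_of_mem_erase hi
  obtain ⟨b1, hb1, hb1'⟩ := exists_bottom r s1 (Finset.card_pos.1 (by omega))
    (fun i hi j hj => htot i (hsub1 i hi) j (hsub1 j hj)) htr
  set s2 := s1.erase b1 with hs2
  have hc2 : s2.card = s1.card - 1 := Finset.card_erase_of_mem hb1
  have hsub2 : ∀ i ∈ s2, i ∈ s1 := fun i hi => Finset.mem_of_mem_erase hi
  obtain ⟨tt, htt, htt'⟩ := exists_bottom (fun i j => r j i) s2 (Finset.card_pos.1 (by omega))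
    (fun i hi j hj hij => (htot i (hsub1 i (hsub2 i hi)) j (hsub1 j (hsub2 j hj)) hij).symm)
    (fun i j k h h' => htr _ _ _ h' h)
  set T := s2.erase tt with hT
  have hcT : T.card = s2.card - 1 := Finset.card_erase_of_mem htt
  have hsubT : ∀ i ∈ T, i ∈ s2 := fun i hi => Finset.mem_of_mem_erase hi
  have hTs : ∀ i ∈ T, i ∈ s := fun i hi => hsub1 i (hsub2 i (hsubT i hi))
  have h01 : r b0 b1 := hb0' b1 (hsub1 b1 hb1) (Finset.ne_of_mem_erase hb1)
  have hb1T : ∀ i ∈ T, r b1 i := fun i hi =>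
    hb1' i (hsub2 i (hsubT i hi)) (Finset.ne_of_mem_erase (hsubT i hi))
  have hTt : ∀ i ∈ T, r i tt := fun i hi => htt' i (hsubT i hi) (Finset.ne_of_mem_erase hi)
  have h1t : r b1 tt := hb1' tt (hsub2 tt htt) (Finset.ne_of_mem_erase htt)
  have htts : tt ∈ s := hsub1 tt (hsub2 tt htt)
  have hb1s : b1 ∈ s := hsub1 b1 hb1
  -- the ring
  have hring : Ring Y δ t₀ N ((F tt).C 0) ((F tt).D 0) ((F b1).C δ) ((F b1).D δ) := by
    refine ⟨hY, hδ, hδ1, hN, hNδ, (F tt).jp 0 h0, (F b1).jp δ hδI, ?_, (F b1).side δ hδI,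
      h1t δ hδI 0 h0, ?_⟩
    · have := (F tt).side 0 h0
      rwa [rb_turn_zero] at this
    · intro k hk w hw hw0 hcon
      have h1 := hS k hk w hw0 hcon
      have h2 : w ∈ A := by
        rw [← hF tt htts]
        exact ⟨h1, (F tt).mem_hull h0 hw.1⟩
      rw [← hF b0 hb0] at h2
      exact hw.2 (Fml.Below.hull_sub h01 hδI h2.2)
  refine ⟨_, (pairs_cost hring F T (fun i hi j hj => htot i (hTs i hi) j (hTs j hj))
    (fun i hi a ha => hb1T i hi δ hδI a ha) (fun i hi a ha => hTt i hi a ha 0 h0)).mono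
      subset_rfl ?_, ?_⟩
  · have h3 : (T.card : ℝ) = s.card - 3 := by
      have : T.card + 3 = s.card := by omega
      rw [← this]; push_cast; ring
    rw [h3]
    have h2 : 0 ≤ δ ^ 3 / (400 * (2 * Real.pi / N)) := by positivity
    refine le_of_eq ?_
    ring
  · rintro z ⟨hz, hz2⟩
    simp only [Set.mem_iUnion, exists_prop] at hz
    obtain ⟨i, hi, hzi⟩ := hz
    exact ⟨⟨i, hTs i hi, hzi⟩, ⟨b1, hb1s, hz2⟩⟩

end Pool.Agent.Lib.MP_95e7ec_an
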