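import Mathlib
import Pool.Agent.Lib.MP_95e7ec_an.Rc.Defs

/-!
# Rc, CostLe: upper bound of the cost
-/

set_option autoImplicit false

open Set Filter Topology MeasureTheory
open scoped ContDiff ENNReal

namespace Pool.Agent.Lib.MP_95e7ec_an

variable {Y : ℝ × ℝ → ℝ × ℝ} {t₀ : ℝ} {N : ℕ}

/-- If for all `ψ` outside a countable set there are at most `M` points with the two properties, then
every cost is at most `3 π M`. Proof: `∑ (hi - lo) = ∑ ∫ 1_{(lo, hi)} = ∫_{t₀ - π}^{t₀ + 2π} #{x | ψ ∈ (lo x, hi x)}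
dψ`, and for almost all `ψ` the number is at most `M` (the image of `{x | ψ ∈ Ioo (lo x) (hi x)}` under
`z` is a finite set with the same number of elements). -/
theorem cost_le {Reg : Set (ℝ × ℝ)} {c M : ℝ} (h : Cost Y t₀ N Reg c) (hM0 : 0 ≤ M)
    {Ψ : Set ℝ} (hΨ : Ψ.Countable)
    (hM : ∀ ψ : ℝ, ψ ∉ Ψ → ∀ Z : Finset (ℝ × ℝ),
      (∀ z ∈ Z, (∃ k : ℕ, k < N ∧ det2 (Y z) (dirv (t₀ + k * (2 * Real.pi / N))) = 0) ∧
        det2 (fderiv ℝ Y z (dirv ψ)) (Y z) = 0) → (Z.card : ℝ) ≤ M) :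
    c ≤ 3 * Real.pi * M := by
  classical
  obtain ⟨ι, hf, lo, hi, h1, h2, h3⟩ := h
  refine le_trans h2 ?_
  -- the integrals
  have hint : ∀ x, IntegrableOn (fun ψ => (Set.Ioo (lo x) (hi x)).indicator (fun _ => (1 : ℝ)) ψ)
      (Set.Icc (t₀ - Real.pi) (t₀ + 2 * Real.pi)) volume := by
    intro x
    refine (integrable_indicator_iff measurableSet_Ioo).2 ?_
    refine integrableOn_const ?_
    refine ne_of_lt (lt_of_le_of_lt (Measure.restrict_apply_le _ _) ?_)
    simp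
  have hone : ∀ x, ∫ ψ in Set.Icc (t₀ - Real.pi) (t₀ + 2 * Real.pi),
      (Set.Ioo (lo x) (hi x)).indicator (fun _ => (1 : ℝ)) ψ = hi x - lo x := by
    intro x
    obtain ⟨hx1, hx2, hx3⟩ := h1 x
    rw [setIntegral_indicator measurableSet_Ioo]
    have : Set.Icc (t₀ - Real.pi) (t₀ + 2 * Real.pi) ∩ Set.Ioo (lo x) (hi x) =
        Set.Ioo (lo x) (hi x) := by
      apply Set.inter_eq_self_of_subset_right
      intro y hy
      exact ⟨le_trans hx1 hy.1.le, le_trans hy.2.le hx3⟩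
    rw [this]
    simp [hx2]
  have hsum : ∑ x, (hi x - lo x) = ∫ ψ in Set.Icc (t₀ - Real.pi) (t₀ + 2 * Real.pi),
      ∑ x, (Set.Ioo (lo x) (hi x)).indicator (fun _ => (1 : ℝ)) ψ := by
    rw [integral_finsetSum _ (fun x _ => hint x)]
    exact Finset.sum_congr rfl fun x _ => (hone x).symm
  rw [hsum]
  have hfin : volume (Set.Icc (t₀ - Real.pi) (t₀ + 2 * Real.pi)) ≠ ⊤ := by simp
  have hbound : ∀ᵐ ψ ∂(volume.restrict (Set.Icc (t₀ - Real.pi) (t₀ + 2 * Real.pi))),
      ∑ x, (Set.Ioo (lo x) (hi x)).indicator (fun _ => (1 : ℝ)) ψ ≤ M := by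
    have hae : ∀ᵐ ψ ∂(volume.restrict (Set.Icc (t₀ - Real.pi) (t₀ + 2 * Real.pi))), ψ ∉ Ψ := by
      refine ae_restrict_of_ae ?_
      exact (hΨ.ae_notMem volume)
    filter_upwards [hae] with ψ hψ
    obtain ⟨z, hz1, hz2⟩ := h3 ψ
    set S : Finset ι := Finset.univ.filter fun x => ψ ∈ Set.Ioo (lo x) (hi x) with hS
    have hSmem : ∀ x, x ∈ S ↔ ψ ∈ Set.Ioo (lo x) (hi x) := by
      intro x
      simp [hS]
    have hcard : ∑ x, (Set.Ioo (lo x) (hi x)).indicator (fun _ => (1 : ℝ)) ψ = (S.card : ℝ) := by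
      rw [Finset.card_eq_sum_ones, Nat.cast_sum, hS, Finset.sum_filter]
      refine Finset.sum_congr rfl fun x _ => ?_
      by_cases hx : ψ ∈ Set.Ioo (lo x) (hi x)
      · rw [Set.indicator_of_mem hx, if_pos hx]
        simp
      · rw [Set.indicator_of_notMem hx, if_neg hx]
    rw [hcard]
    have himg : (S.image z).card = S.card := by
      refine Finset.card_image_of_injOn ?_
      intro x hx y hy hxy
      exact hz2 x y ((hSmem x).1 hx) ((hSmem y).1 hy) hxy
    rw [← himg]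
    refine hM ψ hψ _ ?_
    intro w hw
    obtain ⟨x, hx, rfl⟩ := Finset.mem_image.1 hw
    exact (hz1 x ((hSmem x).1 hx)).2
  calc ∫ ψ in Set.Icc (t₀ - Real.pi) (t₀ + 2 * Real.pi),
      ∑ x, (Set.Ioo (lo x) (hi x)).indicator (fun _ => (1 : ℝ)) ψ
      ≤ ∫ ψ in Set.Icc (t₀ - Real.pi) (t₀ + 2 * Real.pi), M := by
        refine integral_mono_ae ?_ ?_ hbound
        · exact integrable_finsetSum _ fun x _ => hint x
        · exact integrableOn_const hfin
    _ = 3 * Real.pi * M := by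
        rw [setIntegral_const, smul_eq_mul, Measure.real, Real.volume_Icc,
          ENNReal.toReal_ofReal (by have := Real.pi_pos; linarith)]
        ring

end Pool.Agent.Lib.MP_95e7ec_an
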