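import Mathlib
import Pool.Agent.Lib.MP_95e7ec_an.Rb.CurPoly

/-!
# Rc, GPoly: polynomials of the tangencies
-/

set_option autoImplicit false

open Set Filter Topology MeasureTheory
open scoped ContDiff ENNReal

namespace Pool.Agent.Lib.MP_95e7ec_an

private theorem gPoly_degree_pderiv (F : MvPolynomial (Fin 2) ℝ) (i : Fin 2) :
    (MvPolynomial.pderiv i F).totalDegree ≤ F.totalDegree := by
  classical
  by_cases h : MvPolynomial.pderiv i F = 0
  · rw [h]; simp
  have hne : (MvPolynomial.pderiv i F).support.Nonempty := MvPolynomial.support_nonempty.mpr h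
  obtain ⟨m, hm, hmd⟩ := Finset.exists_mem_eq_sup _ hne (fun s : Fin 2 →₀ ℕ => s.sum fun _ e => e)
  have h1 : (MvPolynomial.pderiv i F).totalDegree = m.sum fun _ e => e := hmd
  rw [h1]
  have h2 : m + Finsupp.single i 1 ∈ F.support := by
    rw [MvPolynomial.mem_support_iff] at hm ⊢
    rw [MvPolynomial.coeff_pderiv] at hm
    exact left_ne_zero_of_mul hm
  have h3 := MvPolynomial.le_totalDegree h2
  rw [Finsupp.sum_add_index' (fun _ => rfl) (fun _ _ _ => rfl)] at h3
  have h4 : (Finsupp.single i 1).sum (fun (_ : Fin 2) (e : ℕ) => e) = 1 := by simp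
  omega

private theorem gPoly_hasFDerivAt (P : MvPolynomial (Fin 2) ℝ) (z : ℝ × ℝ) :
    HasFDerivAt (fun z : ℝ × ℝ => MvPolynomial.eval ![z.1, z.2] P)
      (MvPolynomial.eval ![z.1, z.2] (MvPolynomial.pderiv 0 P) • ContinuousLinearMap.fst ℝ ℝ ℝ +
        MvPolynomial.eval ![z.1, z.2] (MvPolynomial.pderiv 1 P) •
          ContinuousLinearMap.snd ℝ ℝ ℝ) z := by
  induction P using MvPolynomial.induction_on with
  | C a =>
    simpa using hasFDerivAt_const (𝕜 := ℝ) a z
  | add p q hp hq =>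
    have h := hp.add hq
    simp only [map_add]
    refine h.congr_fderiv ?_
    ext <;> simp
  | mul_X p i hp =>
    simp only [map_mul, MvPolynomial.eval_X]
    have hi : HasFDerivAt (fun z : ℝ × ℝ => (![z.1, z.2] : Fin 2 → ℝ) i)
        (if i = 0 then ContinuousLinearMap.fst ℝ ℝ ℝ else ContinuousLinearMap.snd ℝ ℝ ℝ) z := by
      fin_cases i
      · simpa using (hasFDerivAt_fst (𝕜 := ℝ) (p := z))
      · simpa using (hasFDerivAt_snd (𝕜 := ℝ) (p := z))
    have h := hp.mul hi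
    refine h.congr_fderiv ?_
    fin_cases i
    · ext <;> simp [Derivation.leibniz, MvPolynomial.pderiv_X]
    · ext <;> simp [Derivation.leibniz, MvPolynomial.pderiv_X]

/-- Polynomials for `det2 (DY (1,0)) Y` and `det2 (DY (0,1)) Y`, `Y = vf P Q`: `P_x Q - Q_x P` and
`P_y Q - Q_y P` (see Rb/CurPoly.lean for the derivatives). -/
theorem exists_G_poly {n : ℕ} {P Q : MvPolynomial (Fin 2) ℝ} (hP : P.totalDegree ≤ n)
    (hQ : Q.totalDegree ≤ n) :
    ∃ G₀ G₁ : MvPolynomial (Fin 2) ℝ, G₀.totalDegree ≤ 2 * n ∧ G₁.totalDegree ≤ 2 * n ∧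
      ∀ (z : ℝ × ℝ) (ψ : ℝ), Real.cos ψ * MvPolynomial.eval ![z.1, z.2] G₀ +
        Real.sin ψ * MvPolynomial.eval ![z.1, z.2] G₁ =
        det2 (fderiv ℝ (vf P Q) z (dirv ψ)) (vf P Q z) := by
  classical
  have h2 : ∀ {R S : MvPolynomial (Fin 2) ℝ}, R.totalDegree ≤ n → S.totalDegree ≤ n →
      (R * S).totalDegree ≤ 2 * n := by
    intro R S hR hS
    have h1 := MvPolynomial.totalDegree_mul R S
    omega
  have hPd : ∀ i, (MvPolynomial.pderiv i P).totalDegree ≤ n := fun i =>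
    (gPoly_degree_pderiv P i).trans hP
  have hQd : ∀ i, (MvPolynomial.pderiv i Q).totalDegree ≤ n := fun i =>
    (gPoly_degree_pderiv Q i).trans hQ
  refine ⟨MvPolynomial.pderiv 0 P * Q - MvPolynomial.pderiv 0 Q * P,
    MvPolynomial.pderiv 1 P * Q - MvPolynomial.pderiv 1 Q * P, ?_, ?_, ?_⟩
  · exact (MvPolynomial.totalDegree_sub _ _).trans (max_le (h2 (hPd 0) hQ) (h2 (hQd 0) hP))
  · exact (MvPolynomial.totalDegree_sub _ _).trans (max_le (h2 (hPd 1) hQ) (h2 (hQd 1) hP))
  · intro z ψ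
    have hf : HasFDerivAt (vf P Q) _ z :=
      (gPoly_hasFDerivAt P z).prodMk (gPoly_hasFDerivAt Q z)
    rw [hf.fderiv]
    simp only [det2, dirv, vf, map_sub, map_mul,
      ContinuousLinearMap.prod_apply, ContinuousLinearMap.add_apply,
      ContinuousLinearMap.smul_apply, ContinuousLinearMap.coe_fst', ContinuousLinearMap.coe_snd',
      smul_eq_mul]
    ring

end Pool.Agent.Lib.MP_95e7ec_an
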