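import Mathlib
import Pool.Agent.Lib.MP_95e7ec_an.Rb.Special
import Pool.Agent.Lib.MP_95e7ec_an.Rb.Basic
import Pool.Agent.Lib.MP_95e7ec_an.Rc.GPoly

/-!
# Rc, Special2: generic listed directions
-/

set_option autoImplicit false

open Set Filter Topology MeasureTheory
open scoped ContDiff ENNReal

namespace Pool.Agent.Lib.MP_95e7ec_an

/-- the combination `sin c P - cos c Q` -/
private noncomputable def special2_f (P Q : MvPolynomial (Fin 2) ℝ) (c : ℝ) :
    MvPolynomial (Fin 2) ℝ := Real.sin c • P - Real.cos c • Q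

private theorem special2_eval (P Q : MvPolynomial (Fin 2) ℝ) (c : ℝ) (z : ℝ × ℝ) :
    det2 (vf P Q z) (dirv c) = MvPolynomial.eval ![z.1, z.2] (special2_f P Q c) := by
  simp only [special2_f, det2, vf, dirv, map_sub, MvPolynomial.smul_eval]
  ring

private theorem special2_deg {n : ℕ} {P Q : MvPolynomial (Fin 2) ℝ} (hP : P.totalDegree ≤ n)
    (hQ : Q.totalDegree ≤ n) (c : ℝ) : (special2_f P Q c).totalDegree ≤ n := by
  refine le_trans (MvPolynomial.totalDegree_sub _ _) (max_le ?_ ?_)
  · exact le_trans (MvPolynomial.totalDegree_smul_le _ _) hP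
  · exact le_trans (MvPolynomial.totalDegree_smul_le _ _) hQ

private theorem special2_dvd {P Q q : MvPolynomial (Fin 2) ℝ} {c c' : ℝ}
    (h : q ∣ special2_f P Q c) (h' : q ∣ special2_f P Q c') (hs : Real.sin (c - c') ≠ 0) :
    q ∣ P ∧ q ∣ Q := by
  have key : ∀ A : MvPolynomial (Fin 2) ℝ, q ∣ Real.sin (c - c') • A → q ∣ A := by
    intro A hA
    have h1 : A = (Real.sin (c - c'))⁻¹ • (Real.sin (c - c') • A) := by
      rw [smul_smul, inv_mul_cancel₀ hs, one_smul]
    rw [h1]
    exact dvd_smul_of_dvd _ hA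
  constructor
  · apply key
    have h1 : Real.sin (c - c') • P =
        Real.cos c' • special2_f P Q c - Real.cos c • special2_f P Q c' := by
      rw [Real.sin_sub]
      simp only [special2_f]
      module
    rw [h1]
    exact dvd_sub (dvd_smul_of_dvd _ h) (dvd_smul_of_dvd _ h')
  · apply key
    have h1 : Real.sin (c - c') • Q =
        Real.sin c' • special2_f P Q c - Real.sin c • special2_f P Q c' := by
      rw [Real.sin_sub]
      simp only [special2_f]
      module
    rw [h1]
    exact dvd_sub (dvd_smul_of_dvd _ h) (dvd_smul_of_dvd _ h')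

private theorem special2_countable_sin (c : ℝ) : {c' : ℝ | Real.sin (c - c') = 0}.Countable := by
  have h1 : {c' : ℝ | Real.sin (c - c') = 0} ⊆ Set.range (fun k : ℤ => c - (k : ℝ) * Real.pi) := by
    intro c' hc'
    obtain ⟨k, hk⟩ := Real.sin_eq_zero_iff.1 hc'
    exact ⟨k, by simp only; rw [hk]; ring⟩
  exact (Set.countable_range _).mono h1

/-- if no irreducible polynomial divides `P`, `Q` and `E`, then `sin c P - cos c Q` is relatively
prime to `E` for all `c` outside a countable set -/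
private theorem special2_bad_countable {P Q E : MvPolynomial (Fin 2) ℝ}
    (hPQ : ∀ q, q ∣ P → q ∣ Q → q ∣ E → IsUnit q)
    (hE0 : E ≠ 0) : {c : ℝ | ¬ IsRelPrime (special2_f P Q c) E}.Countable := by
  classical
  have h1 : {c : ℝ | ¬ IsRelPrime (special2_f P Q c) E} ⊆
      ⋃ q ∈ ((UniqueFactorizationMonoid.factors E).toFinset : Set (MvPolynomial (Fin 2) ℝ)),
        {c : ℝ | q ∣ special2_f P Q c} := by
    intro c hc
    simp only [Set.mem_setOf_eq, IsRelPrime, not_forall] at hc
    obtain ⟨d, hd1, hd2, hd⟩ := hc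
    have hd0 : d ≠ 0 := by
      rintro rfl
      exact hE0 (zero_dvd_iff.1 hd2)
    obtain ⟨p, hp, hpd⟩ := WfDvdMonoid.exists_irreducible_factor hd hd0
    obtain ⟨q, hq, hqp⟩ := UniqueFactorizationMonoid.exists_mem_factors_of_dvd hE0 hp
      (hpd.trans hd2)
    simp only [Set.mem_iUnion]
    refine ⟨q, ?_, ?_⟩
    · simpa using hq
    · exact (hqp.symm.dvd).trans (hpd.trans hd1)
  refine Set.Countable.mono h1 (Set.Countable.biUnion (Finset.countable_toSet _) ?_)
  intro q hq
  have hq' : q ∈ UniqueFactorizationMonoid.factors E := by simpa using hq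
  have hqi : Irreducible q := UniqueFactorizationMonoid.irreducible_of_factor q hq'
  have hqE : q ∣ E := UniqueFactorizationMonoid.dvd_of_mem_factors hq'
  rcases Set.eq_empty_or_nonempty {c : ℝ | q ∣ special2_f P Q c} with h0 | ⟨c, hc⟩
  · rw [h0]
    exact Set.countable_empty
  · refine (special2_countable_sin c).mono ?_
    intro c' hc'
    by_contra hs
    obtain ⟨hP, hQ⟩ := special2_dvd hc hc' hs
    exact hqi.not_isUnit (hPQ q hP hQ hqE)

private theorem special2_zeros (A B : MvPolynomial (Fin 2) ℝ) (h : IsRelPrime A B) {n m : ℕ}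
    (hA : A.totalDegree ≤ n) (hB : B.totalDegree ≤ m) :
    ∃ Z : Finset (ℝ × ℝ), Z.card ≤ n * m ∧ ∀ z : ℝ × ℝ,
      MvPolynomial.eval ![z.1, z.2] A = 0 → MvPolynomial.eval ![z.1, z.2] B = 0 → z ∈ Z := by
  classical
  set emb : ℝ × ℝ ↪ (Fin 2 → ℝ) := ⟨fun z => ![z.1, z.2], by
    intro z w hzw
    have h0 := congrFun hzw 0
    have h1 := congrFun hzw 1
    simp only [Matrix.cons_val_zero, Matrix.cons_val_one] at h0 h1
    exact Prod.ext h0 h1⟩ with hemb
  have hbound : ∀ s : Finset (ℝ × ℝ), (∀ z ∈ s, MvPolynomial.eval ![z.1, z.2] A = 0 ∧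
      MvPolynomial.eval ![z.1, z.2] B = 0) → s.card ≤ n * m := by
    intro s hs
    have h1 := MP60829e.bezout A B h (s.map emb) (by
      intro x hx
      rw [Finset.mem_map] at hx
      obtain ⟨z, hz, rfl⟩ := hx
      exact hs z hz)
    rw [Finset.card_map] at h1
    exact h1.trans (Nat.mul_le_mul hA hB)
  have hfin : {z : ℝ × ℝ | MvPolynomial.eval ![z.1, z.2] A = 0 ∧
      MvPolynomial.eval ![z.1, z.2] B = 0}.Finite := by
    by_contra hinf
    obtain ⟨s, hs, hcard⟩ := (Set.Infinite.exists_subset_card_eq hinf (n * m + 1))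
    have := hbound s fun z hz => hs hz
    omega
  exact ⟨hfin.toFinset, hbound _ fun z hz => hfin.mem_toFinset.1 hz, fun z h1 h2 =>
    hfin.mem_toFinset.2 ⟨h1, h2⟩⟩

/-- a field with a constant direction has no curvature -/
private theorem special2_ne {P Q : MvPolynomial (Fin 2) ℝ}
    (hcur : ∃ w, cur (vf P Q) 0 w ≠ 0) (c : ℝ) : special2_f P Q c ≠ 0 := by
  intro h0
  obtain ⟨w, hw⟩ := hcur
  apply hw
  have hpar : ∀ z, det2 (vf P Q z) (dirv c) = 0 := by
    intro z
    rw [special2_eval, h0, map_zero]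
  rw [cur, rb_turn_zero]
  have hD : det2 (fderiv ℝ (vf P Q) w (vf P Q w)) (dirv c) = 0 := by
    by_cases hd : DifferentiableAt ℝ (vf P Q) w
    · set L : ℝ × ℝ →L[ℝ] ℝ := (dirv c).2 • ContinuousLinearMap.fst ℝ ℝ ℝ -
        (dirv c).1 • ContinuousLinearMap.snd ℝ ℝ ℝ with hL
      have hLe : ∀ u : ℝ × ℝ, L u = det2 u (dirv c) := by
        intro u
        simp only [hL, det2, ContinuousLinearMap.sub_apply, ContinuousLinearMap.smul_apply,
          ContinuousLinearMap.coe_fst', ContinuousLinearMap.coe_snd', smul_eq_mul]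
        ring
      have h1 : HasFDerivAt (fun z => L (vf P Q z)) (L.comp (fderiv ℝ (vf P Q) w)) w :=
        L.hasFDerivAt.comp w hd.hasFDerivAt
      have h2 : (fun z => L (vf P Q z)) = fun _ => (0 : ℝ) := by
        funext z
        rw [hLe, hpar]
      rw [h2] at h1
      have h3 := h1.unique (hasFDerivAt_const (0 : ℝ) w)
      have h4 := congrArg (fun T : ℝ × ℝ →L[ℝ] ℝ => T (vf P Q w)) h3
      simp only [ContinuousLinearMap.comp_apply, ContinuousLinearMap.zero_apply] at h4
      rw [← hLe]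
      exact h4
    · rw [fderiv_zero_of_not_differentiableAt hd]
      simp [det2]
  rw [rb_parallel hD, rb_parallel (hpar w), rb_det2_smul_left, rb_det2_smul_right, rb_det2_self,
    mul_zero, mul_zero]

/-- Generic listed directions, with the special points and the tangencies.

Proof. As `exists_special` (Rb/Special.lean, proved; reuse its private lemmas or copy them), with a
`t₀` which avoids in addition the bad angles of `G`, where `G` is one of the polynomials `G₀`, `G₁` of
`exists_G_poly` which is not zero (if both were zero then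
`cur (vf P Q) 0 w = det2 (DY (Y w)) (Y w)` would vanish identically, against `hcur`). So for every
`k < N` the polynomial `f_k = sin c_k P - cos c_k Q` is relatively prime to `E` and to `G`; `f_k ≠ 0` (if
`f_k = 0` then `Y` has a constant direction and `cur` vanishes identically). For an irreducible
factor `h` of `f_k` there is at most one `ψ` modulo `π` such that `h` divides
`G_ψ = cos ψ G₀ + sin ψ G₁` (two different ones give `h ∣ G₀` and `h ∣ G₁`). So for `ψ` outside a
countable set `Ψ` all `f_k` are relatively prime to `G_ψ`, and Bezout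
(`MP_60829e` `bezout`, used as in `exists_special`) gives at most `n * (2n)` common zeros. -/
theorem exists_special2 {n m : ℕ} {P Q E : MvPolynomial (Fin 2) ℝ} (hP : P.totalDegree ≤ n)
    (hQ : Q.totalDegree ≤ n) (hPQ : IsRelPrime P Q) (hE0 : E ≠ 0) (hE : E.totalDegree ≤ m)
    (hcur : ∃ w, cur (vf P Q) 0 w ≠ 0) (N : ℕ) :
    ∃ (t₀ : ℝ) (S : Finset (ℝ × ℝ)) (Ψ : Set ℝ), S.card ≤ N * (n * m) ∧
      (∀ k < N, ∀ z : ℝ × ℝ, det2 (vf P Q z) (dirv (t₀ + k * (2 * Real.pi / N))) = 0 →
        MvPolynomial.eval ![z.1, z.2] E = 0 → z ∈ S) ∧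
      Ψ.Countable ∧ ∀ ψ : ℝ, ψ ∉ Ψ → ∀ Z : Finset (ℝ × ℝ),
        (∀ z ∈ Z, (∃ k : ℕ, k < N ∧
          det2 (vf P Q z) (dirv (t₀ + k * (2 * Real.pi / N))) = 0) ∧
          det2 (fderiv ℝ (vf P Q) z (dirv ψ)) (vf P Q z) = 0) →
        Z.card ≤ N * (n * (2 * n)) := by
  classical
  obtain ⟨G₀, G₁, hG₀, hG₁, hG⟩ := exists_G_poly hP hQ
  -- one of the two polynomials is not zero
  obtain ⟨G, hGne, hGdvd⟩ : ∃ G : MvPolynomial (Fin 2) ℝ, G ≠ 0 ∧
      ∀ q, q ∣ G₁ → q ∣ -G₀ → q ∣ G := by
    by_cases h0 : G₀ = 0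
    · by_cases h1 : G₁ = 0
      · exfalso
        obtain ⟨w, hw⟩ := hcur
        apply hw
        obtain ⟨φ, hφ⟩ := rb_exists_dir (vf P Q w)
        have h2 := hG w φ
        rw [h0, h1, map_zero, mul_zero, mul_zero, add_zero] at h2
        rw [cur, rb_turn_zero]
        have h3 : fderiv ℝ (vf P Q) w (vf P Q w) =
            nm (vf P Q w) • fderiv ℝ (vf P Q) w (dirv φ) := by
          rw [← map_smul, ← hφ]
        rw [h3, rb_det2_smul_left, ← h2, mul_zero]
      · exact ⟨G₁, h1, fun q hq _ => hq⟩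
    · exact ⟨G₀, h0, fun q _ hq => (dvd_neg.1 hq)⟩
  have hbadE := special2_bad_countable (P := P) (Q := Q) (E := E)
    (fun q h1 h2 _ => hPQ h1 h2) hE0
  have hbadG := special2_bad_countable (P := P) (Q := Q) (E := G)
    (fun q h1 h2 _ => hPQ h1 h2) hGne
  have hun : ((⋃ k : ℕ, {t : ℝ | ¬ IsRelPrime
      (special2_f P Q (t + k * (2 * Real.pi / N))) E}) ∪
      ⋃ k : ℕ, {t : ℝ | ¬ IsRelPrime
      (special2_f P Q (t + k * (2 * Real.pi / N))) G}).Countable := by
    apply Set.Countable.union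
    · apply Set.countable_iUnion
      intro k
      exact hbadE.preimage (add_left_injective ((k : ℝ) * (2 * Real.pi / N)))
    · apply Set.countable_iUnion
      intro k
      exact hbadG.preimage (add_left_injective ((k : ℝ) * (2 * Real.pi / N)))
  obtain ⟨t₀, ht₀⟩ := (Set.Countable.dense_compl ℝ hun).nonempty
  have hgoodE : ∀ k : ℕ, IsRelPrime (special2_f P Q (t₀ + k * (2 * Real.pi / N))) E := by
    intro k
    by_contra h
    exact ht₀ (Or.inl (Set.mem_iUnion.2 ⟨k, h⟩))
  have hgoodG : ∀ k : ℕ, IsRelPrime (special2_f P Q (t₀ + k * (2 * Real.pi / N))) G := by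
    intro k
    by_contra h
    exact ht₀ (Or.inr (Set.mem_iUnion.2 ⟨k, h⟩))
  choose Z hZ1 hZ2 using fun k : ℕ => special2_zeros _ _ (hgoodE k) (special2_deg hP hQ _) hE
  refine ⟨t₀, (Finset.range N).biUnion Z,
    ⋃ k : ℕ, {ψ : ℝ | ¬ IsRelPrime (special2_f G₁ (-G₀) ψ)
      (special2_f P Q (t₀ + k * (2 * Real.pi / N)))}, ?_, ?_, ?_, ?_⟩
  · have h1 := Finset.card_biUnion_le_card_mul (Finset.range N) Z (n * m) (fun k _ => hZ1 k)
    rwa [Finset.card_range] at h1
  · intro k hk z h1 h2
    rw [special2_eval] at h1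
    exact Finset.mem_biUnion.2 ⟨k, Finset.mem_range.2 hk, hZ2 k z h1 h2⟩
  · apply Set.countable_iUnion
    intro k
    exact special2_bad_countable
      (fun q h1 h2 h3 => hgoodG k h3 (hGdvd q h1 h2)) (special2_ne hcur _)
  · intro ψ hψ W hW
    have hrel : ∀ k : ℕ, IsRelPrime (special2_f P Q (t₀ + k * (2 * Real.pi / N)))
        (special2_f G₁ (-G₀) ψ) := by
      intro k
      by_contra h
      exact hψ (Set.mem_iUnion.2 ⟨k, fun h' => h h'.symm⟩)
    have hdeg : (special2_f G₁ (-G₀) ψ).totalDegree ≤ 2 * n := by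
      apply special2_deg hG₁
      rw [MvPolynomial.totalDegree_neg]
      exact hG₀
    choose V hV1 hV2 using fun k : ℕ => special2_zeros _ _ (hrel k) (special2_deg hP hQ _) hdeg
    have hsub : W ⊆ (Finset.range N).biUnion V := by
      intro z hz
      obtain ⟨⟨k, hk, h1⟩, h2⟩ := hW z hz
      rw [special2_eval] at h1
      refine Finset.mem_biUnion.2 ⟨k, Finset.mem_range.2 hk, hV2 k z h1 ?_⟩
      rw [← hG z ψ] at h2
      rw [← h2]
      simp only [special2_f, map_sub, MvPolynomial.smul_eval, map_neg]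
      ring
    have h1 := Finset.card_biUnion_le_card_mul (Finset.range N) V (n * (2 * n))
      (fun k _ => hV1 k)
    rw [Finset.card_range] at h1
    exact (Finset.card_le_card hsub).trans h1

end Pool.Agent.Lib.MP_95e7ec_an
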