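import Mathlib
import Pool.Agent.Lib.MP_95e7ec_an.Rb.FmlOf
import Pool.Agent.Lib.MP_95e7ec_an.Rb.Distinct
import Pool.Agent.Lib.MP_95e7ec_an.Rb.SpecIn
import Pool.Agent.Lib.MP_95e7ec_an.Rb.CurPoly
import Pool.Agent.Lib.MP_95e7ec_an.Rb.Laminar
import Pool.Agent.Lib.MP_95e7ec_an.Rc.Chain
import Pool.Agent.Lib.MP_95e7ec_an.Rc.CostLe
import Pool.Agent.Lib.MP_95e7ec_an.Rc.Special2
import Pool.Agent.Lib.MP_95e7ec_an.Zeros

/-!
# Rc, Final2: the number of the closed orbits which persist under rotation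
-/

set_option autoImplicit false

open Set Filter Topology MeasureTheory
open scoped ContDiff ENNReal

namespace Pool.Agent.Lib.MP_95e7ec_an

/-- the count for a field with relatively prime components; `δ` is half of the persistence angle -/
theorem count_fml2 {n : ℕ} (hn : 1 ≤ n) {P Q : MvPolynomial (Fin 2) ℝ} (hP : P.totalDegree ≤ n)
    (hQ : Q.totalDegree ≤ n) (hPQ : IsRelPrime P Q) {δ : ℝ} (hδ : 0 < δ) (hδ1 : 2 * δ ≤ 1)
    (s : Finset (Set (ℝ × ℝ))) (hs : ∀ C ∈ s, ∃ F : Fml (vf P Q) (2 * δ), F.C 0 = C) :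
    (s.card : ℝ) ≤ 160000 * n ^ 2 / δ ^ 3 := by
  classical
  have hY : ContDiff ℝ 1 (vf P Q) := contDiff_vf P Q
  have hY2 : ContDiff ℝ 2 (vf P Q) := contDiff_vf P Q
  have hn1 : (1 : ℝ) ≤ n := by exact_mod_cast hn
  rcases s.eq_empty_or_nonempty with hse | ⟨C0, hC0⟩
  · subst hse
    simp only [Finset.card_empty, Nat.cast_zero]
    positivity
  have hδ1' : δ ≤ 1 := by linarith
  have h0 : (0 : ℝ) ∈ Set.Icc 0 δ := ⟨le_rfl, hδ.le⟩
  have hδI : δ ∈ Set.Icc 0 δ := ⟨hδ.le, le_rfl⟩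
  have h0' : (0 : ℝ) ∈ Set.Icc 0 (2 * δ) := ⟨le_rfl, by linarith⟩
  have h1' : δ ∈ Set.Icc 0 (2 * δ) := ⟨hδ.le, by linarith⟩
  choose F0 hF0 using fun i : {C // C ∈ s} => hs i i.2
  set F : {C // C ∈ s} → Fml (vf P Q) δ := fun i => (F0 i).restrict (by linarith) with hF
  have hdis : ∀ i j : {C // C ∈ s}, i ≠ j → ∀ a ∈ Set.Icc 0 δ,
      Disjoint ((F i).C a) ((F j).C a) := by
    intro i j hij a ha
    refine fml_distinct hY hδ1 (F0 i) (F0 j) ?_ ha.1 (by linarith [ha.2])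
    rw [hF0 i, hF0 j]
    exact fun h => hij (Subtype.ext h)
  -- the polynomial
  obtain ⟨E0, hE0d, hE0⟩ := exists_cur_poly hP hQ 0
  obtain ⟨E1, hE1d, hE1⟩ := exists_cur_poly hP hQ δ
  have hcur0 := cur_ne_zero hY ((F0 ⟨C0, hC0⟩).orb 0 h0')
  have hE0n : E0 ≠ 0 := by
    obtain ⟨w, hw⟩ := hcur0
    rintro rfl
    apply hw
    rw [← hE0 w, map_zero]
  have hE1n : E1 ≠ 0 := by
    obtain ⟨w, hw⟩ := cur_ne_zero hY ((F0 ⟨C0, hC0⟩).orb δ h1')
    rintro rfl
    apply hw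
    rw [← hE1 w, map_zero]
  have hEn : E0 * E1 ≠ 0 := mul_ne_zero hE0n hE1n
  have hEd : (E0 * E1).totalDegree ≤ 6 * n := by
    have := MvPolynomial.totalDegree_mul E0 E1
    omega
  -- the net
  have hpi := Real.pi_gt_three
  have hpi4 := Real.pi_lt_d2
  set N : ℕ := ⌈400 * Real.pi / δ⌉₊ with hN
  have hNpos : 0 < N := Nat.ceil_pos.2 (by positivity)
  have hNr : (0 : ℝ) < N := by exact_mod_cast hNpos
  have hNle : (N : ℝ) ≤ 1300 / δ := by
    have h1 : (N : ℝ) < 400 * Real.pi / δ + 1 := Nat.ceil_lt_add_one (by positivity)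
    have h2 : 400 * Real.pi / δ + 1 ≤ 1300 / δ := by
      rw [div_add_one hδ.ne', div_le_div_iff_of_pos_right hδ]
      linarith
    linarith
  have hNge : 2 * Real.pi / N ≤ δ / 200 := by
    have h1 : 400 * Real.pi / δ ≤ N := Nat.le_ceil _
    rw [div_le_iff₀ hδ] at h1
    rw [div_le_iff₀ hNr]
    linarith
  obtain ⟨t₀, S, Ψ, hScard, hS, hΨ, hZ⟩ := exists_special2 hP hQ hPQ hEn hEd hcur0 N
  have hS' : ∀ k < N, ∀ z : ℝ × ℝ,
      det2 (vf P Q z) (dirv (t₀ + k * (2 * Real.pi / N))) = 0 →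
      cur (vf P Q) 0 z * cur (vf P Q) δ z = 0 → z ∈ (S : Set (ℝ × ℝ)) := by
    intro k hk z hz hc
    refine hS k hk z hz ?_
    rw [map_mul, hE0, hE1, hc]
  -- the special points in the hulls
  set sp : {C // C ∈ s} → Finset (ℝ × ℝ) := fun i => S.filter (fun z => z ∈ (F i).hull) with hsp
  have hspmem : ∀ i z, z ∈ sp i ↔ z ∈ S ∧ z ∈ (F i).hull := by
    intro i z
    rw [hsp, Finset.mem_filter]
  have hspne : ∀ i, (sp i).Nonempty := by
    intro i
    have hside : Side (vf P Q) ((F i).C 0) ((F i).D 0) := by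
      have := (F i).side 0 h0
      rwa [rb_turn_zero] at this
    obtain ⟨w, hw, hw1, hw2⟩ := special_inside hY ((F i).jp 0 h0) hside
      (t₀ + (0 : ℕ) * (2 * Real.pi / N))
    refine ⟨w, ?_⟩
    rw [hspmem]
    refine ⟨?_, (F i).mem_hull h0 hw⟩
    exact_mod_cast hS' 0 hNpos w hw1 (by rw [hw2, zero_mul])
  -- relations
  have hrel : ∀ i j : {C // C ∈ s}, i ≠ j → (F i).Below (F j) ∨ (F j).Below (F i) ∨
      ∀ z, z ∈ (F i).hull → z ∈ (F j).hull → False := by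
    intro i j hij
    rcases fml_rel hY hδ.le hδ1' (F i) (F j) (hdis i j hij) with h | h | h
    · exact Or.inl h
    · exact Or.inr (Or.inl h)
    · refine Or.inr (Or.inr ?_)
      intro z hzi hzj
      simp only [Fml.hull, Set.mem_iUnion, exists_prop] at hzi hzj
      obtain ⟨a, ha, hza⟩ := hzi
      obtain ⟨b, hb, hzb⟩ := hzj
      exact Set.disjoint_left.1 (h a ha b hb) hza hzb
  have hbelow : ∀ i j : {C // C ∈ s}, (F i).Below (F j) → sp i ⊆ sp j := by
    intro i j h z hz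
    rw [hspmem] at hz ⊢
    exact ⟨hz.1, (F j).mem_hull h0 (Or.inl (h.hull_sub h0 hz.2))⟩
  have hlam : ∀ i j, sp i ⊆ sp j ∨ sp j ⊆ sp i ∨ Disjoint (sp i) (sp j) := by
    intro i j
    rcases eq_or_ne i j with rfl | hij
    · exact Or.inl subset_rfl
    rcases hrel i j hij with h | h | h
    · exact Or.inl (hbelow i j h)
    · exact Or.inr (Or.inl (hbelow j i h))
    · refine Or.inr (Or.inr ?_)
      rw [Finset.disjoint_left]
      intro z hzi hzj
      rw [hspmem] at hzi hzj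
      exact h z hzi.2 hzj.2
  set 𝒜 : Finset (Finset (ℝ × ℝ)) := Finset.univ.image sp with h𝒜
  have h𝒜card : 𝒜.card ≤ 2 * S.card := by
    refine laminar_card S 𝒜 ?_ ?_ ?_
    · intro A hA
      obtain ⟨i, -, rfl⟩ := Finset.mem_image.1 hA
      exact Finset.filter_subset _ _
    · intro A hA
      obtain ⟨i, -, rfl⟩ := Finset.mem_image.1 hA
      exact hspne i
    · intro A hA B hB
      obtain ⟨i, -, rfl⟩ := Finset.mem_image.1 hA
      obtain ⟨j, -, rfl⟩ := Finset.mem_image.1 hB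
      exact hlam i j
  -- the cost of the fibres
  set x : ℝ := δ ^ 3 / (400 * (2 * Real.pi / N)) with hx
  have hxpos : 0 < x := by positivity
  have hfib : ∀ A : Finset (ℝ × ℝ), A ∈ 𝒜 → ∃ Reg : Set (ℝ × ℝ),
      Cost (vf P Q) t₀ N Reg
        ((((Finset.univ.filter fun i => sp i = A).card : ℝ) - 4) / 2 * x) ∧
      ∀ z ∈ Reg, (∃ i, sp i = A ∧ z ∈ (F i).hull) ∧ ∃ i, sp i = A ∧ z ∉ (F i).D δ := by
    intro A hA
    obtain ⟨i0, -, hi0⟩ := Finset.mem_image.1 hA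
    obtain ⟨Reg, h1, h2⟩ := chain_cost hY2 hδ hδ1' F (Finset.univ.filter fun i => sp i = A)
      (fun i _ j _ hij => hdis i j hij) hNpos hNge (S := (S : Set (ℝ × ℝ))) hS'
      (A := (A : Set (ℝ × ℝ))) (by
        rw [← hi0]
        exact Finset.coe_nonempty.2 (hspne i0)) (by
        intro i hi
        have h1 : sp i = A := (Finset.mem_filter.1 hi).2
        rw [← h1]
        ext z
        rw [Finset.mem_coe, hspmem]
        simp)
    refine ⟨Reg, h1, fun z hz => ?_⟩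
    obtain ⟨⟨i, hi, hzi⟩, ⟨j, hj, hzj⟩⟩ := h2 z hz
    exact ⟨⟨i, (Finset.mem_filter.1 hi).2, hzi⟩, ⟨j, (Finset.mem_filter.1 hj).2, hzj⟩⟩
  choose! Reg hReg hRegz using hfib
  have hRdisj : ∀ A ∈ 𝒜, ∀ B ∈ 𝒜, A ≠ B → Disjoint (Reg A) (Reg B) := by
    intro A hA B hB hAB
    rw [Set.disjoint_left]
    intro z hzA hzB
    obtain ⟨⟨i, hiA, hzi⟩, ⟨i', hiA', hzi'⟩⟩ := hRegz A hA z hzA
    obtain ⟨⟨j, hjB, hzj⟩, ⟨j', hjB', hzj'⟩⟩ := hRegz B hB z hzB
    have hne : ∀ a b : {C // C ∈ s}, sp a = A → sp b = B → a ≠ b := by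
      rintro a b ha hb rfl
      exact hAB (ha.symm.trans hb)
    -- `i` and `j'`
    have h1 : B ⊆ A ∨ (∀ z, z ∈ (F i).hull → z ∈ (F j').hull → False) := by
      rcases hrel i j' (hne i j' hiA hjB') with h | h | h
      · exact absurd (h.hull_sub hδI hzi) hzj'
      · left; rw [← hiA, ← hjB']; exact hbelow j' i h
      · exact Or.inr h
    have h2 : A ⊆ B ∨ (∀ z, z ∈ (F j).hull → z ∈ (F i').hull → False) := by
      rcases hrel j i' (hne i' j hiA' hjB).symm with h | h | h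
      · exact absurd (h.hull_sub hδI hzj) hzi'
      · left; rw [← hjB, ← hiA']; exact hbelow i' j h
      · exact Or.inr h
    have hdj : ∀ a b : {C // C ∈ s}, sp a = A → sp b = B →
        (∀ z, z ∈ (F a).hull → z ∈ (F b).hull → False) → ∀ z, z ∈ A → z ∈ B → False := by
      intro a b ha hb h z hzA hzB
      rw [← ha, hspmem] at hzA
      rw [← hb, hspmem] at hzB
      exact h z hzA.2 hzB.2
    have hnd : ¬ ∀ z, z ∈ A → z ∈ B → False := by
      intro hd
      rcases hrel i j (hne i j hiA hjB) with h | h | h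
      · have := hbelow i j h
        rw [hiA, hjB] at this
        obtain ⟨w, hw⟩ := hspne i
        rw [hiA] at hw
        exact hd w hw (this hw)
      · have := hbelow j i h
        rw [hiA, hjB] at this
        obtain ⟨w, hw⟩ := hspne j
        rw [hjB] at hw
        exact hd w (this hw) hw
      · exact h z hzi hzj
    have hBA : B ⊆ A := by
      rcases h1 with h | h
      · exact h
      · exact absurd (hdj i j' hiA hjB' h) hnd
    have hAB' : A ⊆ B := by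
      rcases h2 with h | h
      · exact h
      · exact absurd (hdj i' j hiA' hjB fun z h3 h4 => h z h4 h3) hnd
    exact hAB (Finset.Subset.antisymm hAB' hBA)
  have hcost := Cost.biUnion (Y := vf P Q) (t₀ := t₀) (N := N) 𝒜 (Reg := Reg)
    (c := fun A => (((Finset.univ.filter fun i => sp i = A).card : ℝ) - 4) / 2 * x) hRdisj hReg
  have hle := cost_le hcost (M := N * (n * (2 * n))) (by positivity) hΨ (by
    intro ψ hψ Z hZ'
    have := hZ ψ hψ Z hZ'
    exact_mod_cast this)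
  have hsumcard : ∑ A ∈ 𝒜, ((Finset.univ.filter fun i => sp i = A).card : ℝ) = s.card := by
    have h1 := Finset.card_eq_sum_card_image sp (Finset.univ : Finset {C // C ∈ s})
    have h2 : (Finset.univ : Finset {C // C ∈ s}).card = s.card := by simp
    rw [h2] at h1
    rw [h1]
    push_cast
    rfl
  have hsum : ∑ A ∈ 𝒜, (((Finset.univ.filter fun i => sp i = A).card : ℝ) - 4) / 2 * x =
      ((s.card : ℝ) - 4 * 𝒜.card) / 2 * x := by
    rw [← Finset.sum_mul, ← Finset.sum_div, Finset.sum_sub_distrib, hsumcard]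
    simp only [Finset.sum_const, nsmul_eq_mul]
    ring
  rw [hsum] at hle
  have h𝒜r : (𝒜.card : ℝ) ≤ 15600 * n ^ 2 / δ := by
    have h1 : (𝒜.card : ℝ) ≤ 2 * (N * (n * (6 * n))) := by
      have : 𝒜.card ≤ 2 * (N * (n * (6 * n))) := h𝒜card.trans (by omega)
      exact_mod_cast this
    calc (𝒜.card : ℝ) ≤ 2 * (N * (n * (6 * n))) := h1
      _ ≤ 2 * (1300 / δ * (n * (6 * n))) := by gcongr
      _ = 15600 * n ^ 2 / δ := by ring
  have h𝒜r' : (𝒜.card : ℝ) ≤ 15600 * n ^ 2 / δ ^ 3 := by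
    refine h𝒜r.trans ?_
    apply div_le_div_of_nonneg_left (by positivity) (by positivity)
    have h1 : δ ^ 3 ≤ δ ^ 1 := pow_le_pow_of_le_one hδ.le hδ1' (by norm_num)
    rwa [pow_one] at h1
  have hxN : x = δ ^ 3 * N / (800 * Real.pi) := by
    rw [hx]
    field_simp
    ring
  have h5 : ((s.card : ℝ) - 4 * 𝒜.card) ≤ 9600 * Real.pi ^ 2 * n ^ 2 / δ ^ 3 := by
    rw [le_div_iff₀ (by positivity)]
    rw [hxN] at hle
    have h6 : ((s.card : ℝ) - 4 * 𝒜.card) / 2 * (δ ^ 3 * N / (800 * Real.pi)) =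
        (((s.card : ℝ) - 4 * 𝒜.card) * δ ^ 3) * (N / (1600 * Real.pi)) := by
      field_simp
      ring
    rw [h6] at hle
    have h7 : 3 * Real.pi * (N * (n * (2 * n)) : ℝ) =
        (9600 * Real.pi ^ 2 * n ^ 2) * (N / (1600 * Real.pi)) := by
      field_simp
      ring
    rw [h7] at hle
    exact le_of_mul_le_mul_right hle (by positivity)
  have hpi2 : Real.pi ^ 2 ≤ 10 := by nlinarith
  have h8 : 9600 * Real.pi ^ 2 * n ^ 2 / δ ^ 3 ≤ 96000 * n ^ 2 / δ ^ 3 := by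
    apply div_le_div_of_nonneg_right _ (by positivity)
    nlinarith [sq_nonneg (n : ℝ)]
  calc (s.card : ℝ) ≤ 4 * 𝒜.card + 96000 * n ^ 2 / δ ^ 3 := by linarith
    _ ≤ 4 * (15600 * n ^ 2 / δ ^ 3) + 96000 * n ^ 2 / δ ^ 3 := by linarith
    _ = 158400 * n ^ 2 / δ ^ 3 := by ring
    _ ≤ 160000 * n ^ 2 / δ ^ 3 := by gcongr; norm_num

/-- the count of finitely many persisting closed orbits -/
theorem count_persists2 {n : ℕ} (hn : 1 ≤ n) {P Q : MvPolynomial (Fin 2) ℝ}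
    (hP : P.totalDegree ≤ n) (hQ : Q.totalDegree ≤ n) {δ : ℝ} (hδ : 0 < δ) (hδ1 : δ ≤ 1)
    (s : Finset (Set (ℝ × ℝ))) (hs : ∀ C ∈ s, Persists (vf P Q) δ C) :
    (s.card : ℝ) ≤ 3000000 * n ^ 2 / δ ^ 3 := by
  classical
  let _ : NormalizedGCDMonoid (MvPolynomial (Fin 2) ℝ) := Nonempty.some inferInstance
  rcases s.eq_empty_or_nonempty with hse | ⟨C0, hC0⟩
  · subst hse
    simp only [Finset.card_empty, Nat.cast_zero]
    positivity
  have hv : ContDiff ℝ 1 (vf P Q) := contDiff_vf P Q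
  have hPQ : P ≠ 0 ∨ Q ≠ 0 := by
    by_contra hcon
    push Not at hcon
    obtain ⟨z, T, -, -, h, -⟩ := hs C0 hC0
    obtain ⟨hT, hd, hp, hne⟩ := h 0 ⟨le_rfl, hδ.le⟩
    have horb : IsClosedOrbit (turn 0 (vf P Q)) (Set.range (z 0)) :=
      ⟨z 0, T 0, hT, hd, hp, hne, rfl⟩
    rw [rb_turn_zero] at horb
    refine horb.ne_zero_of_contDiff hv ⟨0, rfl⟩ ?_
    rw [hcon.1, hcon.2]
    simp [vf]
  obtain ⟨P₁, Q₁, hP₁, hQ₁, hu⟩ := extract_gcd P Q
  set g := gcd P Q with hg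
  have hg0 : g ≠ 0 := by
    intro h0
    rw [hg, gcd_eq_zero_iff] at h0
    rcases hPQ with h | h
    · exact h h0.1
    · exact h h0.2
  have hrel : IsRelPrime P₁ Q₁ := gcd_isUnit_iff_isRelPrime.1 hu
  have hdeg : ∀ (A B : MvPolynomial (Fin 2) ℝ), A = g * B → A.totalDegree ≤ n →
      B.totalDegree ≤ n := by
    intro A B hAB hA
    rcases eq_or_ne B 0 with h0 | h0
    · simp [h0]
    · have := MvPolynomial.totalDegree_mul_of_isDomain hg0 h0
      rw [← hAB] at this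
      omega
  have hP₁d := hdeg P P₁ hP₁ hP
  have hQ₁d := hdeg Q Q₁ hQ₁ hQ
  have hsm : ∀ z, vf P Q z = (MvPolynomial.eval ![z.1, z.2] g) • vf P₁ Q₁ z := by
    intro z
    unfold vf
    conv_lhs => rw [hP₁, hQ₁]
    simp only [map_mul, Prod.smul_mk, smul_eq_mul]
  have hgc : Continuous fun z : ℝ × ℝ => MvPolynomial.eval ![z.1, z.2] g :=
    (contDiff_eval g (k := 0)).continuous
  have hneg : (fun z => -vf P₁ Q₁ z) = vf (-P₁) (-Q₁) := by
    funext z
    simp [vf]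
  have hrel' : IsRelPrime (-P₁) (-Q₁) := IsRelPrime.neg_neg hrel
  have hdn : ∀ A : MvPolynomial (Fin 2) ℝ, (-A).totalDegree = A.totalDegree :=
    MvPolynomial.totalDegree_neg
  -- the two orientations
  have hδ2 : 2 * (δ / 2) = δ := by ring
  set s1 := s.filter fun C => ∃ F : Fml (vf P₁ Q₁) (2 * (δ / 2)), F.C 0 = C with hs1
  set s2 := s.filter fun C => ∃ F : Fml (vf (-P₁) (-Q₁)) (2 * (δ / 2)), F.C 0 = C with hs2
  have hunion : s ⊆ s1 ∪ s2 := by
    intro C hC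
    rw [Finset.mem_union, hs1, hs2, Finset.mem_filter, Finset.mem_filter, hδ2, ← hneg]
    rcases exists_fml hv (contDiff_vf P₁ Q₁) hgc hsm hδ.le (hs C hC) with h | h
    · exact Or.inl ⟨hC, h⟩
    · exact Or.inr ⟨hC, h⟩
  have h1 := count_fml2 hn hP₁d hQ₁d hrel (δ := δ / 2) (by positivity) (by linarith) s1
    (fun C hC => (Finset.mem_filter.1 hC).2)
  have h2 := count_fml2 hn (by rw [hdn]; exact hP₁d) (by rw [hdn]; exact hQ₁d) hrel'
    (δ := δ / 2) (by positivity) (by linarith) s2 (fun C hC => (Finset.mem_filter.1 hC).2)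
  have h3 : (s.card : ℝ) ≤ s1.card + s2.card := by
    have := (Finset.card_le_card hunion).trans (Finset.card_union_le s1 s2)
    exact_mod_cast this
  calc (s.card : ℝ) ≤ s1.card + s2.card := h3
    _ ≤ 160000 * n ^ 2 / (δ / 2) ^ 3 + 160000 * n ^ 2 / (δ / 2) ^ 3 := add_le_add h1 h2
    _ = 2560000 * n ^ 2 / δ ^ 3 := by
        field_simp
        ring
    _ ≤ 3000000 * n ^ 2 / δ ^ 3 := by gcongr; norm_num

/-- **Main theorem**: at most `3·10⁶ n² / δ³` closed orbits of a planar polynomial field of degree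
at most `n` persist for all the turned fields `e^{ia} X`, `0 ≤ a ≤ δ`. -/
theorem persists_finite2 {n : ℕ} (hn : 1 ≤ n) {P Q : MvPolynomial (Fin 2) ℝ}
    (hP : P.totalDegree ≤ n) (hQ : Q.totalDegree ≤ n) {δ : ℝ} (hδ : 0 < δ) (hδ1 : δ ≤ 1) :
    {C | Persists (vf P Q) δ C}.Finite ∧
      ({C | Persists (vf P Q) δ C}.ncard : ℝ) ≤ 3000000 * n ^ 2 / δ ^ 3 := by
  have hfin : {C | Persists (vf P Q) δ C}.Finite := by
    by_contra hinf
    obtain ⟨t, ht, htc⟩ := Set.Infinite.exists_subset_card_eq hinf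
      (⌊(3000000 * n ^ 2 / δ ^ 3 : ℝ)⌋₊ + 1)
    have h1 := count_persists2 hn hP hQ hδ hδ1 t fun C hC => ht hC
    have h2 := Nat.lt_floor_add_one (3000000 * (n : ℝ) ^ 2 / δ ^ 3)
    rw [htc] at h1
    push_cast at h1
    linarith
  refine ⟨hfin, ?_⟩
  rw [Set.ncard_eq_toFinset_card _ hfin]
  exact count_persists2 hn hP hQ hδ hδ1 _ fun C hC => by simpa using hC

end Pool.Agent.Lib.MP_95e7ec_an
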