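import Mathlib
import Pool.Agent.Lib.MP_95e7ec_an.Rb.Basic

/-!
# Rc, Polygon: three closed polygons with vertices on common strands
-/

set_option autoImplicit false

open Set Filter Topology MeasureTheory
open scoped ContDiff ENNReal

namespace Pool.Agent.Lib.MP_95e7ec_an

/-- mean value estimate for `log sin (x - φ) - log sin (y - φ)` -/
theorem polygon_psi {x y φ₁ φ₂ κ : ℝ} (hκ : 0 < κ)
    (hx : ∀ φ ∈ Set.uIcc φ₁ φ₂, κ ≤ Real.sin (x - φ))
    (hy : ∀ φ ∈ Set.uIcc φ₁ φ₂, κ ≤ Real.sin (y - φ)) :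
    |(Real.log (Real.sin (x - φ₂)) - Real.log (Real.sin (y - φ₂))) -
      (Real.log (Real.sin (x - φ₁)) - Real.log (Real.sin (y - φ₁)))| ≤
      |x - y| / κ ^ 2 * |φ₂ - φ₁| := by
  have hd : ∀ z φ : ℝ, 0 < Real.sin (z - φ) →
      HasDerivAt (fun φ : ℝ => Real.log (Real.sin (z - φ)))
        (-Real.cos (z - φ) / Real.sin (z - φ)) φ := by
    intro z φ h
    have h1 : HasDerivAt (fun φ : ℝ => z - φ) (-1) φ := by
      simpa using (hasDerivAt_id φ).const_sub z
    have h2 := (h1.sin).log h.ne'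
    convert h2 using 1
    ring
  have key := (convex_uIcc φ₁ φ₂).norm_image_sub_le_of_norm_hasDerivWithin_le
    (f := fun φ => Real.log (Real.sin (x - φ)) - Real.log (Real.sin (y - φ)))
    (f' := fun φ => -Real.cos (x - φ) / Real.sin (x - φ) - -Real.cos (y - φ) / Real.sin (y - φ))
    (C := |x - y| / κ ^ 2)
    (fun φ hφ => ((hd x φ (lt_of_lt_of_le hκ (hx φ hφ))).sub
      (hd y φ (lt_of_lt_of_le hκ (hy φ hφ)))).hasDerivWithinAt)
    (fun φ hφ => by
      have h1 := hx φ hφ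
      have h2 := hy φ hφ
      have h1' : 0 < Real.sin (x - φ) := lt_of_lt_of_le hκ h1
      have h2' : 0 < Real.sin (y - φ) := lt_of_lt_of_le hκ h2
      have h3 : -Real.cos (x - φ) / Real.sin (x - φ) - -Real.cos (y - φ) / Real.sin (y - φ) =
          Real.sin (x - y) / (Real.sin (x - φ) * Real.sin (y - φ)) := by
        have h4 : x - y = (x - φ) - (y - φ) := by ring
        rw [h4, Real.sin_sub (x - φ) (y - φ)]
        field_simp
        ring
      rw [h3, Real.norm_eq_abs, abs_div, abs_mul, abs_of_pos h1', abs_of_pos h2']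
      have h5 : κ ^ 2 ≤ Real.sin (x - φ) * Real.sin (y - φ) := by nlinarith
      have h6 : |Real.sin (x - y)| ≤ |x - y| := Real.abs_sin_le_abs
      exact div_le_div₀ (abs_nonneg _) h6 (by positivity) h5)
    Set.left_mem_uIcc Set.right_mem_uIcc
  simpa [Real.norm_eq_abs] using key

theorem polygon_sin_ge {t κ₀ : ℝ} (h0 : 0 < κ₀) (h1 : κ₀ ≤ t) (h2 : t ≤ Real.pi - κ₀) :
    Real.sin κ₀ ≤ Real.sin t := by
  rcases le_total t (Real.pi / 2) with h | h
  · exact Real.sin_le_sin_of_le_of_le_pi_div_two (by linarith) h h1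
  · rw [← Real.sin_pi_sub t]
    exact Real.sin_le_sin_of_le_of_le_pi_div_two (by linarith) (by linarith) (by linarith)

/-- Pure geometry. Three closed polygons `a`, `b`, `c` with `J` vertices; `A j = a (j+1) - a j` etc.
(with `a (J+1) = a 1`), `d j = b j - a j`, `e j = c j - a j`. The directions of `d j`, `e j` are in the
cone `(θ j + δ - π, θ j)`, those of `A (j-1)`, `A j` are within `η` of `θ j + δ/2`; the edges of `b` are
turned by about `δ/4` to the left, those of `c` by about `δ/4` to the right. Then the directions of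
`d j` and `e j` differ by at least `δ³/(400 η)` in total.

Proof. `B j = A j + d (j+1) - d j` gives `det2 (d (j+1)) (A j) = det2 (d j) (A j) - det2 (A j) (B j)`, with
`det2 (d j) (A j) > 0`, `det2 (d (j+1)) (A j) > 0` (`0 < α j - φb j < π` etc.) and
`det2 (A j) (B j) = RA RB sin (β j - α j) > 0`. Hence
`log det2 (d (j+1)) (A j) - log det2 (d j) (A j) ≤ - det2 (A j) (B j) / det2 (d j) (A j)
 ≤ - sin (δ/4 - η) RB j / Rb j ≤ - sin (δ/4 - η) RB j / (3 ∑ RB)`, so
`∑_{j<J} [log det2 (d (j+1)) (A j) - log det2 (d j) (A j)] ≤ - sin (δ/4 - η) / 3`.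
For `c`: `det2 (A j) (C j) ≤ 0`, so `∑_{j<J} [log det2 (e (j+1)) (A j) - log det2 (e j) (A j)] ≥ 0`.
Shift the second term of the sums by one (`d J = d 0`, `A J = A 0`): the sums are
`∑_{j<J} ψ_{j+1} (φ)` with `ψ_i φ = log sin (α (i-1) - φ) - log sin (α i - φ)` at `φ = φb i`, resp.
`φc i` (the lengths cancel: `log det2 (d i) (A (i-1)) - log det2 (d i) (A i)`, `d i = Rb i dirv (φb i)`,
plus `log RA (i-1) - log RA i`, which is the same for `b` and `c`). The derivative of `ψ_i` is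
`sin (α (i-1) - α i) / (sin (α (i-1) - φ) sin (α i - φ))`, at most `2 η / κ²` in absolute value,
`κ = sin (δ/2 - η) ≥ (2/π) (δ/2 - η)` (Jordan). So
`sin (δ/4 - η)/3 ≤ (2 η/κ²) ∑ |φc - φb|`, and `sin (δ/4-η) ≥ (2/π)(.245 δ)`, `κ ≥ .315 δ`. -/
theorem polygon_cost {J : ℕ} (hJ : 0 < J) {δ η : ℝ} (hδ : 0 < δ) (hδ1 : δ ≤ 1) (hη : 0 < η)
    (hη1 : η ≤ δ / 200) {a b c : ℕ → ℝ × ℝ}
    {θ α β γ φb φc RA RB RC Rb Rc : ℕ → ℝ}
    (ha : a J = a 0) (hb : b J = b 0) (hc : c J = c 0) (ha1 : a (J + 1) = a 1)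
    (hA : ∀ j ≤ J, 0 < RA j ∧ a (j + 1) - a j = RA j • dirv (α j))
    (hB : ∀ j < J, 0 < RB j ∧ b (j + 1) - b j = RB j • dirv (β j))
    (hC : ∀ j < J, 0 < RC j ∧ c (j + 1) - c j = RC j • dirv (γ j))
    (hdb : ∀ j ≤ J, 0 < Rb j ∧ b j - a j = Rb j • dirv (φb j))
    (hdc : ∀ j ≤ J, 0 < Rc j ∧ c j - a j = Rc j • dirv (φc j))
    (hα : ∀ j ≤ J, |α j - θ j - δ / 2| ≤ η) (hα' : ∀ j < J, |α j - θ (j + 1) - δ / 2| ≤ η)
    (hβ : ∀ j < J, β j - α j ∈ Set.Icc (δ / 4 - η) (δ / 4 + η))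
    (hγ : ∀ j < J, γ j - α j ∈ Set.Icc (-(δ / 4) - η) (-(δ / 4) + η))
    (hφb : ∀ j ≤ J, φb j ∈ Set.Ioo (θ j + δ - Real.pi) (θ j))
    (hφc : ∀ j ≤ J, φc j ∈ Set.Ioo (θ j + δ - Real.pi) (θ j))
    (hper : ∀ j ≤ J, Rb j ≤ 3 * ∑ i ∈ Finset.range J, RB i) :
    δ ^ 3 / (400 * η) ≤ ∑ j ∈ Finset.range J, |φc (j + 1) - φb (j + 1)| := by
  have hpi := Real.pi_gt_three
  have hpi2 := Real.pi_lt_d2
  set κ : ℝ := Real.sin (δ / 2 - η) with hκdef
  set σ : ℝ := Real.sin (δ / 4 - η) with hσdef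
  have hκ1 : 2 / Real.pi * (δ / 2 - η) ≤ κ := Real.mul_le_sin (by linarith) (by linarith)
  have hσ1 : 2 / Real.pi * (δ / 4 - η) ≤ σ := Real.mul_le_sin (by linarith) (by linarith)
  have h2pi : (0.634 : ℝ) ≤ 2 / Real.pi := by
    rw [le_div_iff₀ Real.pi_pos]
    nlinarith
  have hκ2 : 0.3138 * δ ≤ κ := by
    refine le_trans ?_ hκ1
    have : 0.495 * δ ≤ δ / 2 - η := by linarith
    nlinarith
  have hσ2 : 0.1553 * δ ≤ σ := by
    refine le_trans ?_ hσ1
    have : 0.245 * δ ≤ δ / 4 - η := by linarith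
    nlinarith
  have hκ0 : 0 < κ := lt_of_lt_of_le (by positivity) hκ2
  have hσ0 : 0 < σ := lt_of_lt_of_le (by positivity) hσ2
  -- angles
  have hang : ∀ t x φ : ℝ, |x - t - δ / 2| ≤ η → φ ∈ Set.Ioo (t + δ - Real.pi) t →
      κ ≤ Real.sin (x - φ) := by
    intro t x φ hx hφ
    have h1 := abs_le.1 hx
    exact polygon_sin_ge (by linarith) (by linarith [hφ.2, h1.1]) (by linarith [hφ.1, h1.2])
  -- the determinants
  have hdetA : ∀ (u v : ℝ × ℝ) (p q r s : ℝ), u = p • dirv q → v = r • dirv s →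
      det2 u v = p * r * Real.sin (s - q) := by
    intro u v p q r s hu hv
    rw [hu, hv, rb_det2_smul_left, rb_det2_smul_right, rb_det2_dirv]
    ring
  -- the general sum
  have hA0 : a (J + 1) - a J = a (0 + 1) - a 0 := by rw [ha1, ha]
  have hshift : ∀ (b : ℕ → ℝ × ℝ), b J = b 0 →
      ∑ j ∈ Finset.range J, Real.log (det2 (b j - a j) (a (j + 1) - a j)) =
      ∑ j ∈ Finset.range J, Real.log (det2 (b (j + 1) - a (j + 1)) (a (j + 1 + 1) - a (j + 1))) := by
    intro b hb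
    have h1 := Finset.sum_range_succ (fun j => Real.log (det2 (b j - a j) (a (j + 1) - a j))) J
    have h2 := Finset.sum_range_succ' (fun j => Real.log (det2 (b j - a j) (a (j + 1) - a j))) J
    rw [h1] at h2
    have h3 : Real.log (det2 (b J - a J) (a (J + 1) - a J)) =
        Real.log (det2 (b 0 - a 0) (a (0 + 1) - a 0)) := by
      rw [hA0, hb, ha]
    linarith
  have hsplit : ∀ (b : ℕ → ℝ × ℝ) (φb Rb : ℕ → ℝ),
      (∀ j ≤ J, 0 < Rb j ∧ b j - a j = Rb j • dirv (φb j)) →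
      (∀ j ≤ J, φb j ∈ Set.Ioo (θ j + δ - Real.pi) (θ j)) → b J = b 0 →
      ∑ j ∈ Finset.range J, (Real.log (det2 (b (j + 1) - a (j + 1)) (a (j + 1) - a j)) -
        Real.log (det2 (b j - a j) (a (j + 1) - a j))) =
      ∑ j ∈ Finset.range J, ((Real.log (RA j) - Real.log (RA (j + 1))) +
        (Real.log (Real.sin (α j - φb (j + 1))) -
          Real.log (Real.sin (α (j + 1) - φb (j + 1))))) := by
    intro b φb Rb hdb hφb hb
    rw [Finset.sum_sub_distrib, hshift b hb, ← Finset.sum_sub_distrib]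
    refine Finset.sum_congr rfl fun j hj => ?_
    have hjJ : j < J := Finset.mem_range.1 hj
    obtain ⟨hR1, hd1⟩ := hdb (j + 1) hjJ
    obtain ⟨hA1, hA2⟩ := hA j hjJ.le
    obtain ⟨hA3, hA4⟩ := hA (j + 1) hjJ
    rw [hdetA _ _ _ _ _ _ hd1 hA2, hdetA _ _ _ _ _ _ hd1 hA4]
    have s1 := hang _ _ _ (hα' j hjJ) (hφb (j + 1) hjJ)
    have s2 := hang _ _ _ (hα (j + 1) hjJ) (hφb (j + 1) hjJ)
    have s1' : 0 < Real.sin (α j - φb (j + 1)) := lt_of_lt_of_le hκ0 s1
    have s2' : 0 < Real.sin (α (j + 1) - φb (j + 1)) := lt_of_lt_of_le hκ0 s2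
    rw [Real.log_mul (by positivity) s1'.ne', Real.log_mul hR1.ne' hA1.ne',
      Real.log_mul (by positivity) s2'.ne', Real.log_mul hR1.ne' hA3.ne']
    ring
  -- step for `b`
  set S : ℝ := ∑ i ∈ Finset.range J, RB i with hSdef
  have hS : 0 < S := by
    refine Finset.sum_pos (fun i hi => (hB i (Finset.mem_range.1 hi)).1) ?_
    exact ⟨0, Finset.mem_range.2 hJ⟩
  have hstep : ∀ (u A B u' : ℝ × ℝ), u' - u = B - A → det2 u' A = det2 u A - det2 A B := by
    intro u A B u' h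
    have h1 : u' = u + B - A := by rw [← sub_add_cancel u' u, h]; abel
    rw [h1, rb_det2_sub_left, rb_det2_add_left, rb_det2_self, rb_det2_swap B A]
    ring
  have hbsum : ∑ j ∈ Finset.range J, (Real.log (det2 (b (j + 1) - a (j + 1)) (a (j + 1) - a j)) -
        Real.log (det2 (b j - a j) (a (j + 1) - a j))) ≤ -(σ / 3) := by
    have h1 : ∀ j ∈ Finset.range J,
        Real.log (det2 (b (j + 1) - a (j + 1)) (a (j + 1) - a j)) -
        Real.log (det2 (b j - a j) (a (j + 1) - a j)) ≤ -(σ / (3 * S)) * RB j := by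
      intro j hj
      have hjJ : j < J := Finset.mem_range.1 hj
      obtain ⟨hR0, hd0⟩ := hdb j hjJ.le
      obtain ⟨hR1, hd1⟩ := hdb (j + 1) hjJ
      obtain ⟨hA1, hA2⟩ := hA j hjJ.le
      obtain ⟨hB1, hB2⟩ := hB j hjJ
      have hst := hstep (b j - a j) (a (j + 1) - a j) (b (j + 1) - b j) (b (j + 1) - a (j + 1))
        (by abel)
      have e0 := hdetA _ _ _ _ _ _ hd0 hA2
      have e1 := hdetA _ _ _ _ _ _ hd1 hA2
      have e2 := hdetA _ _ _ _ _ _ hA2 hB2
      have s0 := hang _ _ _ (hα j hjJ.le) (hφb j hjJ.le)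
      have s1 := hang _ _ _ (hα' j hjJ) (hφb (j + 1) hjJ)
      have s0' : 0 < Real.sin (α j - φb j) := lt_of_lt_of_le hκ0 s0
      have s1' : 0 < Real.sin (α j - φb (j + 1)) := lt_of_lt_of_le hκ0 s1
      have s2 : σ ≤ Real.sin (β j - α j) := by
        have h3 := hβ j hjJ
        exact Real.sin_le_sin_of_le_of_le_pi_div_two (by linarith) (by linarith [h3.2])
          h3.1
      have x0 : 0 < det2 (b j - a j) (a (j + 1) - a j) := by rw [e0]; positivity
      have x1 : 0 < det2 (b (j + 1) - a (j + 1)) (a (j + 1) - a j) := by rw [e1]; positivity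
      have hlog := Real.log_le_sub_one_of_pos (div_pos x1 x0)
      rw [Real.log_div x1.ne' x0.ne'] at hlog
      refine hlog.trans ?_
      have h4 : det2 (b (j + 1) - a (j + 1)) (a (j + 1) - a j) /
          det2 (b j - a j) (a (j + 1) - a j) - 1 =
          -(det2 (a (j + 1) - a j) (b (j + 1) - b j) / det2 (b j - a j) (a (j + 1) - a j)) := by
        rw [hst]
        field_simp
        ring
      rw [h4, neg_mul, neg_le_neg_iff, e0, e2]
      have h5 : σ / (3 * S) * RB j ≤ σ * RB j / Rb j := by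
        rw [div_mul_eq_mul_div]
        exact div_le_div_of_nonneg_left (by positivity) hR0 (hper j hjJ.le)
      refine h5.trans ?_
      have s0'' : Real.sin (α j - φb j) ≤ 1 := Real.sin_le_one _
      rw [div_le_div_iff₀ hR0 (by positivity)]
      have h6 : σ * RB j * (Rb j * RA j * Real.sin (α j - φb j)) ≤
          σ * RB j * (Rb j * RA j * 1) := by
        apply mul_le_mul_of_nonneg_left _ (by positivity)
        apply mul_le_mul_of_nonneg_left s0'' (by positivity)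
      refine h6.trans ?_
      have h7 : σ * (RA j * RB j * Rb j) ≤ Real.sin (β j - α j) * (RA j * RB j * Rb j) :=
        mul_le_mul_of_nonneg_right s2 (by positivity)
      nlinarith
    refine (Finset.sum_le_sum h1).trans ?_
    rw [← Finset.mul_sum, ← hSdef]
    have h2 : -(σ / (3 * S)) * S = -(σ / 3) := by
      field_simp
    rw [h2]
  have hcsum : 0 ≤ ∑ j ∈ Finset.range J,
      (Real.log (det2 (c (j + 1) - a (j + 1)) (a (j + 1) - a j)) -
        Real.log (det2 (c j - a j) (a (j + 1) - a j))) := by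
    refine Finset.sum_nonneg fun j hj => ?_
    have hjJ : j < J := Finset.mem_range.1 hj
    obtain ⟨hR0, hd0⟩ := hdc j hjJ.le
    obtain ⟨hA1, hA2⟩ := hA j hjJ.le
    obtain ⟨hC1, hC2⟩ := hC j hjJ
    have hst := hstep (c j - a j) (a (j + 1) - a j) (c (j + 1) - c j) (c (j + 1) - a (j + 1))
      (by abel)
    have e0 := hdetA _ _ _ _ _ _ hd0 hA2
    have e2 := hdetA _ _ _ _ _ _ hA2 hC2
    have s0 := hang _ _ _ (hα j hjJ.le) (hφc j hjJ.le)
    have s0' : 0 < Real.sin (α j - φc j) := lt_of_lt_of_le hκ0 s0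
    have x0 : 0 < det2 (c j - a j) (a (j + 1) - a j) := by rw [e0]; positivity
    have s2 : Real.sin (γ j - α j) ≤ 0 := by
      have h3 := hγ j hjJ
      exact Real.sin_nonpos_of_nonpos_of_neg_pi_le (by linarith [h3.2]) (by linarith [h3.1])
    have h4 : det2 (a (j + 1) - a j) (c (j + 1) - c j) ≤ 0 := by
      rw [e2]
      exact mul_nonpos_of_nonneg_of_nonpos (by positivity) s2
    rw [sub_nonneg]
    exact Real.log_le_log x0 (by linarith)
  rw [hsplit b φb Rb hdb hφb hb] at hbsum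
  rw [hsplit c φc Rc hdc hφc hc] at hcsum
  have hdiff : σ / 3 ≤ ∑ j ∈ Finset.range J, 2 * η / κ ^ 2 * |φc (j + 1) - φb (j + 1)| := by
    have h1 : σ / 3 ≤ ∑ j ∈ Finset.range J, (((Real.log (RA j) - Real.log (RA (j + 1))) +
        (Real.log (Real.sin (α j - φc (j + 1))) -
          Real.log (Real.sin (α (j + 1) - φc (j + 1))))) -
        ((Real.log (RA j) - Real.log (RA (j + 1))) +
        (Real.log (Real.sin (α j - φb (j + 1))) -
          Real.log (Real.sin (α (j + 1) - φb (j + 1)))))) := by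
      rw [Finset.sum_sub_distrib]
      linarith
    refine h1.trans (Finset.sum_le_sum fun j hj => ?_)
    have hjJ : j < J := Finset.mem_range.1 hj
    have hconv : ∀ φ ∈ Set.uIcc (φb (j + 1)) (φc (j + 1)),
        φ ∈ Set.Ioo (θ (j + 1) + δ - Real.pi) (θ (j + 1)) := by
      intro φ hφ
      exact (Set.ordConnected_Ioo.uIcc_subset (hφb (j + 1) hjJ) (hφc (j + 1) hjJ)) hφ
    have h2 := polygon_psi (x := α j) (y := α (j + 1)) hκ0
      (fun φ hφ => hang _ _ _ (hα' j hjJ) (hconv φ hφ))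
      (fun φ hφ => hang _ _ _ (hα (j + 1) hjJ) (hconv φ hφ))
    have h3 : |α j - α (j + 1)| ≤ 2 * η := by
      have h4 := abs_le.1 (hα' j hjJ)
      have h5 := abs_le.1 (hα (j + 1) hjJ)
      rw [abs_le]
      constructor <;> linarith [h4.1, h4.2, h5.1, h5.2]
    have h6 : |α j - α (j + 1)| / κ ^ 2 * |φc (j + 1) - φb (j + 1)| ≤
        2 * η / κ ^ 2 * |φc (j + 1) - φb (j + 1)| := by
      apply mul_le_mul_of_nonneg_right _ (abs_nonneg _)
      exact div_le_div_of_nonneg_right h3 (by positivity)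
    have h7 := le_abs_self ((Real.log (Real.sin (α j - φc (j + 1))) -
        Real.log (Real.sin (α (j + 1) - φc (j + 1)))) -
      (Real.log (Real.sin (α j - φb (j + 1))) - Real.log (Real.sin (α (j + 1) - φb (j + 1)))))
    linarith
  rw [← Finset.mul_sum] at hdiff
  set T : ℝ := ∑ j ∈ Finset.range J, |φc (j + 1) - φb (j + 1)| with hT
  have hT0 : 0 ≤ T := Finset.sum_nonneg fun _ _ => abs_nonneg _
  have h8 : σ * κ ^ 2 ≤ 6 * η * T := by
    have h9 : 2 * η / κ ^ 2 * T = 2 * η * T / κ ^ 2 := by ring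
    rw [h9, le_div_iff₀ (by positivity)] at hdiff
    linarith
  have h10 : 0.01529 * δ ^ 3 ≤ σ * κ ^ 2 := by
    have h11 : (0.3138 * δ) ^ 2 ≤ κ ^ 2 := pow_le_pow_left₀ (by positivity) hκ2 2
    have h12 : (0.1553 * δ) * (0.3138 * δ) ^ 2 ≤ σ * κ ^ 2 :=
      mul_le_mul hσ2 h11 (by positivity) hσ0.le
    have h13 : 0.01529 * δ ^ 3 ≤ (0.1553 * δ) * (0.3138 * δ) ^ 2 := by
      have : 0 ≤ δ ^ 3 := by positivity
      nlinarith
    linarith
  rw [div_le_iff₀ (by positivity)]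
  have h14 : 0 ≤ δ ^ 3 := by positivity
  nlinarith

end Pool.Agent.Lib.MP_95e7ec_an
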